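import Mathlib

set_option autoImplicit false

namespace Pool.Agent.Helper20

open Finset

/-- Column-wise bound for an integer determinant. -/
theorem abs_det_le_col {n : Type*} [Fintype n] [DecidableEq n] (A : Matrix n n ℤ) (x : n → ℤ)
    (hx : ∀ i j, |A i j| ≤ x j) : |A.det| ≤ (Fintype.card n).factorial * ∏ j, x j := by
  rw [Matrix.det_apply]
  refine (Finset.abs_sum_le_sum_abs _ _).trans ?_
  have h1 : ∀ σ ∈ (Finset.univ : Finset (Equiv.Perm n)),
      |Equiv.Perm.sign σ • ∏ i, A (σ i) i| ≤ ∏ j, x j := by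
    intro σ _
    have : |Equiv.Perm.sign σ • ∏ i, A (σ i) i| = ∏ i, |A (σ i) i| := by
      rcases Int.units_eq_one_or (Equiv.Perm.sign σ) with h | h <;>
      simp [h, Finset.abs_prod]
    rw [this]
    apply Finset.prod_le_prod
    · intro i _; exact abs_nonneg _
    · intro i _; exact hx _ _
  calc _ ≤ ∑ σ : Equiv.Perm n, ∏ j, x j := Finset.sum_le_sum h1
    _ = _ := by
      rw [Finset.sum_const, Finset.card_univ, Fintype.card_perm, nsmul_eq_mul]

/-- Divisibility of a determinant whose columns are divisible. -/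
theorem prod_dvd_det_col {n : Type*} [Fintype n] [DecidableEq n] (A : Matrix n n ℤ) (d : n → ℤ)
    (hd : ∀ i j, d j ∣ A i j) : (∏ j, d j) ∣ A.det := by
  choose Q hQ using hd
  have : A = Matrix.of fun i j => d j * Q i j := by
    ext i j; simp [hQ i j]
  rw [this, Matrix.det_mul_row]
  exact Dvd.intro _ rfl

/-- signed maximal minors of an `n × (n+1)` matrix -/
def mv {n : ℕ} (A : Matrix (Fin n) (Fin (n + 1)) ℤ) : Fin (n + 1) → ℤ :=
  fun j => (-1) ^ (j : ℕ) * (A.submatrix id j.succAbove).det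

/-- stack a row on top of a matrix -/
def consRow {n : ℕ} (w : Fin (n + 1) → ℤ) (A : Matrix (Fin n) (Fin (n + 1)) ℤ) :
    Matrix (Fin (n + 1)) (Fin (n + 1)) ℤ :=
  Matrix.of (Fin.cons w A : Fin (n + 1) → Fin (n + 1) → ℤ)

@[simp] theorem consRow_zero {n : ℕ} (w : Fin (n + 1) → ℤ) (A : Matrix (Fin n) (Fin (n + 1)) ℤ)
    (j : Fin (n + 1)) : consRow w A 0 j = w j := by simp [consRow]

@[simp] theorem consRow_succ {n : ℕ} (w : Fin (n + 1) → ℤ) (A : Matrix (Fin n) (Fin (n + 1)) ℤ)
    (i : Fin n) (j : Fin (n + 1)) : consRow w A i.succ j = A i j := by simp [consRow]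

theorem consRow_det {n : ℕ} (w : Fin (n + 1) → ℤ) (A : Matrix (Fin n) (Fin (n + 1)) ℤ) :
    (consRow w A).det = ∑ j, w j * mv A j := by
  rw [Matrix.det_succ_row_zero]
  apply Finset.sum_congr rfl
  intro j _
  have : (consRow w A).submatrix Fin.succ j.succAbove = A.submatrix id j.succAbove := by
    ext a b; simp [Matrix.submatrix_apply]
  rw [this, consRow_zero, mv]
  ring

theorem abs_mv_le {n : ℕ} (A : Matrix (Fin n) (Fin (n + 1)) ℤ) (x : Fin (n + 1) → ℤ)
    (hx0 : ∀ j, 0 ≤ x j) (hx : ∀ i j, |A i j| ≤ x j) (j : Fin (n + 1)) :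
    |mv A j| * x j ≤ n.factorial * ∏ i, x i := by
  have h1 : |mv A j| = |(A.submatrix id j.succAbove).det| := by
    rw [mv, abs_mul, abs_pow, abs_neg, abs_one, one_pow, one_mul]
  have h2 := abs_det_le_col (A.submatrix id j.succAbove) (fun i => x (j.succAbove i))
    (by intro a b; exact hx _ _)
  rw [Fintype.card_fin] at h2
  rw [h1, Fin.prod_univ_succAbove _ j]
  calc _ ≤ (n.factorial * ∏ i, x (j.succAbove i)) * x j :=
        mul_le_mul_of_nonneg_right h2 (hx0 j)
    _ = _ := by ring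

/-- number of positive divisors of `|D|` -/
def dv (D : ℤ) : ℕ := D.natAbs.divisors.card

theorem card_le_of_dvd {α : Type*} [DecidableEq α] (S : Finset α) (f : α → ℤ) (k : ℕ) (D : ℤ)
    (hD : D ≠ 0) (hdvd : ∀ x ∈ S, f x ∣ D)
    (hfib : ∀ y : ℤ, (S.filter (fun x => f x = y)).card ≤ k) : S.card ≤ k * (2 * dv D) := by
  have h1 := Finset.card_le_mul_card_image (f := f) S k (fun a _ => hfib a)
  refine h1.trans (Nat.mul_le_mul_left k ?_)
  have h2 : S.image f ⊆ (D.natAbs.divisors.image (fun d : ℕ => (d : ℤ))) ∪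
      (D.natAbs.divisors.image (fun d : ℕ => -(d : ℤ))) := by
    intro y hy
    obtain ⟨x, hx, rfl⟩ := Finset.mem_image.mp hy
    have hd := hdvd x hx
    have hd' : (f x).natAbs ∈ D.natAbs.divisors := by
      rw [Nat.mem_divisors]
      exact ⟨Int.natAbs_dvd_natAbs.mpr hd, Int.natAbs_ne_zero.mpr hD⟩
    rw [Finset.mem_union, Finset.mem_image, Finset.mem_image]
    rcases Int.natAbs_eq (f x) with h | h
    · left; exact ⟨_, hd', h.symm⟩
    · right; exact ⟨_, hd', h.symm⟩
  calc (S.image f).card ≤ _ := Finset.card_le_card h2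
    _ ≤ _ := Finset.card_union_le _ _
    _ ≤ D.natAbs.divisors.card + D.natAbs.divisors.card :=
        Nat.add_le_add Finset.card_image_le Finset.card_image_le
    _ = 2 * dv D := by rw [dv]; ring

end Pool.Agent.Helper20
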