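import Mathlib
import Pool.Agent.Helper20.HypMinor

set_option autoImplicit false

namespace Pool.Agent.Helper20

open Finset

/-- Either some maximal minor of an `n × (n+1)` evaluation matrix is nonzero, or there are two
independent linear relations. -/
theorem minor_or_two_relations {n : ℕ} {ι : Type*} (S : Finset ι) (v : ι → Fin (n + 1) → ℤ) :
    (∃ Q : Fin n → ι, (∀ k, Q k ∈ S) ∧ mv (Matrix.of fun k => v (Q k)) ≠ 0) ∨
    (∃ g g' : Fin (n + 1) → ℚ, (∀ r s : ℚ, (∀ j, r * g j + s * g' j = 0) → r = 0 ∧ s = 0) ∧
      (∀ P ∈ S, ∑ j, g j * (v P j : ℚ) = 0) ∧ (∀ P ∈ S, ∑ j, g' j * (v P j : ℚ) = 0)) := by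
  classical
  set vq : ι → Fin (n + 1) → ℚ := fun P j => (v P j : ℚ) with hvq
  set s : Set (Fin (n + 1) → ℚ) := vq '' (S : Set ι) with hs
  obtain ⟨b, hbs, hspan, hli⟩ := exists_linearIndependent ℚ s
  have hbfin : b.Finite := (S.finite_toSet.image vq).subset hbs
  have : Fintype b := hbfin.fintype
  have hg : ∀ i : b, ∃ P ∈ S, vq P = (i : Fin (n + 1) → ℚ) := fun i => hbs i.2
  choose g hgS hgv using hg
  by_cases hcard : n ≤ Fintype.card b
  · left
    -- choose `n` of the basis vectors
    obtain ⟨f⟩ : Nonempty (Fin n ↪ b) := by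
      rw [Function.Embedding.nonempty_iff_card_le, Fintype.card_fin]; exact hcard
    refine ⟨fun k => g (f k), fun k => hgS _, ?_⟩
    intro h0
    set u : Fin n → (Fin (n + 1) → ℚ) := fun k => vq (g (f k)) with hu
    have hul : LinearIndependent ℚ u := by
      have h1 : LinearIndependent ℚ (fun k : Fin n => ((f k : b) : Fin (n + 1) → ℚ)) :=
        hli.comp f f.injective
      have h2 : u = fun k : Fin n => ((f k : b) : Fin (n + 1) → ℚ) := by
        funext k; exact hgv (f k)
      rw [h2]; exact h1
    -- some standard basis vector is outside the span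
    obtain ⟨j, hj⟩ : ∃ j : Fin (n + 1), (Pi.single j 1 : Fin (n + 1) → ℚ) ∉
        Submodule.span ℚ (Set.range u) := by
      by_contra hcon
      push Not at hcon
      have htop : Submodule.span ℚ (Set.range u) = ⊤ := by
        rw [eq_top_iff, ← (Pi.basisFun ℚ (Fin (n + 1))).span_eq, Submodule.span_le]
        rintro _ ⟨i, rfl⟩
        rw [Pi.basisFun_apply]
        exact hcon i
      have h1 := finrank_span_eq_card hul
      rw [htop, finrank_top, Module.finrank_fin_fun, Fintype.card_fin] at h1
      omega
    have hcons : LinearIndependent ℚ (Fin.cons (Pi.single j 1 : Fin (n + 1) → ℚ) u :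
        Fin (n + 1) → Fin (n + 1) → ℚ) := linearIndependent_finCons.mpr ⟨hul, hj⟩
    let w : Fin (n + 1) → ℤ := Pi.single j 1
    have hmat : (consRow w (Matrix.of fun k => v (g (f k)))).map (Int.cast : ℤ → ℚ) =
        Matrix.of (Fin.cons (Pi.single j 1 : Fin (n + 1) → ℚ) u : Fin (n + 1) → Fin (n + 1) → ℚ) := by
      ext a c
      refine Fin.cases ?_ (fun a => ?_) a
      · rw [Matrix.map_apply, consRow_zero, Matrix.of_apply, Fin.cons_zero]
        simp only [w, Pi.single_apply]
        split_ifs <;> simp
      · rw [Matrix.map_apply, consRow_succ, Matrix.of_apply, Matrix.of_apply, Fin.cons_succ]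
    have hunit : IsUnit (Matrix.of (Fin.cons (Pi.single j 1 : Fin (n + 1) → ℚ) u :
        Fin (n + 1) → Fin (n + 1) → ℚ)) := by
      rw [← Matrix.linearIndependent_rows_iff_isUnit]
      exact hcons
    rw [← hmat, Matrix.isUnit_iff_isUnit_det] at hunit
    apply hunit.ne_zero
    have h3 : ((consRow w (Matrix.of fun k => v (g (f k)))).map (Int.cast : ℤ → ℚ)).det =
        (((consRow w (Matrix.of fun k => v (g (f k)))).det : ℤ) : ℚ) := by
      have := (Int.castRingHom ℚ).map_det (consRow w (Matrix.of fun k => v (g (f k))))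
      simpa using this.symm
    rw [h3, consRow_det]
    simp only [h0, Pi.zero_apply, mul_zero, Finset.sum_const_zero, Int.cast_zero]
  · right
    push Not at hcard
    -- the evaluation map at the basis vectors has large kernel
    let L : (Fin (n + 1) → ℚ) →ₗ[ℚ] (b → ℚ) :=
      { toFun := fun x i => ∑ j, x j * (i : Fin (n + 1) → ℚ) j
        map_add' := by
          intro x y; ext i
          simp only [Pi.add_apply, add_mul, Finset.sum_add_distrib]
        map_smul' := by
          intro a x; ext i
          simp only [Pi.smul_apply, smul_eq_mul, RingHom.id_apply, Finset.mul_sum]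
          apply Finset.sum_congr rfl; intro j _; ring }
    have hrk : 1 < Module.finrank ℚ L.ker := by
      have h1 := L.finrank_range_add_finrank_ker
      have h2 : Module.finrank ℚ L.range ≤ Fintype.card b := by
        calc _ ≤ Module.finrank ℚ (b → ℚ) := Submodule.finrank_le _
          _ = _ := by rw [Module.finrank_fintype_fun_eq_card]
      rw [Module.finrank_fin_fun] at h1
      omega
    have hnt : Nontrivial L.ker := Module.nontrivial_of_finrank_pos (R := ℚ) (by omega)
    obtain ⟨x, hx⟩ := exists_ne (0 : L.ker)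
    obtain ⟨y, hxy⟩ := exists_linearIndependent_pair_of_one_lt_finrank hrk hx
    rw [LinearIndependent.pair_iff] at hxy
    have hkill : ∀ z : L.ker, ∀ P ∈ S, ∑ j, (z : Fin (n + 1) → ℚ) j * (v P j : ℚ) = 0 := by
      intro z P hP
      have hz : ∀ i : b, ∑ j, (z : Fin (n + 1) → ℚ) j * (i : Fin (n + 1) → ℚ) j = 0 := by
        intro i
        have := LinearMap.mem_ker.mp z.2
        exact congrFun this i
      have hz' : ∀ u ∈ Submodule.span ℚ b, ∑ j, (z : Fin (n + 1) → ℚ) j * u j = 0 := by
        intro u hu
        induction hu using Submodule.span_induction with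
        | mem u hu => exact hz ⟨u, hu⟩
        | zero => simp
        | add u1 u2 _ _ h1 h2 =>
          simp only [Pi.add_apply, mul_add, Finset.sum_add_distrib, h1, h2, add_zero]
        | smul a u _ h1 =>
          have : ∑ j, (z : Fin (n + 1) → ℚ) j * (a • u) j =
              a * ∑ j, (z : Fin (n + 1) → ℚ) j * u j := by
            rw [Finset.mul_sum]; apply Finset.sum_congr rfl; intro j _
            simp only [Pi.smul_apply, smul_eq_mul]; ring
          rw [this, h1, mul_zero]
      have hmem : vq P ∈ Submodule.span ℚ b := by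
        rw [hspan]; exact Submodule.subset_span ⟨P, hP, rfl⟩
      exact hz' _ hmem
    refine ⟨(x : Fin (n + 1) → ℚ), (y : Fin (n + 1) → ℚ), ?_, hkill x, hkill y⟩
    intro r t hrt
    apply hxy r t
    ext j
    have := hrt j
    simpa using this

end Pool.Agent.Helper20
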