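import Mathlib

set_option autoImplicit false

namespace Pool.Agent.Helper20

/-- The classical divisor bound `d(n) ≪_ε n^ε`. -/
theorem divisor_bound (ε : ℝ) (hε : 0 < ε) :
    ∃ C : ℝ, 1 ≤ C ∧ ∀ n : ℕ, n ≠ 0 → ((n.divisors.card : ℕ) : ℝ) ≤ C * (n : ℝ) ^ ε := by
  have hlog2 : 0 < Real.log 2 := Real.log_pos (by norm_num)
  set K : ℝ := max 1 (1 / (ε * Real.log 2)) with hK
  have hK1 : 1 ≤ K := le_max_left _ _
  have hK0 : 0 < K := lt_of_lt_of_le one_pos hK1
  have hK2 : 1 / (ε * Real.log 2) ≤ K := le_max_right _ _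
  obtain ⟨P0, hP0⟩ := exists_nat_gt ((2 : ℝ) ^ (1 / ε))
  have hKey : ∀ a : ℕ, ((a : ℝ) + 1) ≤ K * (2 : ℝ) ^ (ε * a) := by
    intro a
    have h1 : (1 : ℝ) + ε * a * Real.log 2 ≤ (2 : ℝ) ^ (ε * a) := by
      rw [Real.rpow_def_of_pos (by norm_num : (0 : ℝ) < 2)]
      have := Real.add_one_le_exp (Real.log 2 * (ε * a))
      nlinarith
    have h2 : 1 ≤ K * (ε * Real.log 2) := by
      have hpos : 0 < ε * Real.log 2 := by positivity
      calc (1 : ℝ) = (1 / (ε * Real.log 2)) * (ε * Real.log 2) := by field_simp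
        _ ≤ K * (ε * Real.log 2) := by gcongr
    have ha : (0 : ℝ) ≤ a := Nat.cast_nonneg a
    calc (a : ℝ) + 1 ≤ K * (ε * Real.log 2) * a + K := by nlinarith
      _ = K * (1 + ε * a * Real.log 2) := by ring
      _ ≤ K * (2 : ℝ) ^ (ε * a) := by gcongr
  refine ⟨K ^ P0, one_le_pow₀ hK1, ?_⟩
  intro n hn
  rw [Nat.card_divisors hn]
  have hprod : (n : ℝ) ^ ε = ∏ q ∈ n.primeFactors, ((q : ℝ) ^ (ε * (n.factorization q : ℝ))) := by
    conv_lhs => rw [← Nat.prod_factorization_pow_eq_self hn]
    rw [Finsupp.prod, Nat.support_factorization]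
    push_cast
    rw [← Real.finsetProd_rpow]
    · apply Finset.prod_congr rfl
      intro q hq
      rw [← Real.rpow_natCast, ← Real.rpow_mul (Nat.cast_nonneg q)]
      congr 1
      ring
    · intro i hi
      positivity
  rw [hprod]
  push_cast
  have hterm : ∀ q ∈ n.primeFactors, ((n.factorization q : ℝ) + 1) ≤
      (if q < P0 then K else 1) * ((q : ℝ) ^ (ε * (n.factorization q : ℝ))) := by
    intro q hq
    have hqp : q.Prime := Nat.prime_of_mem_primeFactors hq
    have hq2 : (2 : ℝ) ≤ q := by exact_mod_cast hqp.two_le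
    split_ifs with h
    · refine (hKey _).trans ?_
      gcongr
    · rw [one_mul]
      have hqP : (P0 : ℝ) ≤ q := by exact_mod_cast not_lt.mp h
      have h2 : (2 : ℝ) ≤ (q : ℝ) ^ ε := by
        have h3 : ((2 : ℝ) ^ (1 / ε)) ^ ε ≤ (q : ℝ) ^ ε := by
          apply Real.rpow_le_rpow (by positivity) _ hε.le
          linarith
        rw [← Real.rpow_mul (by norm_num)] at h3
        rwa [one_div, inv_mul_cancel₀ hε.ne', Real.rpow_one] at h3
      rw [Real.rpow_mul (by positivity), Real.rpow_natCast]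
      calc ((n.factorization q : ℝ) + 1) ≤ (2 : ℝ) ^ (n.factorization q) := by
            have := Nat.lt_two_pow_self (n := n.factorization q)
            exact_mod_cast this
        _ ≤ _ := by gcongr
  calc ∏ q ∈ n.primeFactors, ((n.factorization q : ℝ) + 1)
      ≤ ∏ q ∈ n.primeFactors, ((if q < P0 then K else 1) * ((q : ℝ) ^ (ε * (n.factorization q : ℝ)))) := by
        apply Finset.prod_le_prod
        · intro i hi; positivity
        · exact hterm
    _ = (∏ q ∈ n.primeFactors, (if q < P0 then K else 1)) *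
          ∏ q ∈ n.primeFactors, ((q : ℝ) ^ (ε * (n.factorization q : ℝ))) := by
        rw [Finset.prod_mul_distrib]
    _ ≤ K ^ P0 * ∏ q ∈ n.primeFactors, ((q : ℝ) ^ (ε * (n.factorization q : ℝ))) := by
        gcongr
        rw [Finset.prod_ite]
        simp only [Finset.prod_const_one, mul_one, Finset.prod_const]
        apply pow_le_pow_right₀ hK1
        calc (n.primeFactors.filter (fun q => q < P0)).card ≤ (Finset.range P0).card := by
              apply Finset.card_le_card
              intro x hx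
              simp only [Finset.mem_filter] at hx
              exact Finset.mem_range.mpr hx.2
          _ = P0 := Finset.card_range P0

end Pool.Agent.Helper20
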