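import Mathlib
import Pool.Agent.Helper20.DivisorBound

set_option autoImplicit false

namespace Pool.Agent.Helper20

/-- A finite set of integer points of the box `[0,M]^2` lying on the nondegenerate modular
hyperbola `x y + A x + B y + C = 0 (mod p)`, with `M < p`. -/
structure Conf (p : ℕ) (A B C : ℤ) (M : ℕ) (S : Finset (ℤ × ℤ)) : Prop where
  hp : p.Prime
  hlam : ¬ ((p : ℤ) ∣ A * B - C)
  hbox : ∀ P ∈ S, 0 ≤ P.1 ∧ P.1 ≤ (M : ℤ) ∧ 0 ≤ P.2 ∧ P.2 ≤ (M : ℤ)
  hmod : ∀ P ∈ S, (p : ℤ) ∣ P.1 * P.2 + A * P.1 + B * P.2 + C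
  hMp : M < p

namespace Conf

variable {p : ℕ} {A B C : ℤ} {M : ℕ} {S T : Finset (ℤ × ℤ)}

theorem subset (h : Conf p A B C M S) (hT : T ⊆ S) : Conf p A B C M T where
  hp := h.hp
  hlam := h.hlam
  hbox := fun P hP => h.hbox P (hT hP)
  hmod := fun P hP => h.hmod P (hT hP)
  hMp := h.hMp

theorem swap (h : Conf p A B C M S) : Conf p B A C M (S.image Prod.swap) where
  hp := h.hp
  hlam := by rw [mul_comm B A]; exact h.hlam
  hbox := by
    intro P hP
    obtain ⟨Q, hQ, rfl⟩ := Finset.mem_image.mp hP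
    have := h.hbox Q hQ
    simp only [Prod.fst_swap, Prod.snd_swap]
    tauto
  hmod := by
    intro P hP
    obtain ⟨Q, hQ, rfl⟩ := Finset.mem_image.mp hP
    have := h.hmod Q hQ
    simp only [Prod.fst_swap, Prod.snd_swap]
    convert this using 1
    ring
  hMp := h.hMp

theorem card_swap (S : Finset (ℤ × ℤ)) : (S.image Prod.swap).card = S.card :=
  Finset.card_image_of_injective _ Prod.swap_injective

theorem prime_int (h : Conf p A B C M S) : Prime (p : ℤ) := Nat.prime_iff_prime_int.mp h.hp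

theorem not_dvd_fst (h : Conf p A B C M S) {P : ℤ × ℤ} (hP : P ∈ S) :
    ¬ ((p : ℤ) ∣ P.1 + B) := by
  intro hd
  apply h.hlam
  have h1 := h.hmod P hP
  have h2 : (p : ℤ) ∣ (P.1 + B) * (P.2 + A) := Dvd.dvd.mul_right hd _
  have : A * B - C = (P.1 + B) * (P.2 + A) - (P.1 * P.2 + A * P.1 + B * P.2 + C) := by ring
  rw [this]
  exact dvd_sub h2 h1

theorem not_dvd_snd (h : Conf p A B C M S) {P : ℤ × ℤ} (hP : P ∈ S) :
    ¬ ((p : ℤ) ∣ P.2 + A) := by
  intro hd
  apply h.hlam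
  have h1 := h.hmod P hP
  have h2 : (p : ℤ) ∣ (P.1 + B) * (P.2 + A) := Dvd.dvd.mul_left hd _
  have : A * B - C = (P.1 + B) * (P.2 + A) - (P.1 * P.2 + A * P.1 + B * P.2 + C) := by ring
  rw [this]
  exact dvd_sub h2 h1

/-- small multiples of `p` vanish -/
theorem eq_of_dvd_sub (h : Conf p A B C M S) {u v : ℤ} (hu : 0 ≤ u) (hu' : u ≤ M)
    (hv : 0 ≤ v) (hv' : v ≤ M) (hd : (p : ℤ) ∣ u - v) : u = v := by
  have hM : (M : ℤ) < p := by exact_mod_cast h.hMp
  have : |u - v| < (p : ℤ) := by rw [abs_lt]; constructor <;> linarith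
  have := Int.eq_zero_of_abs_lt_dvd hd this
  linarith

theorem inj1 (h : Conf p A B C M S) {P Q : ℤ × ℤ} (hP : P ∈ S) (hQ : Q ∈ S)
    (he : P.1 = Q.1) : P = Q := by
  have h1 := h.hmod P hP
  have h2 := h.hmod Q hQ
  have h3 : (p : ℤ) ∣ (P.1 + B) * (P.2 - Q.2) := by
    have : (P.1 + B) * (P.2 - Q.2) = (P.1 * P.2 + A * P.1 + B * P.2 + C) -
        (Q.1 * Q.2 + A * Q.1 + B * Q.2 + C) := by rw [← he]; ring
    rw [this]; exact dvd_sub h1 h2
  rcases h.prime_int.dvd_or_dvd h3 with h4 | h4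
  · exact absurd h4 (h.not_dvd_fst hP)
  · have b1 := h.hbox P hP
    have b2 := h.hbox Q hQ
    have := h.eq_of_dvd_sub b1.2.2.1 b1.2.2.2 b2.2.2.1 b2.2.2.2 h4
    exact Prod.ext he this

theorem inj2 (h : Conf p A B C M S) {P Q : ℤ × ℤ} (hP : P ∈ S) (hQ : Q ∈ S)
    (he : P.2 = Q.2) : P = Q := by
  have h1 := h.hmod P hP
  have h2 := h.hmod Q hQ
  have h3 : (p : ℤ) ∣ (P.2 + A) * (P.1 - Q.1) := by
    have : (P.2 + A) * (P.1 - Q.1) = (P.1 * P.2 + A * P.1 + B * P.2 + C) -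
        (Q.1 * Q.2 + A * Q.1 + B * Q.2 + C) := by rw [← he]; ring
    rw [this]; exact dvd_sub h1 h2
  rcases h.prime_int.dvd_or_dvd h3 with h4 | h4
  · exact absurd h4 (h.not_dvd_snd hP)
  · have b1 := h.hbox P hP
    have b2 := h.hbox Q hQ
    have := h.eq_of_dvd_sub b1.1 b1.2.1 b2.1 b2.2.1 h4
    exact Prod.ext this he

/-- no three points of a configuration are collinear -/
theorem noncollinear (h : Conf p A B C M S) {P Q R : ℤ × ℤ} (hP : P ∈ S) (hQ : Q ∈ S)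
    (hR : R ∈ S) (hPQ : P ≠ Q) (hPR : P ≠ R) (hQR : Q ≠ R) :
    (Q.1 - P.1) * (R.2 - P.2) - (R.1 - P.1) * (Q.2 - P.2) ≠ 0 := by
  intro h0
  have h1 := h.hmod P hP
  have h2 := h.hmod Q hQ
  have h3 := h.hmod R hR
  set u := Q.1 - P.1 with hu
  set v := Q.2 - P.2 with hv
  set u' := R.1 - P.1 with hu'
  set v' := R.2 - P.2 with hv'
  have e1 : (p : ℤ) ∣ (P.1 + B) * v + (P.2 + A) * u + u * v := by
    have : (P.1 + B) * v + (P.2 + A) * u + u * v =
        (Q.1 * Q.2 + A * Q.1 + B * Q.2 + C) - (P.1 * P.2 + A * P.1 + B * P.2 + C) := by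
      rw [hu, hv]; ring
    rw [this]; exact dvd_sub h2 h1
  have e2 : (p : ℤ) ∣ (P.1 + B) * v' + (P.2 + A) * u' + u' * v' := by
    have : (P.1 + B) * v' + (P.2 + A) * u' + u' * v' =
        (R.1 * R.2 + A * R.1 + B * R.2 + C) - (P.1 * P.2 + A * P.1 + B * P.2 + C) := by
      rw [hu', hv']; ring
    rw [this]; exact dvd_sub h3 h1
  have e3 : (p : ℤ) ∣ u * u' * (v - v') := by
    have : u * u' * (v - v') = u' * ((P.1 + B) * v + (P.2 + A) * u + u * v)
        - u * ((P.1 + B) * v' + (P.2 + A) * u' + u' * v')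
        + (P.1 + B) * (u * v' - u' * v) := by ring
    rw [this, h0, mul_zero, add_zero]
    exact dvd_sub (Dvd.dvd.mul_left e1 _) (Dvd.dvd.mul_left e2 _)
  have bP := h.hbox P hP
  have bQ := h.hbox Q hQ
  have bR := h.hbox R hR
  rcases h.prime_int.dvd_or_dvd e3 with h4 | h4
  · rcases h.prime_int.dvd_or_dvd h4 with h5 | h5
    · exact hPQ (h.inj1 hP hQ (h.eq_of_dvd_sub bQ.1 bQ.2.1 bP.1 bP.2.1 h5).symm)
    · exact hPR (h.inj1 hP hR (h.eq_of_dvd_sub bR.1 bR.2.1 bP.1 bP.2.1 h5).symm)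
  · have : (p : ℤ) ∣ Q.2 - R.2 := by
      have e : v - v' = Q.2 - R.2 := by rw [hv, hv']; ring
      rwa [e] at h4
    exact hQR (h.inj2 hQ hR (h.eq_of_dvd_sub bQ.2.2.1 bQ.2.2.2 bR.2.2.1 bR.2.2.2 this))

open Polynomial in
/-- Bezout modulo `p`: a polynomial `t0 + tx x + txx x^2 + ty y + tyy y^2` vanishing mod `p` at
five points of the configuration is zero mod `p`. -/
theorem lemmaT (h : Conf p A B C M S) (hS : 5 ≤ S.card) {t0 tx txx ty tyy : ℤ}
    (ht : ∀ P ∈ S, (p : ℤ) ∣ t0 + tx * P.1 + txx * P.1 ^ 2 + ty * P.2 + tyy * P.2 ^ 2) :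
    (p : ℤ) ∣ t0 ∧ (p : ℤ) ∣ tx ∧ (p : ℤ) ∣ txx ∧ (p : ℤ) ∣ ty ∧ (p : ℤ) ∣ tyy := by
  have : Fact p.Prime := ⟨h.hp⟩
  set lam : ZMod p := ((A * B - C : ℤ) : ZMod p) with hlam
  have hlam0 : lam ≠ 0 := by
    rw [hlam, Ne, ZMod.intCast_zmod_eq_zero_iff_dvd]; exact h.hlam
  -- the polynomial in `s = x + B`
  let F : Polynomial (ZMod p) :=
    (Polynomial.C (t0 : ZMod p) + Polynomial.C (tx : ZMod p) * (X - Polynomial.C (B : ZMod p))
      + Polynomial.C (txx : ZMod p) * (X - Polynomial.C (B : ZMod p)) ^ 2) * X ^ 2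
      - Polynomial.C (ty : ZMod p) * (Polynomial.C (A : ZMod p) * X - Polynomial.C lam) * X
      + Polynomial.C (tyy : ZMod p) * (Polynomial.C (A : ZMod p) * X - Polynomial.C lam) ^ 2
  have hFdef : F = Polynomial.C (txx : ZMod p) * X ^ 4
      + Polynomial.C ((tx : ZMod p) - 2 * txx * B) * X ^ 3
      + Polynomial.C ((t0 : ZMod p) - tx * B + txx * B ^ 2 - ty * A + tyy * A ^ 2) * X ^ 2
      + Polynomial.C ((ty : ZMod p) * lam - 2 * tyy * A * lam) * X
      + Polynomial.C ((tyy : ZMod p) * lam ^ 2) := by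
    simp only [F, map_sub, map_add, map_mul, map_pow, map_ofNat]
    ring
  have hdeg : F.natDegree < 5 := by
    rw [hFdef]
    refine lt_of_le_of_lt (b := 4) ?_ (by norm_num)
    compute_degree
  have hF0 : F = 0 := by
    apply Polynomial.eq_zero_of_natDegree_lt_card_of_eval_eq_zero' F
      (S.image (fun P => ((P.1 + B : ℤ) : ZMod p)))
    · intro i hi
      obtain ⟨P, hP, rfl⟩ := Finset.mem_image.mp hi
      have h1 : ((P.1 * P.2 + A * P.1 + B * P.2 + C : ℤ) : ZMod p) = 0 :=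
        (ZMod.intCast_zmod_eq_zero_iff_dvd _ _).mpr (h.hmod P hP)
      have h2 : ((t0 + tx * P.1 + txx * P.1 ^ 2 + ty * P.2 + tyy * P.2 ^ 2 : ℤ) : ZMod p) = 0 :=
        (ZMod.intCast_zmod_eq_zero_iff_dvd _ _).mpr (ht P hP)
      push_cast at h1 h2 hlam ⊢
      simp only [F, eval_add, eval_sub, eval_mul, eval_C, eval_X, eval_pow]
      -- (x+B) y = -(A x + C) = -(A (x+B) - lam)
      have h3 : (A : ZMod p) * ((P.1 : ZMod p) + B) - lam = - ((P.1 : ZMod p) + B) * P.2 := by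
        rw [hlam]; linear_combination h1
      rw [h3]
      linear_combination (((P.1 : ZMod p) + B) ^ 2) * h2
    · calc F.natDegree < 5 := hdeg
        _ ≤ S.card := hS
        _ = (S.image (fun P => ((P.1 + B : ℤ) : ZMod p))).card := by
          symm
          apply Finset.card_image_of_injOn
          intro P hP Q hQ he
          have he' : ((P.1 + B : ℤ) : ZMod p) = ((Q.1 + B : ℤ) : ZMod p) := he
          rw [ZMod.intCast_eq_intCast_iff_dvd_sub] at he'
          have b1 := h.hbox P hP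
          have b2 := h.hbox Q hQ
          have e : (p : ℤ) ∣ Q.1 - P.1 := by
            have : Q.1 + B - (P.1 + B) = Q.1 - P.1 := by ring
            rwa [this] at he'
          exact h.inj1 hP hQ (h.eq_of_dvd_sub b2.1 b2.2.1 b1.1 b1.2.1 e).symm
  rw [hFdef] at hF0
  have c4 := congrArg (fun f => Polynomial.coeff f 4) hF0
  have c3 := congrArg (fun f => Polynomial.coeff f 3) hF0
  have c2 := congrArg (fun f => Polynomial.coeff f 2) hF0
  have c1 := congrArg (fun f => Polynomial.coeff f 1) hF0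
  have c0 := congrArg (fun f => Polynomial.coeff f 0) hF0
  simp only [coeff_add, coeff_C_mul, coeff_X_pow, coeff_X, coeff_C, coeff_zero] at c4 c3 c2 c1 c0
  norm_num at c4 c3 c2 c1 c0
  have k4 : (txx : ZMod p) = 0 := c4
  have k3 : (tx : ZMod p) = 0 := by rw [k4] at c3; simpa using c3
  have k0 : (tyy : ZMod p) = 0 := by
    rcases c0 with c0 | c0
    · exact c0
    · exact absurd c0 hlam0
  have k1 : (ty : ZMod p) = 0 := by
    rw [k0] at c1
    simp only [mul_zero, zero_mul, sub_zero] at c1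
    rcases mul_eq_zero.mp c1 with c1 | c1
    · exact c1
    · exact absurd c1 hlam0
  have k2 : (t0 : ZMod p) = 0 := by
    rw [k4, k3, k1, k0] at c2; simpa using c2
  exact ⟨(ZMod.intCast_zmod_eq_zero_iff_dvd _ _).mp k2, (ZMod.intCast_zmod_eq_zero_iff_dvd _ _).mp k3,
    (ZMod.intCast_zmod_eq_zero_iff_dvd _ _).mp k4, (ZMod.intCast_zmod_eq_zero_iff_dvd _ _).mp k1,
    (ZMod.intCast_zmod_eq_zero_iff_dvd _ _).mp k0⟩

end Conf

end Pool.Agent.Helper20
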