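import Mathlib
import Pool.Agent.Helper20.HypBasic
import Pool.Agent.Helper20.HypMinor

set_option autoImplicit false

namespace Pool.Agent.Helper20

open Finset

/-- evaluation vector for bilinear monomials -/
def v4 (P : ℤ × ℤ) : Fin 4 → ℤ := ![P.1 * P.2, P.1, P.2, 1]

namespace Conf

variable {p : ℕ} {A B C : ℤ} {M : ℕ} {S : Finset (ℤ × ℤ)}

theorem fiber_fst (h : Conf p A B C M S) {a b : ℤ} (ha : a ≠ 0) (y : ℤ) :
    (S.filter (fun P => a * P.1 + b = y)).card ≤ 1 := by
  rw [Finset.card_le_one]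
  intro P hP Q hQ
  rw [Finset.mem_filter] at hP hQ
  apply h.inj1 hP.1 hQ.1
  have : a * P.1 = a * Q.1 := by linarith [hP.2, hQ.2]
  exact mul_left_cancel₀ ha this

theorem fiber_snd (h : Conf p A B C M S) {a b : ℤ} (ha : a ≠ 0) (y : ℤ) :
    (S.filter (fun P => a * P.2 + b = y)).card ≤ 1 := by
  rw [Finset.card_le_one]
  intro P hP Q hQ
  rw [Finset.mem_filter] at hP hQ
  apply h.inj2 hP.1 hQ.1
  have : a * P.2 = a * Q.2 := by linarith [hP.2, hQ.2]
  exact mul_left_cancel₀ ha this

/-- Points of the configuration on a bilinear curve. -/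
theorem card_bilinear (h : Conf p A B C M S) (hM : 1 ≤ M)
    {α β γ δ : ℤ} (hne : ¬ (α = 0 ∧ β = 0 ∧ γ = 0 ∧ δ = 0))
    (hrel : ∀ P ∈ S, α * (P.1 * P.2) + β * P.1 + γ * P.2 + δ = 0) :
    ∃ D : ℤ, D ≠ 0 ∧ |D| ≤ 72 * (M : ℤ) ^ 6 ∧ S.card ≤ 2 * dv D + 2 := by
  have hM' : (1 : ℤ) ≤ M := by exact_mod_cast hM
  by_cases hc : S.card ≤ 2
  · refine ⟨1, one_ne_zero, ?_, by omega⟩
    have : (1 : ℤ) ≤ (M : ℤ) ^ 6 := one_le_pow₀ hM'
    rw [abs_one]; linarith
  push Not at hc
  obtain ⟨P1, h1, P2, h2, P3, h3, h12, h13, h23⟩ := Finset.two_lt_card.mp hc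
  let Mat : Matrix (Fin 3) (Fin 4) ℤ := Matrix.of ![v4 P1, v4 P2, v4 P3]
  set m := mv Mat with hm
  have hvan : ∀ P ∈ S, m 0 * (P.1 * P.2) + m 1 * P.1 + m 2 * P.2 + m 3 = 0 := by
    intro P hP
    have hdet : (consRow (v4 P) Mat).det = 0 := by
      rw [← Matrix.exists_mulVec_eq_zero_iff]
      refine ⟨![α, β, γ, δ], ?_, ?_⟩
      · intro h0
        apply hne
        have e0 := congrFun h0 0
        have e1 := congrFun h0 1
        have e2 := congrFun h0 2
        have e3 := congrFun h0 3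
        simp at e0 e1 e2 e3
        exact ⟨e0, e1, e2, e3⟩
      · ext i
        rw [Matrix.mulVec, dotProduct, Fin.sum_univ_four]
        refine Fin.cases ?_ (fun i => ?_) i
        · simp only [consRow_zero, v4, Matrix.cons_val_zero, Matrix.cons_val_one, Matrix.cons_val]
          have := hrel P hP
          simp only [Pi.zero_apply]; linear_combination this
        · simp only [consRow_succ]
          fin_cases i
          · have := hrel P1 h1
            simp [Mat, v4]; linear_combination this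
          · have := hrel P2 h2
            simp [Mat, v4]; linear_combination this
          · have := hrel P3 h3
            simp [Mat, v4]; linear_combination this
    rw [consRow_det, Fin.sum_univ_four] at hdet
    simp only [v4, Matrix.cons_val_zero, Matrix.cons_val_one, Matrix.cons_val] at hdet
    rw [← hm] at hdet
    linear_combination hdet
  have hm0 : m 0 ≠ 0 := by
    have hnc := h.noncollinear h1 h2 h3 h12 h13 h23
    have : m 0 = (P2.1 - P1.1) * (P3.2 - P1.2) - (P3.1 - P1.1) * (P2.2 - P1.2) := by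
      rw [hm, mv, Matrix.det_fin_three]
      simp [Mat, v4, Matrix.submatrix_apply, Fin.succAbove]
      ring
    rw [this]; exact hnc
  -- bounds
  have hentry : ∀ P ∈ S, ∀ j : Fin 4, |v4 P j| ≤ (![(M : ℤ) ^ 2, M, M, 1] : Fin 4 → ℤ) j := by
    intro P hP j
    have b := h.hbox P hP
    fin_cases j
    · simp only [v4, Fin.zero_eta, Matrix.cons_val_zero]
      rw [abs_of_nonneg (mul_nonneg b.1 b.2.2.1), pow_two]
      exact mul_le_mul b.2.1 b.2.2.2 b.2.2.1 (by positivity)
    · simp only [v4, Fin.mk_one, Matrix.cons_val_one, Matrix.cons_val_zero]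
      rw [abs_of_nonneg b.1]; exact b.2.1
    · simp only [v4, Fin.reduceFinMk, Matrix.cons_val]
      rw [abs_of_nonneg b.2.2.1]; exact b.2.2.2
    · simp [v4]
  have hbd := fun j => abs_mv_le Mat (![(M : ℤ) ^ 2, M, M, 1]) (by
      intro j; fin_cases j <;> simp) (by
      intro i j
      fin_cases i
      · exact hentry P1 h1 j
      · exact hentry P2 h2 j
      · exact hentry P3 h3 j) j
  have hprod : ∏ i, (![(M : ℤ) ^ 2, M, M, 1] : Fin 4 → ℤ) i = (M : ℤ) ^ 4 := by
    rw [Fin.prod_univ_four]; simp; ring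
  have h6 : ((Nat.factorial 3 : ℕ) : ℤ) = 6 := by norm_num [Nat.factorial]
  have hMpos : (0 : ℤ) < M := by linarith
  have k0 : |m 0| ≤ 6 * (M : ℤ) ^ 2 := by
    have := hbd 0
    rw [hprod, h6] at this
    simp only [Matrix.cons_val_zero] at this
    have h' : |m 0| * (M : ℤ) ^ 2 ≤ (6 * (M : ℤ) ^ 2) * (M : ℤ) ^ 2 := by
      calc _ ≤ _ := this
        _ = _ := by ring
    exact le_of_mul_le_mul_right h' (by positivity)
  have k1 : |m 1| ≤ 6 * (M : ℤ) ^ 3 := by
    have := hbd 1
    rw [hprod, h6] at this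
    simp only [Matrix.cons_val_one, Matrix.cons_val_zero] at this
    have h' : |m 1| * (M : ℤ) ≤ (6 * (M : ℤ) ^ 3) * (M : ℤ) := by
      calc _ ≤ _ := this
        _ = _ := by ring
    exact le_of_mul_le_mul_right h' (by positivity)
  have k2 : |m 2| ≤ 6 * (M : ℤ) ^ 3 := by
    have := hbd 2
    rw [hprod, h6] at this
    simp only [Matrix.cons_val] at this
    have h' : |m 2| * (M : ℤ) ≤ (6 * (M : ℤ) ^ 3) * (M : ℤ) := by
      calc _ ≤ _ := this
        _ = _ := by ring
    exact le_of_mul_le_mul_right h' (by positivity)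
  have k3 : |m 3| ≤ 6 * (M : ℤ) ^ 4 := by
    have := hbd 3
    rw [hprod, h6] at this
    simp only [Matrix.cons_val, mul_one] at this
    exact this
  set D := m 1 * m 2 - m 0 * m 3 with hD
  have hfac : ∀ P ∈ S, (m 0 * P.1 + m 2) * (m 0 * P.2 + m 1) = D := by
    intro P hP
    have := hvan P hP
    rw [hD]; linear_combination m 0 * this
  by_cases hD0 : D = 0
  · exfalso
    have hsub : S ⊆ (S.filter (fun P => m 0 * P.1 + m 2 = 0)) ∪
        (S.filter (fun P => m 0 * P.2 + m 1 = 0)) := by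
      intro P hP
      have := hfac P hP
      rw [hD0] at this
      rcases mul_eq_zero.mp this with h' | h'
      · exact Finset.mem_union_left _ (Finset.mem_filter.mpr ⟨hP, h'⟩)
      · exact Finset.mem_union_right _ (Finset.mem_filter.mpr ⟨hP, h'⟩)
    have c1 := Finset.card_le_card hsub
    have c2 := Finset.card_union_le (S.filter (fun P => m 0 * P.1 + m 2 = 0))
        (S.filter (fun P => m 0 * P.2 + m 1 = 0))
    have c3 := h.fiber_fst (b := m 2) hm0 0
    have c4 := h.fiber_snd (b := m 1) hm0 0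
    omega
  · refine ⟨D, hD0, ?_, ?_⟩
    · have e1 : |m 1 * m 2| ≤ 36 * (M : ℤ) ^ 6 := by
        rw [abs_mul]
        calc |m 1| * |m 2| ≤ (6 * (M : ℤ) ^ 3) * (6 * (M : ℤ) ^ 3) :=
              mul_le_mul k1 k2 (abs_nonneg _) (by positivity)
          _ = _ := by ring
      have e2 : |m 0 * m 3| ≤ 36 * (M : ℤ) ^ 6 := by
        rw [abs_mul]
        calc |m 0| * |m 3| ≤ (6 * (M : ℤ) ^ 2) * (6 * (M : ℤ) ^ 4) :=
              mul_le_mul k0 k3 (abs_nonneg _) (by positivity)
          _ = _ := by ring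
      calc |D| ≤ |m 1 * m 2| + |m 0 * m 3| := abs_sub _ _
        _ ≤ _ := by linarith
    · have := card_le_of_dvd S (fun P => m 0 * P.1 + m 2) 1 D hD0
        (fun P hP => Dvd.intro _ (hfac P hP)) (fun y => h.fiber_fst hm0 y)
      omega

end Conf

end Pool.Agent.Helper20
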