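import Mathlib

set_option autoImplicit false

namespace Pool.Agent.Helper20

open Finset

attribute [local instance] Matrix.seminormedAddCommGroup

/-- dividing an integer vector by its content -/
theorem exists_prim {n : ℕ} (t : Fin n → ℤ) (ht : t ≠ 0) :
    ∃ g : ℤ, ∃ s : Fin n → ℤ, 0 < g ∧ (∀ j, t j = g * s j) ∧
      ∀ q : ℤ, Prime q → ∃ j, ¬ (q ∣ s j) := by
  have hne : (Finset.univ : Finset (Fin n)).Nonempty := by
    by_contra h
    rw [Finset.not_nonempty_iff_eq_empty] at h
    apply ht
    ext j
    exact absurd (Finset.mem_univ j) (by rw [h]; simp)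
  obtain ⟨s, hs, hs1⟩ := Finset.extract_gcd t hne
  set g := Finset.univ.gcd t with hg
  have hg0 : g ≠ 0 := by
    intro h0
    apply ht
    ext j
    rw [hs j (Finset.mem_univ j), h0, zero_mul]; rfl
  have hgn : 0 ≤ g := by
    apply Int.nonneg_of_normalize_eq_self
    rw [hg]; exact Finset.normalize_gcd
  refine ⟨g, s, lt_of_le_of_ne hgn (Ne.symm hg0), fun j => hs j (Finset.mem_univ j), ?_⟩
  intro q hq
  by_contra hcon
  push Not at hcon
  have : q ∣ Finset.univ.gcd s := Finset.dvd_gcd (fun j _ => hcon j)
  rw [hs1] at this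
  exact hq.not_isUnit (isUnit_of_dvd_one this)

/-- If the integer vectors `v P` (`P ∈ S`), with entries at most `X`, are all killed by a nonzero
rational linear form, they are killed by a nonzero integral form with small coefficients. -/
theorem small_kernel {n : ℕ} (X : ℕ) (hX : 1 ≤ X) {ι : Type*} (S : Finset ι)
    (v : ι → Fin n → ℤ) (hv : ∀ P ∈ S, ∀ j, |v P j| ≤ X)
    (w : Fin n → ℚ) (hw : w ≠ 0) (hk : ∀ P ∈ S, ∑ j, w j * (v P j : ℚ) = 0) :
    ∃ t : Fin n → ℤ, t ≠ 0 ∧ (∀ j, |t j| ≤ ((n * X) ^ n : ℕ)) ∧
      ∀ P ∈ S, ∑ j, t j * v P j = 0 := by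
  classical
  have hn : 1 ≤ n := by
    rcases Nat.eq_zero_or_pos n with h | h
    · subst h; exact absurd (Subsingleton.elim w 0) hw
    · exact h
  set vq : ι → Fin n → ℚ := fun P j => (v P j : ℚ) with hvq
  set s : Set (Fin n → ℚ) := vq '' (S : Set ι) with hs
  obtain ⟨b, hbs, hspan, hli⟩ := exists_linearIndependent ℚ s
  have hbfin : b.Finite := (S.finite_toSet.image vq).subset hbs
  have : Fintype b := hbfin.fintype
  have hcard : Fintype.card b ≤ n := by
    have := hli.fintype_card_le_finrank
    simpa using this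
  -- the functional `w` kills the span
  have hker : ∀ x ∈ Submodule.span ℚ s, ∑ j, w j * x j = 0 := by
    intro x hx
    induction hx using Submodule.span_induction with
    | mem x hx =>
      obtain ⟨P, hP, rfl⟩ := hx
      exact hk P hP
    | zero => simp
    | add x y _ _ hx hy =>
      simp only [Pi.add_apply, mul_add, Finset.sum_add_distrib, hx, hy, add_zero]
    | smul a x _ hx =>
      have : ∑ j, w j * (a • x) j = a * ∑ j, w j * x j := by
        rw [Finset.mul_sum]; apply Finset.sum_congr rfl; intro j _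
        simp only [Pi.smul_apply, smul_eq_mul]; ring
      rw [this, hx, mul_zero]
  have hlt : Fintype.card b < n := by
    rcases hcard.lt_or_eq with h | h
    · exact h
    · exfalso
      have htop : Submodule.span ℚ b = ⊤ := by
        have := hli.span_eq_top_of_card_eq_finrank' (by simpa using h)
        simpa using this
      apply hw
      ext j
      have h1 : (Pi.single j 1 : Fin n → ℚ) ∈ Submodule.span ℚ s := by
        rw [← hspan, htop]; trivial
      have := hker _ h1
      simpa [Pi.single_apply] using this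
  rcases Nat.eq_zero_or_pos (Fintype.card b) with h0 | hpos
  · -- everything vanishes
    have hb0 : b = ∅ := by
      have : IsEmpty b := Fintype.card_eq_zero_iff.mp h0
      exact Set.isEmpty_coe_sort.mp this
    have hs0 : ∀ P ∈ S, vq P = 0 := by
      intro P hP
      have h1 : vq P ∈ Submodule.span ℚ s := Submodule.subset_span ⟨P, hP, rfl⟩
      rw [← hspan, hb0, Submodule.span_empty] at h1
      exact h1
    refine ⟨fun j => if j = ⟨0, hn⟩ then 1 else 0, ?_, ?_, ?_⟩
    · intro h
      have := congrFun h ⟨0, hn⟩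
      simp at this
    · intro j
      have : (1 : ℤ) ≤ (((n * X) ^ n : ℕ) : ℤ) := by
        exact_mod_cast Nat.one_le_pow _ _ (Nat.mul_pos hn hX)
      show |(if j = ⟨0, hn⟩ then (1 : ℤ) else 0)| ≤ _
      split_ifs
      · simpa using this
      · simp only [abs_zero]; linarith
    · intro P hP
      have hz : ∀ j, v P j = 0 := by
        intro j
        have := congrFun (hs0 P hP) j
        simp only [hvq, Pi.zero_apply] at this
        exact_mod_cast this
      simp [hz]
  · -- Siegel's lemma on a basis of rows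
    have hg : ∀ i : b, ∃ P ∈ S, vq P = (i : Fin n → ℚ) := fun i => hbs i.2
    choose g hgS hgv using hg
    let Mat : Matrix b (Fin n) ℤ := fun i j => v (g i) j
    obtain ⟨t, ht0, htk, htn⟩ := Int.Matrix.exists_ne_zero_int_vec_norm_le Mat
      (by rw [Fintype.card_fin]; exact hlt) hpos
    refine ⟨t, ht0, ?_, ?_⟩
    · intro j
      have hXr : (1 : ℝ) ≤ X := by exact_mod_cast hX
      have hnr : (1 : ℝ) ≤ n := by exact_mod_cast hn
      have hMat : ‖Mat‖ ≤ X := by
        rw [Matrix.norm_le_iff (by positivity)]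
        intro i j
        rw [Int.norm_eq_abs, ← Int.cast_abs]
        exact_mod_cast hv (g i) (hgS i) j
      have h1 : ‖t j‖ ≤ ‖t‖ := norm_le_pi_norm t j
      have hbase : (Fintype.card (Fin n) : ℝ) * max 1 ‖Mat‖ ≤ (n : ℝ) * X := by
        rw [Fintype.card_fin]
        gcongr
        exact max_le hXr hMat
      have hexp : (Fintype.card b : ℝ) / ((Fintype.card (Fin n) : ℝ) - (Fintype.card b : ℝ))
          ≤ n := by
        rw [Fintype.card_fin]
        have h2 : (1 : ℝ) ≤ (n : ℝ) - (Fintype.card b : ℝ) := by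
          have : (Fintype.card b : ℝ) + 1 ≤ n := by exact_mod_cast hlt
          linarith
        rw [div_le_iff₀ (by linarith)]
        have h3 : (Fintype.card b : ℝ) ≤ n := by exact_mod_cast hcard
        nlinarith
      have hexp0 : 0 ≤ (Fintype.card b : ℝ) / ((Fintype.card (Fin n) : ℝ) - (Fintype.card b : ℝ)) := by
        rw [Fintype.card_fin]
        have h2 : (1 : ℝ) ≤ (n : ℝ) - (Fintype.card b : ℝ) := by
          have : (Fintype.card b : ℝ) + 1 ≤ n := by exact_mod_cast hlt
          linarith
        positivity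
      have h2 : ‖t‖ ≤ ((n : ℝ) * X) ^ n := by
        refine htn.trans ?_
        calc _ ≤ ((n : ℝ) * X) ^ ((Fintype.card b : ℝ) /
              ((Fintype.card (Fin n) : ℝ) - (Fintype.card b : ℝ))) := by
              apply Real.rpow_le_rpow _ hbase hexp0
              positivity
          _ ≤ ((n : ℝ) * X) ^ (n : ℝ) := by
              apply Real.rpow_le_rpow_of_exponent_le _ hexp
              nlinarith
          _ = ((n : ℝ) * X) ^ n := Real.rpow_natCast _ _
      have h3 : ‖t j‖ ≤ ((n : ℝ) * X) ^ n := h1.trans h2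
      rw [Int.norm_eq_abs, ← Int.cast_abs] at h3
      exact_mod_cast h3
    · -- `t` kills the whole span
      have hkt : ∀ x ∈ Submodule.span ℚ b, ∑ j, (t j : ℚ) * x j = 0 := by
        intro x hx
        induction hx using Submodule.span_induction with
        | mem x hx =>
          have h1 := congrFun htk ⟨x, hx⟩
          have h2 := hgv ⟨x, hx⟩
          simp only [Matrix.mulVec, dotProduct, Pi.zero_apply, Mat] at h1
          have h3 : ∀ j, x j = (v (g ⟨x, hx⟩) j : ℚ) := fun j => (congrFun h2 j).symm
          simp only [h3]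
          have : ((∑ j, v (g ⟨x, hx⟩) j * t j : ℤ) : ℚ) = 0 := by rw [h1]; simp
          push_cast at this
          rw [← this]
          apply Finset.sum_congr rfl; intro j _; ring
        | zero => simp
        | add x y _ _ hx hy =>
          simp only [Pi.add_apply, mul_add, Finset.sum_add_distrib, hx, hy, add_zero]
        | smul a x _ hx =>
          have : ∑ j, (t j : ℚ) * (a • x) j = a * ∑ j, (t j : ℚ) * x j := by
            rw [Finset.mul_sum]; apply Finset.sum_congr rfl; intro j _
            simp only [Pi.smul_apply, smul_eq_mul]; ring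
          rw [this, hx, mul_zero]
      intro P hP
      have h1 : vq P ∈ Submodule.span ℚ b := by
        rw [hspan]; exact Submodule.subset_span ⟨P, hP, rfl⟩
      have := hkt _ h1
      simp only [hvq] at this
      exact_mod_cast this

/-- primitive version of `small_kernel` -/
theorem small_kernel_prim {n : ℕ} (X : ℕ) (hX : 1 ≤ X) {ι : Type*} (S : Finset ι)
    (v : ι → Fin n → ℤ) (hv : ∀ P ∈ S, ∀ j, |v P j| ≤ X)
    (w : Fin n → ℚ) (hw : w ≠ 0) (hk : ∀ P ∈ S, ∑ j, w j * (v P j : ℚ) = 0) :
    ∃ t : Fin n → ℤ, (∀ q : ℤ, Prime q → ∃ j, ¬ (q ∣ t j)) ∧ (∀ j, |t j| ≤ ((n * X) ^ n : ℕ)) ∧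
      ∀ P ∈ S, ∑ j, t j * v P j = 0 := by
  obtain ⟨t, ht0, htb, htk⟩ := small_kernel X hX S v hv w hw hk
  obtain ⟨g, s, hg, hs, hprim⟩ := exists_prim t ht0
  refine ⟨s, hprim, ?_, ?_⟩
  · intro j
    refine le_trans ?_ (htb j)
    rw [hs j, abs_mul]
    have : 1 ≤ |g| := by rw [abs_of_pos hg]; linarith
    nlinarith [abs_nonneg (s j)]
  · intro P hP
    have := htk P hP
    simp only [hs] at this
    have h2 : g * ∑ j, s j * v P j = 0 := by
      rw [← this, Finset.mul_sum]; apply Finset.sum_congr rfl; intro j _; ring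
    rcases mul_eq_zero.mp h2 with h | h
    · exact absurd h hg.ne'
    · exact h

end Pool.Agent.Helper20
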