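import Mathlib

/-!
Random spanning subgraphs: expectation over the subsets of the edge set, union bounds.
-/

namespace Pool.Agent.Helper20.HalfP

open Finset

/-- The chromatic number of a finite graph as a natural number. -/
noncomputable def chi {V : Type} (G : SimpleGraph V) : ℕ := G.chromaticNumber.toNat

/-- Expectation of `f F`, where `F` is the random subset of the finite set `E` that keeps each
element independently with probability `p`. -/
noncomputable def EE {α : Type} (E : Finset α) (p : ℝ) (f : Finset α → ℝ) : ℝ :=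
  ∑ F ∈ E.powerset, p ^ F.card * (1 - p) ^ (E.card - F.card) * f F

/-- The expected chromatic number of the random subgraph of `G` with the same vertices that keeps
each edge of `G` independently with probability `p`. -/
noncomputable def EChi {V : Type} [Fintype V] [DecidableEq V] (G : SimpleGraph V)
    [DecidableRel G.Adj] (p : ℝ) : ℝ :=
  EE G.edgeFinset p fun F => (chi (SimpleGraph.fromEdgeSet (F : Set (Sym2 V))) : ℝ)

/-- The edges of `G` with both ends in `S`. -/
def inEdges {V : Type} [Fintype V] [DecidableEq V] (G : SimpleGraph V) [DecidableRel G.Adj]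
    (S : Finset V) : Finset (Sym2 V) := G.edgeFinset.filter fun e => ∀ v ∈ e, v ∈ S

section EE

variable {α : Type} [DecidableEq α] {E : Finset α} {p : ℝ}

lemma EE_const (c : ℝ) : EE E p (fun _ => c) = c := by
  unfold EE
  rw [← Finset.sum_mul, Finset.sum_pow_mul_eq_add_pow]
  simp

lemma EE_add (f g : Finset α → ℝ) : EE E p (fun F => f F + g F) = EE E p f + EE E p g := by
  unfold EE
  rw [← Finset.sum_add_distrib]
  exact Finset.sum_congr rfl fun F _ => by ring

lemma EE_mul (c : ℝ) (f : Finset α → ℝ) : EE E p (fun F => c * f F) = c * EE E p f := by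
  unfold EE
  rw [Finset.mul_sum]
  exact Finset.sum_congr rfl fun F _ => by ring

lemma EE_sum {ι : Type} (s : Finset ι) (f : ι → Finset α → ℝ) :
    EE E p (fun F => ∑ i ∈ s, f i F) = ∑ i ∈ s, EE E p (f i) := by
  unfold EE
  rw [Finset.sum_comm]
  exact Finset.sum_congr rfl fun F _ => by rw [Finset.mul_sum]

lemma EE_mono (hp0 : 0 ≤ p) (hp1 : p ≤ 1) {f g : Finset α → ℝ} (h : ∀ F ⊆ E, f F ≤ g F) :
    EE E p f ≤ EE E p g := by
  unfold EE
  refine Finset.sum_le_sum fun F hF => ?_
  have h1 : 0 ≤ 1 - p := by linarith
  exact mul_le_mul_of_nonneg_left (h F (Finset.mem_powerset.1 hF)) (by positivity)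

lemma EE_disj {D : Finset α} (hD : D ⊆ E) :
    EE E p (fun F => if Disjoint D F then 1 else 0) = (1 - p) ^ D.card := by
  unfold EE
  have h1 : ∑ F ∈ E.powerset, p ^ F.card * (1 - p) ^ (E.card - F.card) *
      (if Disjoint D F then (1 : ℝ) else 0) =
      ∑ F ∈ (E \ D).powerset, (1 - p) ^ D.card *
        (p ^ F.card * (1 - p) ^ ((E \ D).card - F.card)) := by
    simp only [mul_ite, mul_one, mul_zero]
    rw [← Finset.sum_filter]
    have h2 : E.powerset.filter (fun F => Disjoint D F) = (E \ D).powerset := by
      ext F
      simp only [Finset.mem_filter, Finset.mem_powerset, Finset.subset_sdiff]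
      constructor
      · rintro ⟨a, b⟩
        exact ⟨a, b.symm⟩
      · rintro ⟨a, b⟩
        exact ⟨a, b.symm⟩
    rw [h2]
    refine Finset.sum_congr rfl fun F hF => ?_
    have h3 := Finset.card_le_card (Finset.mem_powerset.1 hF)
    have h4 := Finset.card_sdiff_add_card_eq_card hD
    have h5 : E.card - F.card = D.card + ((E \ D).card - F.card) := by omega
    rw [h5, pow_add]
    ring
  rw [h1, ← Finset.mul_sum, Finset.sum_pow_mul_eq_add_pow]
  simp

lemma EE_sub (hp0 : 0 ≤ p) (D : Finset α) :
    EE E p (fun F => if D ⊆ F then 1 else 0) ≤ p ^ D.card := by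
  unfold EE
  by_cases hD : D ⊆ E
  · have h1 : ∑ F ∈ E.powerset, p ^ F.card * (1 - p) ^ (E.card - F.card) *
        (if D ⊆ F then (1 : ℝ) else 0) =
        ∑ F ∈ (E \ D).powerset, p ^ D.card *
          (p ^ F.card * (1 - p) ^ ((E \ D).card - F.card)) := by
      simp only [mul_ite, mul_one, mul_zero]
      rw [← Finset.sum_filter]
      refine Finset.sum_nbij' (fun F => F \ D) (fun F => F ∪ D) ?_ ?_ ?_ ?_ ?_
      · intro F hF
        simp only [Finset.mem_filter, Finset.mem_powerset] at hF ⊢
        exact Finset.sdiff_subset_sdiff hF.1 (Finset.Subset.refl D)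
      · intro F hF
        simp only [Finset.mem_filter, Finset.mem_powerset] at hF ⊢
        exact ⟨Finset.union_subset (hF.trans Finset.sdiff_subset) hD,
          Finset.subset_union_right⟩
      · intro F hF
        simp only [Finset.mem_filter, Finset.mem_powerset] at hF
        exact Finset.sdiff_union_of_subset hF.2
      · intro F hF
        simp only [Finset.mem_powerset] at hF
        have h2 : Disjoint F D := (Finset.subset_sdiff.1 hF).2
        rw [Finset.union_sdiff_right]
        exact Finset.sdiff_eq_self_of_disjoint h2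
      · intro F hF
        simp only [Finset.mem_filter, Finset.mem_powerset] at hF
        have h3 := Finset.card_le_card hF.1
        have h4 := Finset.card_sdiff_add_card_eq_card hD
        have h5 := Finset.card_sdiff_add_card_eq_card hF.2
        have h6 : E.card - F.card = (E \ D).card - (F \ D).card := by omega
        rw [← h5, pow_add, h5, h6]
        ring
    rw [h1, ← Finset.mul_sum, Finset.sum_pow_mul_eq_add_pow]
    simp
  · have h1 : ∑ F ∈ E.powerset, p ^ F.card * (1 - p) ^ (E.card - F.card) *
        (if D ⊆ F then (1 : ℝ) else 0) = 0 := by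
      refine Finset.sum_eq_zero fun F hF => ?_
      rw [if_neg fun h => hD (h.trans (Finset.mem_powerset.1 hF)), mul_zero]
    rw [h1]
    positivity

end EE

/-- `U` can be coloured properly (as a set of vertices of `H`) with `n` colours. -/
def CanCol {V : Type} (H : SimpleGraph V) (U : Finset V) (n : ℕ) : Prop :=
  ∃ f : V → ℕ, (∀ v ∈ U, f v < n) ∧ ∀ u ∈ U, ∀ v ∈ U, H.Adj u v → f u ≠ f v

section Col

variable {V : Type} [DecidableEq V] {H : SimpleGraph V}

lemma CanCol.union {U U' : Finset V} {m n : ℕ} (h : CanCol H U m) (h' : CanCol H U' n) :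
    CanCol H (U ∪ U') (m + n) := by
  obtain ⟨f, hf, hf'⟩ := h
  obtain ⟨g, hg, hg'⟩ := h'
  refine ⟨fun v => if v ∈ U then f v else m + g v, ?_, ?_⟩
  · intro v hv
    rcases Finset.mem_union.1 hv with hv | hv
    · have := hf v hv
      simp only [hv, if_true]
      omega
    · have := hg v hv
      by_cases h : v ∈ U
      · have := hf v h
        simp only [h, if_true]
        omega
      · simp only [h, if_false]
        omega
  · intro u hu v hv hadj
    simp only
    by_cases h1 : u ∈ U <;> by_cases h2 : v ∈ U
    · simp only [h1, h2, if_true]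
      exact hf' u h1 v h2 hadj
    · simp only [h1, h2, if_true, if_false]
      have := hf u h1
      omega
    · simp only [h1, h2, if_true, if_false]
      have := hf v h2
      omega
    · simp only [h1, h2, if_false]
      have h3 : u ∈ U' := by
        rcases Finset.mem_union.1 hu with h | h
        · exact absurd h h1
        · exact h
      have h4 : v ∈ U' := by
        rcases Finset.mem_union.1 hv with h | h
        · exact absurd h h2
        · exact h
      have := hg' u h3 v h4 hadj
      omega

lemma CanCol.card (U : Finset V) : CanCol H U U.card := by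
  refine ⟨fun v => if h : v ∈ U then (U.equivFin ⟨v, h⟩).val else 0, ?_, ?_⟩
  · intro v hv
    simp only [hv, dif_pos]
    exact (U.equivFin ⟨v, hv⟩).isLt
  · intro u hu v hv hadj h
    simp only [hu, hv, dif_pos] at h
    have h1 := U.equivFin.injective (Fin.ext h)
    have h2 : u = v := congrArg Subtype.val h1
    exact hadj.ne h2

lemma CanCol.indep {U : Finset V} (h : ∀ u ∈ U, ∀ v ∈ U, ¬ H.Adj u v) : CanCol H U 1 :=
  ⟨fun _ => 0, fun _ _ => Nat.one_pos, fun u hu v hv hadj => absurd hadj (h u hu v hv)⟩

lemma CanCol.mono {U U' : Finset V} {n : ℕ} (h : CanCol H U n) (hU : U' ⊆ U) :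
    CanCol H U' n := by
  obtain ⟨f, hf, hf'⟩ := h
  exact ⟨f, fun v hv => hf v (hU hv), fun u hu v hv => hf' u (hU hu) v (hU hv)⟩

lemma CanCol.chi_le [Fintype V] {n : ℕ} (h : CanCol H Finset.univ n) : chi H ≤ n := by
  obtain ⟨f, hf, hf'⟩ := h
  have h1 : H.Colorable n :=
    ⟨SimpleGraph.Coloring.mk (fun v => (⟨f v, hf v (Finset.mem_univ v)⟩ : Fin n))
      fun {u v} hadj h => hf' u (Finset.mem_univ u) v (Finset.mem_univ v) hadj
        (congrArg Fin.val h)⟩
  have h2 := h1.chromaticNumber_le
  unfold chi
  exact ENat.toNat_le_of_le_coe h2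

lemma chi_canCol [Fintype V] (H : SimpleGraph V) : CanCol H Finset.univ (chi H) := by
  have h1 : H.Colorable (Fintype.card V) := SimpleGraph.colorable_of_fintype H
  have h2 : H.Colorable (chi H) := by
    unfold chi
    exact SimpleGraph.colorable_of_chromaticNumber_ne_top
      (SimpleGraph.chromaticNumber_ne_top_iff_exists.2 ⟨_, h1⟩)
  obtain ⟨C⟩ := h2
  exact ⟨fun v => (C v).val, fun v _ => (C v).isLt,
    fun u _ v _ hadj h => C.valid hadj (Fin.ext h)⟩

end Col

end Pool.Agent.Helper20.HalfP
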