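import Mathlib
import Pool.Agent.Helper20.HalfA

/-!
A weighted Ramsey bound, greedy colouring, and the two union bounds.
-/

namespace Pool.Agent.Helper20.HalfP

open Finset

lemma pw_insert {V : Type} [DecidableEq V] {R : V → V → Prop} (hR : ∀ a b, R a b → R b a)
    {S : Finset V} {v : V} (hp : (S : Set V).Pairwise R) (h : ∀ b ∈ S, R v b) :
    ((insert v S : Finset V) : Set V).Pairwise R := by
  intro a ha b hb hab
  rw [Finset.mem_coe, Finset.mem_insert] at ha hb
  rcases ha with rfl | ha
  · rcases hb with rfl | hb
    · exact absurd rfl hab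
    · exact h b hb
  · rcases hb with rfl | hb
    · exact hR _ _ (h a ha)
    · exact hp ha hb hab

section Ramsey

variable {V : Type} [DecidableEq V] (H : SimpleGraph V)

/-- Weighted form of the Ramsey bound. -/
lemma ramsey {x y : ℝ} (hx : 0 < x) (hy : 0 < y) (hxy : x + y ≤ 1) (n : ℕ) :
    ∀ U : Finset V, U.card = n → ∀ s t : ℕ,
      (∀ S ⊆ U, S.card = s → ¬ (S : Set V).Pairwise H.Adj) →
      (∀ S ⊆ U, S.card = t → ¬ (S : Set V).Pairwise fun a b => ¬ H.Adj a b) →
      ((U.card : ℝ) + 1) * (x ^ s * y ^ t) ≤ 1 := by
  classical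
  induction n using Nat.strong_induction_on with
  | _ n ih =>
    intro U hU s t hs ht
    cases s with
    | zero => exact absurd (by simp) (hs ∅ (Finset.empty_subset _) rfl)
    | succ s =>
      cases t with
      | zero => exact absurd (by simp) (ht ∅ (Finset.empty_subset _) rfl)
      | succ t =>
        by_cases hne : U = ∅
        · subst hne
          simp only [Finset.card_empty, Nat.cast_zero, zero_add, one_mul]
          have hx1 : x ≤ 1 := by linarith
          have hy1 : y ≤ 1 := by linarith
          exact mul_le_one₀ (pow_le_one₀ hx.le hx1) (by positivity) (pow_le_one₀ hy.le hy1)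
        · obtain ⟨v, hv⟩ := Finset.nonempty_iff_ne_empty.2 hne
          set A := (U.erase v).filter (fun w => H.Adj v w) with hA
          set B := (U.erase v).filter (fun w => ¬ H.Adj v w) with hB
          have hcard : A.card + B.card + 1 = U.card := by
            rw [hA, hB, Finset.card_filter_add_card_filter_not, Finset.card_erase_of_mem hv]
            have := Finset.card_pos.2 ⟨v, hv⟩
            omega
          have hAU : A ⊆ U := (Finset.filter_subset _ _).trans (Finset.erase_subset _ _)
          have hBU : B ⊆ U := (Finset.filter_subset _ _).trans (Finset.erase_subset _ _)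
          have h1 := ih A.card (by omega) A rfl s (t + 1) (by
            intro S hS hSc hp
            have hvS : v ∉ S := by
              intro h
              have := hS h
              simp [hA] at this
            refine hs (insert v S) (Finset.insert_subset hv (hS.trans hAU))
              (by rw [Finset.card_insert_of_notMem hvS, hSc]) ?_
            exact pw_insert (fun a b h => h.symm) hp fun b hb =>
              (Finset.mem_filter.1 (hS hb)).2) (fun S hS => ht S (hS.trans hAU))
          have h2 := ih B.card (by omega) B rfl (s + 1) t (fun S hS => hs S (hS.trans hBU)) (by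
            intro S hS hSc hp
            have hvS : v ∉ S := by
              intro h
              have := hS h
              simp [hB] at this
            refine ht (insert v S) (Finset.insert_subset hv (hS.trans hBU))
              (by rw [Finset.card_insert_of_notMem hvS, hSc]) ?_
            exact pw_insert (fun a b h h' => h h'.symm) hp fun b hb =>
              (Finset.mem_filter.1 (hS hb)).2)
          have h3 : (U.card : ℝ) = A.card + B.card + 1 := by
            rw [← hcard]
            push_cast
            ring
          rw [h3]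
          have h4 : ((A.card : ℝ) + B.card + 1 + 1) * (x ^ (s + 1) * y ^ (t + 1)) =
              x * (((A.card : ℝ) + 1) * (x ^ s * y ^ (t + 1))) +
              y * (((B.card : ℝ) + 1) * (x ^ (s + 1) * y ^ t)) := by
            ring
          rw [h4]
          nlinarith [mul_le_mul_of_nonneg_left h1 hx.le, mul_le_mul_of_nonneg_left h2 hy.le]

/-- Greedy colouring by large independent sets. -/
lemma greedy {t : ℕ} (ht : 0 < t) {M : ℝ} (hM : 0 ≤ M) (W : Finset V)
    (h : ∀ U ⊆ W, M ≤ U.card → ∃ I ⊆ U, I.card = t ∧
      (I : Set V).Pairwise fun a b => ¬ H.Adj a b) (n : ℕ) :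
    ∀ U ⊆ W, U.card = n → ∃ k : ℕ, CanCol H U k ∧ (k : ℝ) ≤ U.card / t + M := by
  induction n using Nat.strong_induction_on with
  | _ n ih =>
    intro U hU hn
    have ht' : (0 : ℝ) < t := by exact_mod_cast ht
    by_cases hlt : M ≤ U.card
    · obtain ⟨I, hIU, hIc, hI⟩ := h U hU hlt
      have hle := Finset.card_le_card hIU
      have hsd := Finset.card_sdiff_add_card_eq_card hIU
      obtain ⟨k, hk, hk'⟩ := ih (U \ I).card (by omega) (U \ I)
        (Finset.sdiff_subset.trans hU) rfl
      refine ⟨1 + k, ?_, ?_⟩
      · have h1 : CanCol H I 1 := CanCol.indep fun u hu v hv hadj =>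
          hI hu hv hadj.ne hadj
        have h2 := h1.union hk
        rwa [Finset.union_sdiff_of_subset hIU] at h2
      · have h3 : (U.card : ℝ) = (U \ I).card + t := by
          rw [← hIc]
          exact_mod_cast hsd.symm
        rw [h3, add_div, div_self ht'.ne']
        push_cast
        linarith
    · refine ⟨U.card, CanCol.card U, ?_⟩
      have : (0 : ℝ) ≤ U.card / t := by positivity
      push Not at hlt
      linarith

end Ramsey

section Prob

variable {V : Type} [Fintype V] [DecidableEq V] (G : SimpleGraph V) [DecidableRel G.Adj]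

/-- The random subgraph belonging to the set `F` of kept edges. -/
abbrev gr (F : Finset (Sym2 V)) : SimpleGraph V := SimpleGraph.fromEdgeSet (F : Set (Sym2 V))

lemma gr_adj {F : Finset (Sym2 V)} {u v : V} : (gr F).Adj u v ↔ s(u, v) ∈ F ∧ u ≠ v := by
  simp [gr]

lemma inEdges_mem {S : Finset V} {e : Sym2 V} :
    e ∈ inEdges G S ↔ e ∈ G.edgeFinset ∧ ∀ v ∈ e, v ∈ S := by
  simp [inEdges]

lemma compl_un (W : Finset V) : Wᶜ ∪ W = Finset.univ := by
  ext v
  by_cases h : v ∈ W <;> simp [h]

/-- A set of many vertices without small dense spots forces a large expected chromatic number. -/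
lemma lower {q : ℝ} (hq0 : 0 < q) (hq1 : q < 1) (W : Finset V) {s T : ℕ} (hs : 0 < s)
    (hd : ∀ S ⊆ W, S.card = s → T * s ≤ (inEdges G S).card)
    (hW : 2 * (W.card : ℝ) * (1 - q) ^ T ≤ 1) :
    (W.card : ℝ) ≤ 2 * s * EChi G q := by
  classical
  have h1q : 0 ≤ 1 - q := by linarith
  have h1q' : 1 - q ≤ 1 := by linarith
  -- pointwise
  have hpt : ∀ F ⊆ G.edgeFinset, (W.card : ℝ) ≤
      s * (chi (gr F) : ℝ) + W.card * ∑ S ∈ W.powersetCard s,
        (if Disjoint (inEdges G S) F then (1 : ℝ) else 0) := by
    intro F hF
    by_cases hbad : ∃ S ∈ W.powersetCard s, Disjoint (inEdges G S) F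
    · obtain ⟨S, hS, hSd⟩ := hbad
      have h1 : (1 : ℝ) ≤ ∑ S ∈ W.powersetCard s,
          (if Disjoint (inEdges G S) F then (1 : ℝ) else 0) := by
        have := Finset.single_le_sum (f := fun S => if Disjoint (inEdges G S) F then (1 : ℝ) else 0)
          (fun S _ => by positivity) hS
        simpa [hSd] using this
      have h2 : (0 : ℝ) ≤ s * (chi (gr F) : ℝ) := by positivity
      have h3 : (0 : ℝ) ≤ W.card := by positivity
      nlinarith
    · push Not at hbad
      have h0 : (0 : ℝ) ≤ W.card * ∑ S ∈ W.powersetCard s,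
          (if Disjoint (inEdges G S) F then (1 : ℝ) else 0) := by
        apply mul_nonneg (by positivity)
        exact Finset.sum_nonneg fun S _ => by positivity
      have h1 : W.card ≤ s * chi (gr F) := by
        obtain ⟨f, hf, hf'⟩ := chi_canCol (gr F)
        have h2 : W.card ≤ s * (Finset.range (chi (gr F))).card := by
          refine Finset.card_le_mul_card_image_of_maps_to (f := f) ?_ s ?_
          · intro v hv
            exact Finset.mem_range.2 (hf v (Finset.mem_univ v))
          · intro c hc
            by_contra hlt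
            push Not at hlt
            obtain ⟨S, hS, hSc⟩ := Finset.exists_subset_card_eq hlt.le
            have hSW : S ⊆ W := hS.trans (Finset.filter_subset _ _)
            refine hbad S (Finset.mem_powersetCard.2 ⟨hSW, hSc⟩) ?_
            rw [Finset.disjoint_left]
            intro e he heF
            induction e using Sym2.ind with
            | _ u v =>
              rw [inEdges_mem] at he
              have hadj : G.Adj u v := by simpa using he.1
              have hu : u ∈ S := he.2 u (by simp)
              have hv : v ∈ S := he.2 v (by simp)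
              refine hf' u (Finset.mem_univ u) v (Finset.mem_univ v)
                (gr_adj.2 ⟨heF, hadj.ne⟩) ?_
              rw [(Finset.mem_filter.1 (hS hu)).2, (Finset.mem_filter.1 (hS hv)).2]
        simpa using h2
      have h2 : (W.card : ℝ) ≤ s * (chi (gr F) : ℝ) := by exact_mod_cast h1
      linarith
  have h1 := EE_mono (E := G.edgeFinset) hq0.le hq1.le hpt
  rw [EE_const, EE_add, EE_mul, EE_mul, EE_sum] at h1
  have h2 : ∑ S ∈ W.powersetCard s, (EE G.edgeFinset q
      (fun F => if Disjoint (inEdges G S) F then (1 : ℝ) else 0)) ≤ 1 / 2 := by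
    have h20 : ∑ S ∈ W.powersetCard s, (EE G.edgeFinset q
        (fun F => if Disjoint (inEdges G S) F then (1 : ℝ) else 0))
        ≤ ∑ S ∈ W.powersetCard s, ((1 - q) ^ T) ^ s := by
      refine Finset.sum_le_sum fun S hS => ?_
      rw [Finset.mem_powersetCard] at hS
      rw [EE_disj (E := G.edgeFinset) (p := q) (D := inEdges G S) (Finset.filter_subset _ _),
        ← pow_mul]
      exact pow_le_pow_of_le_one h1q h1q' (hd S hS.1 hS.2)
    refine h20.trans ?_
    calc ∑ S ∈ W.powersetCard s, ((1 - q) ^ T) ^ s
        = (W.card.choose s : ℝ) * ((1 - q) ^ T) ^ s := by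
          rw [Finset.sum_const, Finset.card_powersetCard, nsmul_eq_mul]
      _ ≤ (W.card : ℝ) ^ s * ((1 - q) ^ T) ^ s := by
          apply mul_le_mul_of_nonneg_right _ (by positivity)
          exact_mod_cast Nat.choose_le_pow W.card s
      _ = ((W.card : ℝ) * (1 - q) ^ T) ^ s := by rw [mul_pow]
      _ ≤ (1 / 2) ^ s := by
          apply pow_le_pow_left₀ (by positivity)
          linarith
      _ ≤ 1 / 2 := by
          calc ((1 : ℝ) / 2) ^ s ≤ (1 / 2) ^ 1 :=
                pow_le_pow_of_le_one (by norm_num) (by norm_num) hs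
            _ = 1 / 2 := pow_one _
  have h3 : (0 : ℝ) ≤ W.card := by positivity
  have h4 : EE G.edgeFinset q (fun F => (chi (gr F) : ℝ)) = EChi G q := rfl
  rw [h4] at h1
  nlinarith [mul_le_mul_of_nonneg_left h2 h3]

/-- The colouring number of the random subgraph on `W` is small. -/
lemma upper {p x y : ℝ} (hp0 : 0 < p) (hp1 : p < 1) (hx : 0 < x) (hy : 0 < y)
    (hxy : x + y ≤ 1) (W : Finset V) {b r t : ℕ} (ht : 0 < t)
    (hb : CanCol G Wᶜ b) (hW : (W.card : ℝ) * ((W.card : ℝ) * p ^ r) ^ (2 * r + 1) ≤ 1) :
    EChi G p ≤ b + (W.card : ℝ) / t + 1 / (x ^ (2 * r + 1) * y ^ t) + 1 := by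
  classical
  set s := 2 * r + 1 with hs
  set M : ℝ := 1 / (x ^ s * y ^ t) with hMdef
  have hM : 0 ≤ M := by positivity
  have hpt : ∀ F ⊆ G.edgeFinset, (chi (gr F) : ℝ) ≤
      (b + (W.card : ℝ) / t + M) + W.card * ∑ S ∈ W.powersetCard s,
        (if (S.offDiag.image Sym2.mk.uncurry) ⊆ F then (1 : ℝ) else 0) := by
    intro F hF
    have hbF : CanCol (gr F) Wᶜ b := by
      obtain ⟨f, hf, hf'⟩ := hb
      refine ⟨f, hf, fun u hu v hv hadj => hf' u hu v hv ?_⟩
      have h1 := hF (gr_adj.1 hadj).1
      simpa using h1
    have hWt : (0 : ℝ) ≤ (W.card : ℝ) / t := by positivity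
    by_cases hbad : ∃ S ∈ W.powersetCard s, (S.offDiag.image Sym2.mk.uncurry) ⊆ F
    · obtain ⟨S, hS, hSd⟩ := hbad
      have h1 : (1 : ℝ) ≤ ∑ S ∈ W.powersetCard s,
          (if (S.offDiag.image Sym2.mk.uncurry) ⊆ F then (1 : ℝ) else 0) := by
        have := Finset.single_le_sum
          (f := fun S : Finset V => if (S.offDiag.image Sym2.mk.uncurry) ⊆ F then (1 : ℝ) else 0)
          (fun S _ => by positivity) hS
        simpa [hSd] using this
      have h2 : chi (gr F) ≤ b + W.card := by
        have h3 := hbF.union (CanCol.card (H := gr F) W)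
        rw [compl_un] at h3
        exact h3.chi_le
      have h3 : (chi (gr F) : ℝ) ≤ b + W.card := by exact_mod_cast h2
      have h4 : (0 : ℝ) ≤ W.card := by positivity
      nlinarith
    · push Not at hbad
      have h0 : (0 : ℝ) ≤ W.card * ∑ S ∈ W.powersetCard s,
          (if (S.offDiag.image Sym2.mk.uncurry) ⊆ F then (1 : ℝ) else 0) := by
        apply mul_nonneg (by positivity)
        exact Finset.sum_nonneg fun S _ => by positivity
      obtain ⟨k, hk, hk'⟩ := greedy (gr F) ht hM W (by
        intro U hU hMU
        by_contra hcon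
        push Not at hcon
        have h5 := ramsey (gr F) hx hy hxy U.card U rfl s t (by
          intro S hS hSc hp
          refine hbad S (Finset.mem_powersetCard.2 ⟨hS.trans hU, hSc⟩) ?_
          intro e he
          obtain ⟨⟨u, v⟩, huv, rfl⟩ := Finset.mem_image.1 he
          rw [Finset.mem_offDiag] at huv
          exact (gr_adj.1 (hp huv.1 huv.2.1 huv.2.2)).1) (fun S hS hSc => hcon S hS hSc)
        have h6 : (0 : ℝ) < x ^ s * y ^ t := by positivity
        have h7 : M * (x ^ s * y ^ t) = 1 := by
          rw [hMdef]
          exact one_div_mul_cancel h6.ne'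
        nlinarith) W.card W (Finset.Subset.refl W) rfl
      have h8 := hbF.union hk
      rw [compl_un] at h8
      have h9 : (chi (gr F) : ℝ) ≤ b + k := by exact_mod_cast h8.chi_le
      linarith
  have h1 := EE_mono (E := G.edgeFinset) hp0.le hp1.le hpt
  rw [EE_add, EE_const, EE_mul, EE_sum] at h1
  have h2 : ∑ S ∈ W.powersetCard s, (EE G.edgeFinset p
      (fun F => if (S.offDiag.image Sym2.mk.uncurry) ⊆ F then (1 : ℝ) else 0)) ≤
      ((W.card : ℝ) * p ^ r) ^ s := by
    have h20 : ∑ S ∈ W.powersetCard s, (EE G.edgeFinset p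
        (fun F => if (S.offDiag.image Sym2.mk.uncurry) ⊆ F then (1 : ℝ) else 0))
        ≤ ∑ S ∈ W.powersetCard s, (p ^ r) ^ s := by
      refine Finset.sum_le_sum fun S hS => ?_
      rw [Finset.mem_powersetCard] at hS
      refine (EE_sub hp0.le _).trans ?_
      rw [← pow_mul]
      apply le_of_eq
      congr 1
      have h21 : (S.offDiag.image Sym2.mk.uncurry).card = S.card.choose 2 :=
        Sym2.card_image_offDiag S
      rw [h21, hS.2, hs, Nat.choose_two_right]
      have h22 : (2 * r + 1) * (2 * r + 1 - 1) = 2 * (r * (2 * r + 1)) := by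
        rw [Nat.add_sub_cancel]
        ring
      rw [h22, Nat.mul_div_cancel_left _ (by norm_num)]
    refine h20.trans ?_
    calc ∑ S ∈ W.powersetCard s, (p ^ r) ^ s = (W.card.choose s : ℝ) * (p ^ r) ^ s := by
          rw [Finset.sum_const, Finset.card_powersetCard, nsmul_eq_mul]
      _ ≤ (W.card : ℝ) ^ s * (p ^ r) ^ s := by
          apply mul_le_mul_of_nonneg_right _ (by positivity)
          exact_mod_cast Nat.choose_le_pow W.card s
      _ = ((W.card : ℝ) * p ^ r) ^ s := by rw [mul_pow]
  have h3 : (0 : ℝ) ≤ W.card := by positivity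
  have h4 : EE G.edgeFinset p (fun F => (chi (gr F) : ℝ)) = EChi G p := rfl
  rw [h4] at h1
  have h5 := mul_le_mul_of_nonneg_left h2 h3
  linarith

end Prob

end Pool.Agent.Helper20.HalfP
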