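import Mathlib
import Pool.Agent.Helper20.HalfB

/-!
Numerical part and assembly: the two expected chromatic numbers differ by a constant factor.
-/

namespace Pool.Agent.Helper20.HalfP

open Finset

lemma exists_kappa {a : ℝ} (ha1 : a < 1) (_ : 0 < a) : ∃ κ : ℕ, 0 < κ ∧ a ^ κ ≤ 1 / 2 := by
  obtain ⟨κ, hκ⟩ := exists_pow_lt_of_lt_one (show (0 : ℝ) < 1 / 2 by norm_num) ha1
  refine ⟨κ, ?_, hκ.le⟩
  rcases Nat.eq_zero_or_pos κ with h | h
  · rw [h, pow_zero] at hκ
    norm_num at hκ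
  · exact h

lemma sq_le_two_pow {m : ℕ} (hm : 4 ≤ m) : m * m ≤ 2 ^ m := by
  induction m, hm using Nat.le_induction with
  | base => norm_num
  | succ m hm ih =>
    rw [pow_succ]
    nlinarith

/-- Numbers for the lower bounds. -/
lemma lower_num {q : ℝ} (hq0 : 0 < q) (hq1 : q < 1) : ∃ K : ℕ, 0 < K ∧
    (∀ l b : ℕ, 1 ≤ l → b < 2 ^ l →
      2 * ((b : ℝ) * ((K * l : ℕ) : ℝ)) * (1 - q) ^ (K * l) ≤ 1) ∧
    (∀ L n : ℕ, n < 2 ^ (L + 1) → 2 * (n : ℝ) * (1 - q) ^ (K * (L + 2)) ≤ 1) := by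
  have h0 : 0 < 1 - q := by linarith
  have h1 : 1 - q < 1 := by linarith
  obtain ⟨κ, hκ, hκ'⟩ := exists_kappa h1 h0
  set m := 8 * κ + 4 with hm
  refine ⟨κ * m, by positivity, ?_, ?_⟩
  · intro l b hl hb
    have h2 : (1 - q) ^ (κ * m * l) ≤ (1 / 2) ^ (m * l) := by
      rw [mul_assoc, pow_mul]
      exact pow_le_pow_left₀ (by positivity) hκ' _
    have h3 : 2 * (b * (κ * m * l)) ≤ 2 ^ (m * l) := by
      have h4 : m * m ≤ 2 ^ m := sq_le_two_pow (by omega)
      have h5 : 8 * κ * m ≤ 2 ^ m := le_trans (Nat.mul_le_mul_right m (by omega)) h4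
      have h6 : 2 ^ m = 4 * 2 ^ (m - 2) := by
        rw [show (4 : ℕ) = 2 ^ 2 by norm_num, ← pow_add]
        congr 1
        omega
      have h7 : 2 * (κ * m) ≤ 2 ^ (m - 2) := by
        rw [h6] at h5
        nlinarith
      have h8 : l ≤ 2 ^ l := Nat.lt_two_pow_self.le
      calc 2 * (b * (κ * m * l)) = b * (2 * (κ * m)) * l := by ring
        _ ≤ 2 ^ l * 2 ^ (m - 2) * 2 ^ l := by gcongr
        _ = 2 ^ (l + (m - 2) + l) := by rw [pow_add, pow_add]
        _ ≤ 2 ^ (m * l) := by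
            apply Nat.pow_le_pow_right (by norm_num)
            obtain ⟨m', hm'⟩ : ∃ m', m = m' + 2 := ⟨m - 2, by omega⟩
            rw [hm', Nat.add_sub_cancel]
            nlinarith
    have h9 : 2 * ((b : ℝ) * ((κ * m * l : ℕ) : ℝ)) ≤ 2 ^ (m * l) := by exact_mod_cast h3
    calc 2 * ((b : ℝ) * ((κ * m * l : ℕ) : ℝ)) * (1 - q) ^ (κ * m * l)
        ≤ 2 ^ (m * l) * (1 / 2) ^ (m * l) := by
          apply mul_le_mul h9 h2 (by positivity) (by positivity)
      _ = 1 := by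
          rw [← mul_pow]
          norm_num
  · intro L n hn
    have h2 : (1 - q) ^ (κ * m * (L + 2)) ≤ (1 / 2) ^ (L + 2) := by
      calc (1 - q) ^ (κ * m * (L + 2)) ≤ (1 - q) ^ (κ * (L + 2)) := by
            apply pow_le_pow_of_le_one h0.le h1.le
            nlinarith [Nat.zero_le (κ * (L + 2)), Nat.mul_le_mul_left κ
              (Nat.mul_le_mul_right (L + 2) (show 1 ≤ m by omega))]
        _ = ((1 - q) ^ κ) ^ (L + 2) := pow_mul _ _ _
        _ ≤ (1 / 2) ^ (L + 2) := pow_le_pow_left₀ (by positivity) hκ' _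
    have h3 : 2 * n ≤ 2 ^ (L + 2) := by
      rw [pow_succ]
      omega
    have h4 : 2 * (n : ℝ) ≤ 2 ^ (L + 2) := by exact_mod_cast h3
    calc 2 * (n : ℝ) * (1 - q) ^ (κ * m * (L + 2)) ≤ 2 ^ (L + 2) * (1 / 2) ^ (L + 2) := by
          apply mul_le_mul h4 h2 (by positivity) (by positivity)
      _ = 1 := by
          rw [← mul_pow]
          norm_num

/-- Numbers for the upper bound. -/
lemma upper_num {p : ℝ} (hp0 : 0 < p) (hp1 : p < 1) : ∃ C : ℝ, 0 < C ∧
    ∀ (V : Type) [Fintype V] [DecidableEq V] (G : SimpleGraph V) [DecidableRel G.Adj]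
      (W : Finset V) (b : ℕ), CanCol G Wᶜ b → 0 < W.card →
      EChi G p ≤ b + C * ((W.card : ℝ) / (Nat.log 2 W.card + 1)) := by
  obtain ⟨κ, hκ, hκ'⟩ := exists_kappa hp1 hp0
  have hκR : (0 : ℝ) < κ := by exact_mod_cast hκ
  have hκ1 : (1 : ℝ) ≤ κ := by exact_mod_cast hκ
  obtain ⟨w, hw⟩ := pow_unbounded_of_one_lt (8 * (κ : ℝ)) (show (1 : ℝ) < 5 / 4 by norm_num)
  have hw0 : 0 < w := by
    rcases Nat.eq_zero_or_pos w with h | h
    · rw [h, pow_zero] at hw
      linarith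
    · exact h
  have hwR : (0 : ℝ) < w := by exact_mod_cast hw0
  refine ⟨w + 8 * κ * (8 / 7) ^ 5 * (40 / 9) + 1, by positivity, ?_⟩
  intro V _ _ G _ W b hb hW
  set n := W.card with hn
  set L := Nat.log 2 n with hL
  have h2L : 2 ^ L ≤ n := Nat.pow_log_le_self 2 hW.ne'
  have hnL : n < 2 ^ (L + 1) := Nat.lt_pow_succ_log_self (by norm_num) n
  have hLR : (0 : ℝ) < (L : ℝ) + 1 := by positivity
  set x : ℝ := 1 - 1 / (8 * κ) with hx
  set y : ℝ := 1 / (8 * κ) with hy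
  have hy0 : 0 < y := by positivity
  have hy1 : y ≤ 1 / 8 := by
    rw [hy]
    apply one_div_le_one_div_of_le (by norm_num)
    linarith
  have hx0 : 0 < x := by
    have : x = 1 - y := rfl
    linarith
  have hx1 : x ≤ 1 := by
    have : x = 1 - y := rfl
    linarith
  set t := L / w + 1 with ht
  have hcond : ((W.card : ℝ)) * (((W.card : ℝ)) * p ^ (κ * (L + 2))) ^ (2 * (κ * (L + 2)) + 1)
      ≤ 1 := by
    rw [← hn]
    have h1 : (n : ℝ) ≤ 2 ^ (L + 1) := by exact_mod_cast hnL.le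
    have h2 : p ^ (κ * (L + 2)) ≤ (1 / 2) ^ (L + 2) := by
      rw [pow_mul]
      exact pow_le_pow_left₀ (by positivity) hκ' _
    have h3 : (n : ℝ) * p ^ (κ * (L + 2)) ≤ 1 / 2 := by
      calc (n : ℝ) * p ^ (κ * (L + 2)) ≤ 2 ^ (L + 1) * (1 / 2) ^ (L + 2) := by
            apply mul_le_mul h1 h2 (by positivity) (by positivity)
        _ = (2 * (1 / 2)) ^ (L + 1) * (1 / 2) := by
            rw [mul_pow, pow_succ (1 / 2 : ℝ) (L + 1)]
            ring
        _ = 1 / 2 := by norm_num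
    have h4 : ((n : ℝ) * p ^ (κ * (L + 2))) ^ (2 * (κ * (L + 2)) + 1) ≤ (1 / 2) ^ (L + 1) := by
      calc ((n : ℝ) * p ^ (κ * (L + 2))) ^ (2 * (κ * (L + 2)) + 1)
          ≤ (1 / 2) ^ (2 * (κ * (L + 2)) + 1) := pow_le_pow_left₀ (by positivity) h3 _
        _ ≤ (1 / 2) ^ (L + 1) := by
            apply pow_le_pow_of_le_one (by norm_num) (by norm_num)
            nlinarith
    calc (n : ℝ) * ((n : ℝ) * p ^ (κ * (L + 2))) ^ (2 * (κ * (L + 2)) + 1)
        ≤ 2 ^ (L + 1) * (1 / 2) ^ (L + 1) := by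
          apply mul_le_mul h1 h4 (by positivity) (by positivity)
      _ = 1 := by
          rw [← mul_pow]
          norm_num
  have hmain := upper G hp0 hp1 hx0 hy0 (by rw [hx, hy]; linarith) W (b := b)
    (r := κ * (L + 2)) (t := t) (Nat.succ_pos _) hb hcond
  rw [← hn] at hmain
  -- first term
  have e1 : (n : ℝ) / t ≤ w * (n / (L + 1)) := by
    have h1 : L + 1 ≤ w * t := by
      have := Nat.div_add_mod L w
      have h2 := Nat.mod_lt L hw0
      rw [ht, mul_add, mul_one]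
      omega
    have h2 : (L : ℝ) + 1 ≤ w * t := by exact_mod_cast h1
    have h3 : (0 : ℝ) < t := by
      rw [ht]
      positivity
    rw [div_le_iff₀ h3]
    have h4 : (w : ℝ) * (n / (L + 1)) * t = n * ((w * t) / (L + 1)) := by
      field_simp
    rw [h4]
    have h5 : (1 : ℝ) ≤ (w * t) / (L + 1) := by
      rw [le_div_iff₀ hLR]
      linarith
    have h6 : (0 : ℝ) ≤ n := by positivity
    nlinarith
  -- third term
  have e3 : (1 : ℝ) ≤ n / (L + 1) := by
    rw [le_div_iff₀ hLR, one_mul]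
    have h1 : L + 1 ≤ n := by
      have := @Nat.lt_two_pow_self L
      omega
    exact_mod_cast h1
  -- second term
  have e2 : 1 / (x ^ (2 * (κ * (L + 2)) + 1) * y ^ t) ≤
      8 * κ * (8 / 7) ^ 5 * (40 / 9) * (n / (L + 1)) := by
    have hxk : (7 : ℝ) / 8 ≤ x ^ κ := by
      have h1 := one_add_mul_le_pow (a := -(1 / (8 * (κ : ℝ)))) (by
        have : (1 / (8 * (κ : ℝ))) ≤ 1 / 8 := hy1
        linarith) κ
      have h2 : 1 + (κ : ℝ) * -(1 / (8 * (κ : ℝ))) = 7 / 8 := by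
        field_simp
        norm_num
      rw [h2] at h1
      rw [hx, sub_eq_add_neg]
      exact h1
    have hxs : (49 / 64 : ℝ) ^ L * (7 / 8) ^ 5 ≤ x ^ (2 * (κ * (L + 2)) + 1) := by
      calc (49 / 64 : ℝ) ^ L * (7 / 8) ^ 5 = (7 / 8) ^ (2 * L + 5) := by
            rw [pow_add, pow_mul]
            norm_num
        _ ≤ (x ^ κ) ^ (2 * L + 5) := pow_le_pow_left₀ (by norm_num) hxk _
        _ = x ^ (κ * (2 * L + 5)) := (pow_mul _ _ _).symm
        _ ≤ x ^ (2 * (κ * (L + 2)) + 1) := by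
            apply pow_le_pow_of_le_one hx0.le hx1
            nlinarith
    have hyt : y * (4 / 5 : ℝ) ^ L ≤ y ^ t := by
      rw [ht, pow_succ, mul_comm]
      apply mul_le_mul_of_nonneg_right _ hy0.le
      have h1 : (4 / 5 : ℝ) ^ w ≤ y := by
        rw [hy, show (4 / 5 : ℝ) = (5 / 4)⁻¹ by norm_num, inv_pow, one_div]
        exact inv_anti₀ (by positivity) hw.le
      calc (4 / 5 : ℝ) ^ L ≤ (4 / 5) ^ (w * (L / w)) :=
            pow_le_pow_of_le_one (by norm_num) (by norm_num) (Nat.mul_div_le L w)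
        _ = ((4 / 5) ^ w) ^ (L / w) := pow_mul _ _ _
        _ ≤ y ^ (L / w) := pow_le_pow_left₀ (by positivity) h1 _
    have hprod : (49 / 80 : ℝ) ^ L * ((7 / 8) ^ 5 * y) ≤
        x ^ (2 * (κ * (L + 2)) + 1) * y ^ t := by
      calc (49 / 80 : ℝ) ^ L * ((7 / 8) ^ 5 * y) =
            ((49 / 64 : ℝ) ^ L * (7 / 8) ^ 5) * (y * (4 / 5) ^ L) := by
            rw [show (49 / 80 : ℝ) = (49 / 64) * (4 / 5) by norm_num, mul_pow]
            ring
        _ ≤ x ^ (2 * (κ * (L + 2)) + 1) * y ^ t := by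
            apply mul_le_mul hxs hyt (by positivity) (by positivity)
    have hgr : (9 / 40 : ℝ) * (L + 1) ≤ (49 / 40) ^ L := by
      have h1 := one_add_mul_le_pow (a := (9 / 40 : ℝ)) (by norm_num) L
      have h2 : (1 : ℝ) + 9 / 40 = 49 / 40 := by norm_num
      rw [h2] at h1
      linarith
    have h2n : (2 : ℝ) ^ L ≤ n := by exact_mod_cast h2L
    have hP : 0 < (49 / 80 : ℝ) ^ L * ((7 / 8) ^ 5 * y) := by positivity
    calc 1 / (x ^ (2 * (κ * (L + 2)) + 1) * y ^ t)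
        ≤ 1 / ((49 / 80 : ℝ) ^ L * ((7 / 8) ^ 5 * y)) :=
          one_div_le_one_div_of_le hP hprod
      _ ≤ 8 * κ * (8 / 7) ^ 5 * (40 / 9) * (n / (L + 1)) := by
          rw [div_le_iff₀ hP]
          have h3 : 8 * (κ : ℝ) * (8 / 7) ^ 5 * (40 / 9) * (n / (L + 1)) *
              ((49 / 80 : ℝ) ^ L * ((7 / 8) ^ 5 * y)) =
              (40 / 9) * (n * (49 / 80 : ℝ) ^ L) / (L + 1) := by
            rw [hy]
            field_simp
          rw [h3, le_div_iff₀ hLR]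
          have h4 : (49 / 40 : ℝ) ^ L ≤ n * (49 / 80 : ℝ) ^ L := by
            calc (49 / 40 : ℝ) ^ L = 2 ^ L * (49 / 80 : ℝ) ^ L := by
                  rw [← mul_pow]
                  norm_num
              _ ≤ n * (49 / 80 : ℝ) ^ L := by
                  apply mul_le_mul_of_nonneg_right h2n (by positivity)
          linarith
  have : (w + 8 * κ * (8 / 7) ^ 5 * (40 / 9) + 1 : ℝ) * ((n : ℝ) / (L + 1)) =
      w * (n / (L + 1)) + 8 * κ * (8 / 7) ^ 5 * (40 / 9) * (n / (L + 1)) + n / (L + 1) := by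
    ring
  rw [this]
  linarith

end Pool.Agent.Helper20.HalfP
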