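import Mathlib
import Pool.Agent.Helper20.HalfC

/-!
Assembly: halving the edge probability for multipartite graphs that are dense on balanced sets.
-/

namespace Pool.Agent.Helper20.HalfP

open Finset

section

variable {V : Type} [Fintype V] [DecidableEq V]

lemma canCol_of_image {H : SimpleGraph V} (col : V → ℕ) {m : ℕ}
    (hcol : ∀ j, (H.induce {v | col v = j}).Colorable m) (Q : Finset ℕ) (U : Finset V)
    (h : ∀ v ∈ U, col v ∈ Q) : CanCol H U (Q.card * m) := by
  classical
  have hex : ∀ j, ∃ f : V → ℕ, ∀ v, col v = j → f v < m ∧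
      ∀ u, col u = j → H.Adj u v → f u ≠ f v := by
    intro j
    obtain ⟨C⟩ := hcol j
    refine ⟨fun v => if hv : col v = j then (C ⟨v, hv⟩).val else 0, ?_⟩
    intro v hv
    refine ⟨?_, ?_⟩
    · simp only [hv, dif_pos]
      exact (C ⟨v, hv⟩).isLt
    · intro u hu hadj he
      simp only [hu, hv, dif_pos] at he
      have h1 : C ⟨u, hu⟩ = C ⟨v, hv⟩ := Fin.ext he
      exact C.valid (v := ⟨u, hu⟩) (w := ⟨v, hv⟩) hadj h1
  choose f hf using hex
  refine ⟨fun v => if h : col v ∈ Q then (Q.equivFin ⟨col v, h⟩).val * m + f (col v) v else 0,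
    ?_, ?_⟩
  · intro v hv
    simp only [h v hv, dif_pos]
    have h1 := (Q.equivFin ⟨col v, h v hv⟩).isLt
    have h2 := (hf (col v) v rfl).1
    nlinarith [Nat.mul_le_mul_right m (Nat.succ_le_of_lt h1)]
  · intro u hu v hv hadj he
    simp only [h u hu, h v hv, dif_pos] at he
    have h2 := (hf (col v) v rfl).1
    have h3 := (hf (col u) u rfl).1
    have h4 : (Q.equivFin ⟨col u, h u hu⟩).val = (Q.equivFin ⟨col v, h v hv⟩).val := by
      have hm : 0 < m := by omega
      have h5 : ((Q.equivFin ⟨col u, h u hu⟩).val * m + f (col u) u) / m =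
          ((Q.equivFin ⟨col v, h v hv⟩).val * m + f (col v) v) / m := by rw [he]
      rwa [mul_comm, Nat.mul_add_div hm, Nat.div_eq_of_lt h3, mul_comm, Nat.mul_add_div hm,
        Nat.div_eq_of_lt h2, add_zero, add_zero] at h5
    have h1 := Q.equivFin.injective (Fin.ext h4)
    have h6 : col u = col v := congrArg Subtype.val h1
    rw [h4, h6] at he
    exact (hf (col v) v rfl).2 u h6 hadj (by omega)

lemma EChi_le (G : SimpleGraph V) [DecidableRel G.Adj] {p : ℝ} (hp0 : 0 < p) (hp1 : p < 1)
    {n : ℕ} (h : CanCol G Finset.univ n) : EChi G p ≤ n := by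
  have h1 : EChi G p ≤ EE G.edgeFinset p (fun _ => (n : ℝ)) := by
    refine EE_mono hp0.le hp1.le fun F hF => ?_
    have h2 : CanCol (gr F) Finset.univ n := by
      obtain ⟨f, hf, hf'⟩ := h
      refine ⟨f, hf, fun u hu v hv hadj => hf' u hu v hv ?_⟩
      have h3 := hF (gr_adj.1 hadj).1
      simpa using h3
    exact_mod_cast h2.chi_le
  rwa [EE_const] at h1

lemma EChi_nonneg (G : SimpleGraph V) [DecidableRel G.Adj] {p : ℝ} (hp0 : 0 < p)
    (hp1 : p < 1) : 0 ≤ EChi G p := by
  have h1 : EE G.edgeFinset p (fun _ => (0 : ℝ)) ≤ EChi G p :=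
    EE_mono hp0.le hp1.le fun F _ => by positivity
  rwa [EE_const] at h1

end

/-- Local density: every set with at most a `1/D` part of its vertices in each class spans at
least a `1/D` part of the square of its size. -/
def DenseOnBalanced {V : Type} [Fintype V] [DecidableEq V] (G : SimpleGraph V)
    [DecidableRel G.Adj] (col : V → ℕ) (D : ℕ) : Prop :=
  ∀ S : Finset V, (∀ j, D * (S.filter fun v => col v = j).card ≤ S.card) →
    S.card ^ 2 ≤ D * (inEdges G S).card

theorem half {p : ℝ} (hp0 : 0 < p) (hp1 : p < 1) : ∃ c : ℝ, 0 < c ∧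
    ∀ (V : Type) [Fintype V] [DecidableEq V] (G : SimpleGraph V) [DecidableRel G.Adj]
      (col : V → ℕ) (D m : ℕ), 0 < D → 0 < m → (∀ j, (G.induce {v | col v = j}).Colorable m) →
      DenseOnBalanced G col D → c / (D * m) * EChi G p ≤ EChi G (p / 2) := by
  classical
  obtain ⟨C, hC, hup⟩ := upper_num hp0 hp1
  have hq0 : 0 < p / 2 := by linarith
  have hq1 : p / 2 < 1 := by linarith
  obtain ⟨K, hK, hK1, hK2⟩ := lower_num hq0 hq1
  have hKR : (0 : ℝ) < K := by exact_mod_cast hK
  refine ⟨1 / (4 + 4 * C * K), by positivity, ?_⟩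
  intro V _ _ G _ col D m hD hm hcol hdens
  have hDR : (0 : ℝ) < D := by exact_mod_cast hD
  have hmR : (1 : ℝ) ≤ m := by exact_mod_cast hm
  set e := EChi G (p / 2) with he
  have he0 : 0 ≤ e := EChi_nonneg G hq0 hq1
  -- it suffices to bound `EChi G p` by a multiple of `e`
  suffices hsuf : EChi G p ≤ m * (D * (4 + 4 * C * K) * e) by
    rw [div_mul_eq_mul_div, div_le_iff₀ (by positivity), one_div,
      inv_mul_le_iff₀ (by positivity)]
    calc EChi G p ≤ m * (D * (4 + 4 * C * K) * e) := hsuf
      _ = (4 + 4 * C * K) * (e * (D * m)) := by ring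
  set P := (Finset.univ : Finset V).image col with hP
  set k := P.card with hk
  set cl : ℕ → Finset V := fun j => Finset.univ.filter (fun v => col v = j) with hcl
  set l := Nat.log 2 k + 1 with hl
  have hkl : k < 2 ^ l := Nat.lt_pow_succ_log_self (by norm_num) k
  set t := K * l with ht
  have ht0 : 0 < t := by positivity
  have htR : (0 : ℝ) < t := by exact_mod_cast ht0
  set Pb := P.filter (fun j => t ≤ (cl j).card) with hPb
  set b := Pb.card with hb
  set W := (Finset.univ : Finset V).filter (fun v => (cl (col v)).card < t) with hW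
  have hallk : EChi G p ≤ (k * m : ℕ) :=
    EChi_le G hp0 hp1 (canCol_of_image col hcol P _ fun v _ =>
      Finset.mem_image_of_mem col (Finset.mem_univ v))
  have hWb : CanCol G Wᶜ (b * m) := by
    refine canCol_of_image col hcol Pb _ fun v hv => ?_
    rw [Finset.mem_compl, hW, Finset.mem_filter] at hv
    rw [hPb, Finset.mem_filter]
    refine ⟨Finset.mem_image_of_mem col (Finset.mem_univ v), ?_⟩
    by_contra h
    exact hv ⟨Finset.mem_univ v, by omega⟩
  -- big classes
  have hbig : (b : ℝ) ≤ 2 * D * e := by
    have hex : ∀ j : ℕ, ∃ J : Finset V, j ∈ Pb → J ⊆ cl j ∧ J.card = t := by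
      intro j
      by_cases hj : j ∈ Pb
      · obtain ⟨J, hJ⟩ := Finset.exists_subset_card_eq (Finset.mem_filter.1 hj).2
        exact ⟨J, fun _ => hJ⟩
      · exact ⟨∅, fun h => absurd h hj⟩
    choose J hJ using hex
    set W1 := Pb.biUnion J with hW1
    have hcard : W1.card = b * t := by
      rw [hW1, Finset.card_biUnion]
      · rw [Finset.sum_congr rfl fun j hj => (hJ j hj).2]
        simp [hb]
      · intro i hi j hj hij
        rw [Function.onFun, Finset.disjoint_left]
        intro v hvi hvj
        have h1 := (Finset.mem_filter.1 ((hJ i hi).1 hvi)).2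
        have h2 := (Finset.mem_filter.1 ((hJ j hj).1 hvj)).2
        exact hij (h1.symm.trans h2)
    have hlow := lower G hq0 hq1 W1 (s := D * t) (T := t) (by positivity) (by
      intro S hS hSc
      have h1 := hdens S (by
        intro j
        rw [hSc]
        apply Nat.mul_le_mul_left
        by_cases hj : j ∈ Pb
        · rw [← (hJ j hj).2]
          apply Finset.card_le_card
          intro v hv
          rw [Finset.mem_filter] at hv
          obtain ⟨i, hi, hvi⟩ := Finset.mem_biUnion.1 (hS hv.1)
          have h2 := (Finset.mem_filter.1 ((hJ i hi).1 hvi)).2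
          have h3 : i = j := h2.symm.trans hv.2
          rwa [h3] at hvi
        · have h0 : (S.filter fun v => col v = j) = ∅ := by
            rw [Finset.filter_eq_empty_iff]
            intro v hv hvj
            obtain ⟨i, hi, hvi⟩ := Finset.mem_biUnion.1 (hS hv)
            have h2 := (Finset.mem_filter.1 ((hJ i hi).1 hvi)).2
            have h3 : i = j := h2.symm.trans hvj
            exact hj (h3 ▸ hi)
          rw [h0, Finset.card_empty]
          exact Nat.zero_le _)
      rw [hSc] at h1
      have h2 : D * (t * (D * t)) ≤ D * (inEdges G S).card := by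
        calc D * (t * (D * t)) = (D * t) ^ 2 := by ring
          _ ≤ _ := h1
      exact Nat.le_of_mul_le_mul_left h2 hD) (by
      rw [hcard]
      have h1 := hK1 l b (by omega) (lt_of_le_of_lt (Finset.card_filter_le _ _) hkl)
      rw [← ht] at h1
      push_cast at h1 ⊢
      exact h1)
    rw [hcard] at hlow
    push_cast at hlow
    have h3 : (b : ℝ) * t ≤ (2 * D * e) * t := by
      calc (b : ℝ) * t ≤ 2 * (D * t) * e := hlow
        _ = (2 * D * e) * t := by ring
    exact le_of_mul_le_mul_right h3 htR
  rcases Nat.eq_zero_or_pos W.card with hW0 | hWpos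
  · -- no small classes
    have h1 : W = ∅ := Finset.card_eq_zero.1 hW0
    rw [h1, Finset.compl_empty] at hWb
    have h2 := EChi_le G hp0 hp1 hWb
    have h3 : 0 ≤ C * K * (D * e) := by positivity
    have h4 : 0 ≤ D * e := by positivity
    calc EChi G p ≤ (b * m : ℕ) := h2
      _ = m * b := by
          push_cast
          ring
      _ ≤ m * (D * (4 + 4 * C * K) * e) := by
          apply mul_le_mul_of_nonneg_left _ (by positivity)
          nlinarith
  · set n := W.card with hn
    set L := Nat.log 2 n with hL
    have hnL : n < 2 ^ (L + 1) := Nat.lt_pow_succ_log_self (by norm_num) n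
    have hup1 := hup V G W (b * m) hWb hWpos
    rw [← hn, ← hL] at hup1
    by_cases hkn : 2 * n ≤ k
    · -- most classes are big
      have h1 : k ≤ b + n := by
        have h2 : P.card = Pb.card + (P.filter fun j => ¬ t ≤ (cl j).card).card :=
          (Finset.card_filter_add_card_filter_not _).symm
        have h3 : (P.filter fun j => ¬ t ≤ (cl j).card).card ≤ n := by
          calc (P.filter fun j => ¬ t ≤ (cl j).card).card ≤ (W.image col).card := by
                apply Finset.card_le_card
                intro j hj
                rw [Finset.mem_filter] at hj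
                obtain ⟨v, _, rfl⟩ := Finset.mem_image.1 hj.1
                refine Finset.mem_image_of_mem col ?_
                rw [hW, Finset.mem_filter]
                exact ⟨Finset.mem_univ v, by omega⟩
            _ ≤ n := Finset.card_image_le
        omega
      have h2 : (k : ℝ) ≤ 2 * b := by
        have : k ≤ 2 * b := by omega
        exact_mod_cast this
      have h3 : 0 ≤ C * K * (D * e) := by positivity
      have h4 : 0 ≤ D * e := by positivity
      calc EChi G p ≤ (k * m : ℕ) := hallk
        _ = m * k := by
            push_cast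
            ring
        _ ≤ m * (D * (4 + 4 * C * K) * e) := by
            apply mul_le_mul_of_nonneg_left _ (by positivity)
            nlinarith
    · push Not at hkn
      have hlL : l ≤ L + 2 := by
        have h1 : k < 2 ^ (L + 2) := by
          rw [pow_succ]
          omega
        have h2 : Nat.log 2 k < L + 2 := by
          rcases Nat.eq_zero_or_pos k with h0 | h0
          · rw [h0]
            simp
          · exact (Nat.log_lt_iff_lt_pow (by norm_num) h0.ne').2 h1
        omega
      set T := K * (L + 2) with hT
      have htT : t ≤ T := Nat.mul_le_mul_left K hlL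
      have hT0 : 0 < T := lt_of_lt_of_le ht0 htT
      have hlow := lower G hq0 hq1 W (s := D * T) (T := T) (by positivity) (by
        intro S hS hSc
        have h1 := hdens S (by
          intro j
          rw [hSc]
          apply Nat.mul_le_mul_left
          rcases Finset.eq_empty_or_nonempty (S.filter fun v => col v = j) with h0 | ⟨v, hv⟩
          · rw [h0, Finset.card_empty]
            exact Nat.zero_le _
          · rw [Finset.mem_filter] at hv
            have h2 := (Finset.mem_filter.1 (hS hv.1)).2
            rw [hv.2] at h2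
            have h3 : (S.filter fun v => col v = j).card ≤ (cl j).card :=
              Finset.card_le_card (Finset.filter_subset_filter _ (Finset.subset_univ S))
            omega)
        rw [hSc] at h1
        have h2 : D * (T * (D * T)) ≤ D * (inEdges G S).card := by
          calc D * (T * (D * T)) = (D * T) ^ 2 := by ring
            _ ≤ _ := h1
        exact Nat.le_of_mul_le_mul_left h2 hD) (by
        rw [← hn]
        exact hK2 L n hnL)
      rw [← hn] at hlow
      have hLR : (0 : ℝ) < (L : ℝ) + 1 := by positivity
      have h1 : (n : ℝ) / (L + 1) ≤ 4 * D * K * e := by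
        rw [div_le_iff₀ hLR]
        have h2 : (2 : ℝ) * ((D * T : ℕ) : ℝ) * e = (2 * D * K * e) * (L + 2) := by
          rw [hT]
          push_cast
          ring
        have h3 : 0 ≤ D * K * e * L := by positivity
        calc (n : ℝ) ≤ 2 * ((D * T : ℕ) : ℝ) * e := hlow
          _ = (2 * D * K * e) * (L + 2) := h2
          _ ≤ 4 * D * K * e * (L + 1) := by nlinarith
      have h4 : C * ((n : ℝ) / (L + 1)) ≤ C * (4 * D * K * e) :=
        mul_le_mul_of_nonneg_left h1 hC.le
      have h5 : 0 ≤ D * e := by positivity
      have h6 : 0 ≤ C * (4 * D * K * e) := by positivity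
      calc EChi G p ≤ (b * m : ℕ) + C * ((n : ℝ) / (L + 1)) := hup1
        _ ≤ m * b + C * (4 * D * K * e) := by
            push_cast
            linarith
        _ ≤ m * b + m * (C * (4 * D * K * e)) := by nlinarith
        _ = m * (b + C * (4 * D * K * e)) := by ring
        _ ≤ m * (D * (4 + 4 * C * K) * e) := by
            apply mul_le_mul_of_nonneg_left _ (by positivity)
            nlinarith

/-- A Turan type bound for a reflexive symmetric relation without `a + 1` pairwise unrelated
elements. -/
lemma turan {V : Type} [DecidableEq V] (Q : V → V → Prop) [DecidableRel Q]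
    (hrefl : ∀ u, Q u u) (hsymm : ∀ u v, Q u v → Q v u) (a n : ℕ) :
    ∀ S : Finset V, S.card = n →
      (∀ I ⊆ S, (I : Set V).Pairwise (fun u v => ¬ Q u v) → I.card ≤ a) →
      n ^ 2 ≤ a * (((S ×ˢ S).filter fun x => Q x.1 x.2).card + n) := by
  classical
  induction n with
  | zero => intro S _ _; simp
  | succ n ih =>
    intro S hS hI
    -- a maximal set of pairwise unrelated elements
    obtain ⟨I, hImem, hImax⟩ := Finset.exists_max_image
      (S.powerset.filter fun I : Finset V => (I : Set V).Pairwise (fun u v => ¬ Q u v))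
      Finset.card ⟨∅, by simp⟩
    rw [Finset.mem_filter, Finset.mem_powerset] at hImem
    have hdom : ∀ v ∈ S, ∃ u ∈ I, Q u v := by
      intro v hv
      by_contra hcon
      push Not at hcon
      have hvI : v ∉ I := fun h => hcon v h (hrefl v)
      have h1 := hImax (insert v I) (by
        rw [Finset.mem_filter, Finset.mem_powerset]
        refine ⟨Finset.insert_subset hv hImem.1, ?_⟩
        exact pw_insert (fun a b h h' => h (hsymm _ _ h')) hImem.2 fun b hb h' =>
          hcon b hb (hsymm _ _ h'))
      rw [Finset.card_insert_of_notMem hvI] at h1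
      omega
    have hcov : S ⊆ I.biUnion fun u => S.filter fun v => Q u v := by
      intro v hv
      obtain ⟨u, hu, huv⟩ := hdom v hv
      exact Finset.mem_biUnion.2 ⟨u, hu, Finset.mem_filter.2 ⟨hv, huv⟩⟩
    -- some element has a large neighbourhood
    obtain ⟨u, huI, hu⟩ : ∃ u ∈ I, n + 1 ≤ a * (S.filter fun v => Q u v).card := by
      by_contra hcon
      push Not at hcon
      have hIne : I.Nonempty := by
        have : S.Nonempty := Finset.card_pos.1 (by omega)
        obtain ⟨v, hv⟩ := this
        obtain ⟨u, hu, _⟩ := hdom v hv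
        exact ⟨u, hu⟩
      have hIa := hI I hImem.1 hImem.2
      have h1 : n + 1 ≤ ∑ u ∈ I, (S.filter fun v => Q u v).card := by
        rw [← hS]
        exact (Finset.card_le_card hcov).trans Finset.card_biUnion_le
      have h2 : a * ∑ u ∈ I, (S.filter fun v => Q u v).card < I.card * (n + 1) := by
        rw [Finset.mul_sum]
        calc ∑ u ∈ I, a * (S.filter fun v => Q u v).card < ∑ u ∈ I, (n + 1) :=
              Finset.sum_lt_sum_of_nonempty hIne hcon
          _ = I.card * (n + 1) := by rw [Finset.sum_const, smul_eq_mul]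
      have h3 := Nat.mul_le_mul_left a h1
      have h4 := Nat.mul_le_mul_right (n + 1) hIa
      omega
    have huS : u ∈ S := hImem.1 huI
    have h1 := ih (S.erase u) (by rw [Finset.card_erase_of_mem huS, hS]; rfl)
      (fun J hJ => hI J (hJ.trans (Finset.erase_subset _ _)))
    -- count the pairs through `u`
    have h2 : (((S.erase u) ×ˢ (S.erase u)).filter fun x => Q x.1 x.2).card +
        2 * (S.filter fun v => Q u v).card ≤
        ((S ×ˢ S).filter fun x => Q x.1 x.2).card + 1 := by
      set N := S.filter fun v => Q u v with hN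
      have huN : u ∈ N := Finset.mem_filter.2 ⟨huS, hrefl u⟩
      have h3 : Disjoint (((S.erase u) ×ˢ (S.erase u)).filter fun x => Q x.1 x.2)
          (N.image (fun v => (u, v)) ∪ (N.erase u).image (fun v => (v, u))) := by
        rw [Finset.disjoint_left]
        intro x hx hx'
        rw [Finset.mem_filter, Finset.mem_product] at hx
        rcases Finset.mem_union.1 hx' with h | h
        · obtain ⟨v, _, rfl⟩ := Finset.mem_image.1 h
          simp at hx
        · obtain ⟨v, _, rfl⟩ := Finset.mem_image.1 h
          simp at hx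
      have h4 : Disjoint (N.image (fun v => (u, v))) ((N.erase u).image (fun v => (v, u))) := by
        rw [Finset.disjoint_left]
        intro x hx hx'
        obtain ⟨v, _, rfl⟩ := Finset.mem_image.1 hx
        obtain ⟨w, hw, hw'⟩ := Finset.mem_image.1 hx'
        rw [Prod.mk.injEq] at hw'
        rw [hw'.1] at hw
        simp at hw
      have h5 : (((S.erase u) ×ˢ (S.erase u)).filter fun x => Q x.1 x.2) ∪
          (N.image (fun v => (u, v)) ∪ (N.erase u).image (fun v => (v, u))) ⊆
          (S ×ˢ S).filter fun x => Q x.1 x.2 := by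
        refine Finset.union_subset ?_ (Finset.union_subset ?_ ?_)
        · exact Finset.filter_subset_filter _ (Finset.product_subset_product
            (Finset.erase_subset _ _) (Finset.erase_subset _ _))
        · intro x hx
          obtain ⟨v, hv, rfl⟩ := Finset.mem_image.1 hx
          rw [hN, Finset.mem_filter] at hv
          rw [Finset.mem_filter, Finset.mem_product]
          exact ⟨⟨huS, hv.1⟩, hv.2⟩
        · intro x hx
          obtain ⟨v, hv, rfl⟩ := Finset.mem_image.1 hx
          have hv' := Finset.mem_of_mem_erase hv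
          rw [hN, Finset.mem_filter] at hv'
          rw [Finset.mem_filter, Finset.mem_product]
          exact ⟨⟨hv'.1, huS⟩, hsymm _ _ hv'.2⟩
      have h6 := Finset.card_le_card h5
      rw [Finset.card_union_of_disjoint h3, Finset.card_union_of_disjoint h4,
        Finset.card_image_of_injective _ (fun x y h => (Prod.mk.inj h).2),
        Finset.card_image_of_injective _ (fun x y h => (Prod.mk.inj h).1),
        Finset.card_erase_of_mem huN] at h6
      have h7 := Finset.card_pos.2 ⟨u, huN⟩
      omega
    have h8 := Nat.mul_le_mul_left a h2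
    nlinarith

/-- Among any `a + 1` classes two are completely joined: then the density condition holds. -/
lemma dense_of_joined {V : Type} [Fintype V] [DecidableEq V] (G : SimpleGraph V)
    [DecidableRel G.Adj] (col : V → ℕ) {a : ℕ} (ha : 0 < a)
    (h : ∀ I : Finset ℕ, I.card = a + 1 → (∀ j ∈ I, ∃ v, col v = j) →
      ∃ i ∈ I, ∃ j ∈ I, i ≠ j ∧ ∀ u v, col u = i → col v = j → G.Adj u v) :
    DenseOnBalanced G col (4 * a) := by
  classical
  intro S hS
  set n := S.card with hn
  have hT := turan (fun u v => col u = col v ∨ G.Adj u v) (fun u => Or.inl rfl)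
    (fun u v h => h.elim (fun h => Or.inl h.symm) fun h => Or.inr h.symm) a n S rfl (by
      intro I hI hp
      by_contra hcon
      push Not at hcon
      obtain ⟨I', hI', hI'c⟩ := Finset.exists_subset_card_eq (Nat.succ_le_of_lt hcon)
      have hinj : Set.InjOn col (I' : Set V) := by
        intro u hu v hv huv
        by_contra hne
        exact hp (hI' hu) (hI' hv) hne (Or.inl huv)
      obtain ⟨i, hi, j, hj, hij, hall⟩ := h (I'.image col)
        (by rw [Finset.card_image_of_injOn hinj, hI'c]) (by
          intro j hj
          obtain ⟨v, _, rfl⟩ := Finset.mem_image.1 hj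
          exact ⟨v, rfl⟩)
      obtain ⟨u, hu, rfl⟩ := Finset.mem_image.1 hi
      obtain ⟨v, hv, rfl⟩ := Finset.mem_image.1 hj
      have hadj := hall u v rfl rfl
      exact hp (hI' hu) (hI' hv) hadj.ne (Or.inr hadj))
  set A := (S ×ˢ S).filter (fun x => G.Adj x.1 x.2) with hA
  set B := (S ×ˢ S).filter (fun x => col x.1 = col x.2) with hB
  have h1 : ((S ×ˢ S).filter fun x => col x.1 = col x.2 ∨ G.Adj x.1 x.2).card ≤
      B.card + A.card := by
    rw [Finset.filter_or]
    exact Finset.card_union_le _ _
  have h2 : 4 * a * B.card ≤ n ^ 2 := by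
    have h3 : B.card ≤ ∑ u ∈ S, (S.filter fun v => col v = col u).card := by
      have h4 : B = S.biUnion fun u => (S.filter fun v => col v = col u).image fun v => (u, v) := by
        ext ⟨u, v⟩
        simp only [hB, Finset.mem_filter, Finset.mem_product, Finset.mem_biUnion,
          Finset.mem_image, Prod.mk.injEq]
        constructor
        · rintro ⟨⟨hu, hv⟩, huv⟩
          exact ⟨u, hu, v, ⟨hv, huv.symm⟩, rfl, rfl⟩
        · rintro ⟨u', hu', v', ⟨hv', huv'⟩, rfl, rfl⟩
          exact ⟨⟨hu', hv'⟩, huv'.symm⟩
      rw [h4]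
      exact Finset.card_biUnion_le.trans (Finset.sum_le_sum fun u _ => Finset.card_image_le)
    have h5 : 4 * a * ∑ u ∈ S, (S.filter fun v => col v = col u).card ≤ n ^ 2 := by
      rw [Finset.mul_sum]
      calc ∑ u ∈ S, 4 * a * (S.filter fun v => col v = col u).card ≤ ∑ u ∈ S, n :=
            Finset.sum_le_sum fun u _ => hS (col u)
        _ = n ^ 2 := by rw [Finset.sum_const, smul_eq_mul, sq]
    exact (Nat.mul_le_mul_left _ h3).trans h5
  have h6 : A.card ≤ 2 * (inEdges G S).card := by
    have h7 : (A.image fun x => s(x.1, x.2)) ⊆ inEdges G S := by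
      intro e he
      obtain ⟨x, hx, rfl⟩ := Finset.mem_image.1 he
      rw [hA, Finset.mem_filter, Finset.mem_product] at hx
      rw [inEdges_mem]
      refine ⟨by simpa using hx.2, ?_⟩
      intro v hv
      rcases Sym2.mem_iff.1 hv with rfl | rfl
      · exact hx.1.1
      · exact hx.1.2
    refine le_trans (Finset.card_le_mul_card_image (f := fun x : V × V => s(x.1, x.2)) A 2 ?_)
      (Nat.mul_le_mul_left 2 (Finset.card_le_card h7))
    intro e he
    obtain ⟨x, hx, rfl⟩ := Finset.mem_image.1 he
    have h8 : (A.filter fun y => s(y.1, y.2) = s(x.1, x.2)) ⊆ {(x.1, x.2), (x.2, x.1)} := by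
      intro y hy
      have h9 := (Finset.mem_filter.1 hy).2
      rw [Sym2.eq_iff] at h9
      simp only [Finset.mem_insert, Finset.mem_singleton]
      rcases h9 with ⟨a, c⟩ | ⟨a, c⟩
      · exact Or.inl (Prod.ext a c)
      · exact Or.inr (Prod.ext a c)
    exact (Finset.card_le_card h8).trans Finset.card_le_two
  have h10 : 4 * a * n ≤ n ^ 2 := by
    rcases Nat.eq_zero_or_pos n with h0 | h0
    · rw [h0]
      simp
    · obtain ⟨v, hv⟩ := Finset.card_pos.1 h0
      have h11 := hS (col v)
      have h12 : 0 < (S.filter fun w => col w = col v).card :=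
        Finset.card_pos.2 ⟨v, Finset.mem_filter.2 ⟨hv, rfl⟩⟩
      have h13 : 4 * a ≤ n := le_trans (Nat.le_mul_of_pos_right _ h12) h11
      rw [sq]
      exact Nat.mul_le_mul_right n h13
  -- combine
  have h14 : n ^ 2 ≤ a * (B.card + 2 * (inEdges G S).card + n) :=
    hT.trans (Nat.mul_le_mul_left a (by omega))
  have h15 : 4 * a * n ^ 2 ≤ a * (4 * a * B.card) + 8 * a ^ 2 * (inEdges G S).card +
      a * (4 * a * n) := by
    calc 4 * a * n ^ 2 ≤ 4 * a * (a * (B.card + 2 * (inEdges G S).card + n)) :=
          Nat.mul_le_mul_left _ h14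
      _ = a * (4 * a * B.card) + 8 * a ^ 2 * (inEdges G S).card + a * (4 * a * n) := by ring
  have h16 := Nat.mul_le_mul_left a h2
  have h17 := Nat.mul_le_mul_left a h10
  have h18 : 2 * a * n ^ 2 ≤ 2 * a * (4 * a * (inEdges G S).card) := by nlinarith
  exact Nat.le_of_mul_le_mul_left h18 (by positivity)

end Pool.Agent.Helper20.HalfP
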