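import Mathlib
import Pool.Agent.Helper20.HalfA

/-!
Expectation over a union of two disjoint edge sets, and over the union of two random subsets.
-/

namespace Pool.Agent.Helper20.HalfP

open Finset

variable {α : Type} [DecidableEq α]

private lemma EE_empty' (p : ℝ) (f : Finset α → ℝ) : EE ∅ p f = f ∅ := by
  simp [EE]

private lemma EE_insert' {E : Finset α} {a : α} (ha : a ∉ E) (p : ℝ) (f : Finset α → ℝ) :
    EE (insert a E) p f = p * EE E p (fun F => f (insert a F)) + (1 - p) * EE E p f := by
  unfold EE
  rw [Finset.sum_powerset_insert ha, Finset.mul_sum, Finset.mul_sum, add_comm,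
    Finset.card_insert_of_notMem ha]
  congr 1
  · refine Finset.sum_congr rfl fun F hF => ?_
    have h1 : a ∉ F := fun h => ha (Finset.mem_powerset.1 hF h)
    rw [Finset.card_insert_of_notMem h1, pow_succ]
    have h2 : E.card + 1 - (F.card + 1) = E.card - F.card := by omega
    rw [h2]
    ring
  · refine Finset.sum_congr rfl fun F hF => ?_
    have h3 := Finset.card_le_card (Finset.mem_powerset.1 hF)
    have h2 : E.card + 1 - F.card = (E.card - F.card) + 1 := by omega
    rw [h2, pow_succ]
    ring

/-- HB1a. Random subsets of a disjoint union. -/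
lemma EE_union {E1 E2 : Finset α} (hd : Disjoint E1 E2) (p : ℝ) (f : Finset α → ℝ) :
    EE (E1 ∪ E2) p f = EE E1 p (fun A => EE E2 p (fun B => f (A ∪ B))) := by
  induction E1 using Finset.induction_on generalizing f with
  | empty =>
    rw [EE_empty']
    simp only [Finset.empty_union]
  | insert a E1 ha ih =>
    rw [Finset.disjoint_insert_left] at hd
    have h1 : a ∉ E1 ∪ E2 := by
      rw [Finset.mem_union]
      exact fun h => h.elim ha hd.1
    rw [Finset.insert_union, EE_insert' h1, EE_insert' ha, ih hd.2, ih hd.2]
    simp only [Finset.insert_union]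

/-- HB1b. The union of two independent random subsets is a random subset. -/
lemma EE_sprinkle (E : Finset α) (a b : ℝ) (f : Finset α → ℝ) :
    EE E a (fun H => EE E b (fun R => f (H ∪ R))) = EE E (a + b - a * b) f := by
  induction E using Finset.induction_on generalizing f with
  | empty =>
    rw [EE_empty', EE_empty', EE_empty', Finset.empty_union]
  | insert e E he ih =>
    rw [EE_insert' he, EE_insert' he, ← ih, ← ih]
    have h1 : ∀ H : Finset α, EE (insert e E) b (fun R => f (insert e H ∪ R)) =
        EE E b (fun R => f (insert e (H ∪ R))) := by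
      intro H
      rw [EE_insert' he]
      simp only [Finset.insert_union, Finset.union_insert, Finset.insert_idem]
      ring
    have h2 : ∀ H : Finset α, EE (insert e E) b (fun R => f (H ∪ R)) =
        b * EE E b (fun R => f (insert e (H ∪ R))) + (1 - b) * EE E b (fun R => f (H ∪ R)) := by
      intro H
      rw [EE_insert' he]
      simp only [Finset.union_insert]
    simp only [h1, h2]
    rw [EE_add, EE_mul, EE_mul]
    ring

end Pool.Agent.Helper20.HalfP
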