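import Mathlib
import Pool.Agent.Helper20.HalfA

/-!
Expectation over a union of two disjoint edge sets, and over the union of two random subsets.
-/

namespace Pool.Agent.Helper20.HalfP

open Finset

variable {α : Type} [DecidableEq α]

private lemma hb2_ind (D : ℕ → Finset α) (s : Finset ℕ) (R : Finset α) :
    ∏ c ∈ s, (-(if Disjoint (D c) R then (1 : ℝ) else 0)) =
      (-1) ^ s.card * (if Disjoint (s.biUnion D) R then (1 : ℝ) else 0) := by
  rw [Finset.prod_neg]
  congr 1
  by_cases h : Disjoint (s.biUnion D) R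
  · rw [if_pos h]
    refine Finset.prod_eq_one fun c hc => ?_
    rw [if_pos]
    exact h.mono_left (Finset.subset_biUnion_of_mem D hc)
  · rw [if_neg h]
    have h1 : ∃ c ∈ s, ¬ Disjoint (D c) R := by
      by_contra hcon
      push Not at hcon
      exact h ((Finset.disjoint_biUnion_left s D R).2 hcon)
    obtain ⟨c, hc, hcR⟩ := h1
    exact Finset.prod_eq_zero hc (by rw [if_neg hcR])

private lemma hb2_exact {r : ℝ} (E : Finset α) (D : ℕ → Finset α) (s : Finset ℕ)
    (hD : ∀ c ∈ s, D c ⊆ E)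
    (hdis : ∀ c ∈ s, ∀ c' ∈ s, c ≠ c' → Disjoint (D c) (D c')) :
    EE E r (fun R => if (∀ c ∈ s, ¬ Disjoint (D c) R) then (1 : ℝ) else 0) =
      ∏ c ∈ s, (1 - (1 - r) ^ (D c).card) := by
  have h1 : (fun R : Finset α => if (∀ c ∈ s, ¬ Disjoint (D c) R) then (1 : ℝ) else 0) =
      fun R => ∑ t ∈ s.powerset, ((-1) ^ t.card *
        (if Disjoint (t.biUnion D) R then (1 : ℝ) else 0)) := by
    funext R
    have h2 : (if (∀ c ∈ s, ¬ Disjoint (D c) R) then (1 : ℝ) else 0) =
        ∏ c ∈ s, (1 + -(if Disjoint (D c) R then (1 : ℝ) else 0)) := by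
      by_cases h : ∀ c ∈ s, ¬ Disjoint (D c) R
      · rw [if_pos h]
        symm
        refine Finset.prod_eq_one fun c hc => ?_
        rw [if_neg (h c hc)]
        norm_num
      · rw [if_neg h]
        push Not at h
        obtain ⟨c, hc, hcR⟩ := h
        symm
        exact Finset.prod_eq_zero hc (by rw [if_pos hcR]; norm_num)
    rw [h2, Finset.prod_one_add]
    exact Finset.sum_congr rfl fun t _ => hb2_ind D t R
  rw [h1, EE_sum]
  have h3 : ∏ c ∈ s, (1 - (1 - r) ^ (D c).card) =
      ∑ t ∈ s.powerset, ∏ c ∈ t, (-(1 - r) ^ (D c).card) := by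
    rw [← Finset.prod_one_add]
    rfl
  rw [h3]
  refine Finset.sum_congr rfl fun t ht => ?_
  rw [Finset.mem_powerset] at ht
  rw [EE_mul, EE_disj (Finset.biUnion_subset.2 fun c hc => hD c (ht hc)),
    Finset.card_biUnion (fun c hc c' hc' hne => hdis c (ht hc) c' (ht hc') hne),
    Finset.prod_neg, Finset.prod_pow_eq_pow_sum]

/-- HB2. The chance that every one of `2 K2` disjoint sets `D c` is hit. -/
lemma star_bound {r : ℝ} (hr0 : 0 < r) (hr1 : r < 1) (E : Finset α) (D : ℕ → Finset α)
    (K2 h : ℕ) (hD : ∀ c < 2 * K2, D c ⊆ E)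
    (hdis : ∀ c < 2 * K2, ∀ c' < 2 * K2, c ≠ c' → Disjoint (D c) (D c'))
    (hcard : E.card < (K2 + 1) * (h + 1)) :
    EE E r (fun R => if (∀ c < 2 * K2, ¬ Disjoint (D c) R) then (1 : ℝ) else 0) ≤
      (1 - (1 - r) ^ h) ^ K2 := by
  have h0 := hb2_exact (r := r) E D (Finset.range (2 * K2))
    (fun c hc => hD c (Finset.mem_range.1 hc))
    (fun c hc c' hc' hne => hdis c (Finset.mem_range.1 hc) c' (Finset.mem_range.1 hc') hne)
  have h00 : EE E r (fun R => if (∀ c < 2 * K2, ¬ Disjoint (D c) R) then (1 : ℝ) else 0) =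
      ∏ c ∈ Finset.range (2 * K2), (1 - (1 - r) ^ (D c).card) := by
    rw [← h0]
    congr 1
    funext R
    refine if_congr ?_ rfl rfl
    simp only [Finset.mem_range]
  rw [h00]
  have hq0 : 0 ≤ 1 - r := by linarith
  have hq1 : 1 - r ≤ 1 := by linarith
  have hfac0 : ∀ k : ℕ, 0 ≤ 1 - (1 - r) ^ k := fun k => by
    have := pow_le_one₀ (n := k) hq0 hq1
    linarith
  have hfac1 : ∀ k : ℕ, 1 - (1 - r) ^ k ≤ 1 := fun k => by
    have := pow_nonneg hq0 k
    linarith
  set A := (Finset.range (2 * K2)).filter (fun c => (D c).card ≤ h) with hA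
  set B := (Finset.range (2 * K2)).filter (fun c => ¬ (D c).card ≤ h) with hB
  have hAB : A.card + B.card = 2 * K2 := by
    rw [hA, hB, Finset.card_filter_add_card_filter_not, Finset.card_range]
  have hBcard : B.card ≤ K2 := by
    have h1 : ∑ c ∈ B, (D c).card ≤ E.card := by
      rw [← Finset.card_biUnion]
      · refine Finset.card_le_card (Finset.biUnion_subset.2 fun c hc => ?_)
        exact hD c (Finset.mem_range.1 (Finset.mem_filter.1 hc).1)
      · intro c hc c' hc' hne
        exact hdis c (Finset.mem_range.1 (Finset.mem_filter.1 hc).1) c'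
          (Finset.mem_range.1 (Finset.mem_filter.1 hc').1) hne
    have h2 : B.card * (h + 1) ≤ ∑ c ∈ B, (D c).card := by
      rw [← smul_eq_mul, ← Finset.sum_const]
      refine Finset.sum_le_sum fun c hc => ?_
      have := (Finset.mem_filter.1 hc).2
      omega
    have h3 : B.card * (h + 1) < (K2 + 1) * (h + 1) := by omega
    have h4 : B.card < K2 + 1 := lt_of_mul_lt_mul_right h3 (Nat.zero_le _)
    omega
  have hAcard : K2 ≤ A.card := by omega
  calc ∏ c ∈ Finset.range (2 * K2), (1 - (1 - r) ^ (D c).card)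
      = (∏ c ∈ A, (1 - (1 - r) ^ (D c).card)) * ∏ c ∈ B, (1 - (1 - r) ^ (D c).card) :=
        (Finset.prod_filter_mul_prod_filter_not _ _ _).symm
    _ ≤ (∏ c ∈ A, (1 - (1 - r) ^ h)) * 1 := by
        apply mul_le_mul
        · refine Finset.prod_le_prod (fun c _ => hfac0 _) fun c hc => ?_
          have h5 := pow_le_pow_of_le_one hq0 hq1 (Finset.mem_filter.1 hc).2
          linarith
        · exact Finset.prod_le_one (fun c _ => hfac0 _) fun c _ => hfac1 _
        · exact Finset.prod_nonneg fun c _ => hfac0 _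
        · exact Finset.prod_nonneg fun c _ => hfac0 _
    _ = (1 - (1 - r) ^ h) ^ A.card := by rw [mul_one, Finset.prod_const]
    _ ≤ (1 - (1 - r) ^ h) ^ K2 := pow_le_pow_of_le_one (hfac0 h) (hfac1 h) hAcard

end Pool.Agent.Helper20.HalfP
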