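import Mathlib
import Pool.Agent.Helper20.HalfB
import Pool.Agent.Helper20.HalfE1a

/-!
Greedy colouring of a random subgraph along a degeneracy order, with a small set of failures.
-/

namespace Pool.Agent.Helper20.HalfP

open Finset

section

variable {V : Type} [Fintype V] [DecidableEq V] (G : SimpleGraph V) [DecidableRel G.Adj]

/-- The edges from `v` to `N`. -/
def star (v : V) (N : Finset V) : Finset (Sym2 V) := N.image fun u => s(v, u)

lemma star_mem {v w : V} {N : Finset V} (hv : v ∉ N) : s(v, w) ∈ star v N ↔ w ∈ N := by
  unfold star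
  rw [Finset.mem_image]
  constructor
  · rintro ⟨u, hu, he⟩
    rw [Sym2.eq_iff] at he
    rcases he with ⟨_, h⟩ | ⟨h1, h2⟩
    · exact h ▸ hu
    · rw [← h1] at *
      exact h2 ▸ hu
  · intro h
    exact ⟨w, h, rfl⟩

lemma star_card (v : V) (N : Finset V) : (star v N).card ≤ N.card := Finset.card_image_le

lemma inEdges_insert {U : Finset V} {v : V} (hv : v ∈ U) :
    inEdges G U = inEdges G (U.erase v) ∪ star v ((U.erase v).filter fun u => G.Adj v u) := by
  ext e
  induction e using Sym2.ind with
  | _ x y =>
    simp only [Finset.mem_union, inEdges_mem, star, Finset.mem_image, Finset.mem_filter,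
      Finset.mem_erase, SimpleGraph.mem_edgeFinset, SimpleGraph.mem_edgeSet, Sym2.mem_iff,
      forall_eq_or_imp, forall_eq, Sym2.eq_iff]
    constructor
    · rintro ⟨hadj, hx, hy⟩
      by_cases h1 : x = v
      · subst h1
        exact Or.inr ⟨y, ⟨⟨hadj.ne', hy⟩, hadj⟩, Or.inl ⟨rfl, rfl⟩⟩
      · by_cases h2 : y = v
        · subst h2
          exact Or.inr ⟨x, ⟨⟨hadj.ne, hx⟩, hadj.symm⟩, Or.inr ⟨rfl, rfl⟩⟩
        · exact Or.inl ⟨hadj, ⟨h1, hx⟩, h2, hy⟩
    · rintro (⟨hadj, ⟨_, hx⟩, _, hy⟩ | ⟨u, ⟨⟨hu, huU⟩, hadj⟩, (⟨rfl, rfl⟩ | ⟨rfl, rfl⟩)⟩)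
      · exact ⟨hadj, hx, hy⟩
      · exact ⟨hadj, hv, huU⟩
      · exact ⟨hadj.symm, huU, hv⟩

lemma inEdges_disj {U : Finset V} {v : V} (N : Finset V) :
    Disjoint (inEdges G (U.erase v)) (star v N) := by
  rw [Finset.disjoint_left]
  intro e he hs
  obtain ⟨u, _, rfl⟩ := Finset.mem_image.1 hs
  rw [inEdges_mem] at he
  have := he.2 v (by simp)
  simp at this

/-- The colour `c` is free for `v`. -/
def FreeCol (v : V) (N : Finset V) (g : V → ℕ) (B : Finset V) (Z : Finset (Sym2 V)) (c : ℕ) :
    Prop := ∀ u ∈ N \ B, g u = c → s(v, u) ∉ Z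

open Classical in
/-- The colour given to `v`. -/
noncomputable def newCol (K : ℕ) (v : V) (N : Finset V) (g : V → ℕ) (B : Finset V)
    (Z : Finset (Sym2 V)) : ℕ :=
  if h : ∃ c, c < K ∧ FreeCol v N g B Z c then h.choose else 0

lemma newCol_spec {K : ℕ} {v : V} {N : Finset V} {g : V → ℕ} {B : Finset V}
    {Z : Finset (Sym2 V)} (h : ∃ c, c < K ∧ FreeCol v N g B Z c) :
    newCol K v N g B Z < K ∧ FreeCol v N g B Z (newCol K v N g B Z) := by
  unfold newCol
  rw [dif_pos h]
  exact h.choose_spec

open Classical in
lemma seq {r ε : ℝ} (hr0 : 0 < r) (hr1 : r < 1) (hε : 0 ≤ ε) {K2 d m : ℕ}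
    (hstar : ∀ (E : Finset (Sym2 V)) (D : ℕ → Finset (Sym2 V)), E.card < d →
      (∀ c < 2 * K2, D c ⊆ E) →
      (∀ c < 2 * K2, ∀ c' < 2 * K2, c ≠ c' → Disjoint (D c) (D c')) →
      EE E r (fun R => if (∀ c < 2 * K2, ¬ Disjoint (D c) R) then (1 : ℝ) else 0) ≤ ε)
    (n : ℕ) : ∀ U : Finset V, U.card = n →
      (∀ S ⊆ U, S.Nonempty → ∃ v ∈ S, (S.filter fun u => G.Adj v u).card < d) →
    ∃ (g : Finset (Sym2 V) → V → ℕ) (B : Finset (Sym2 V) → Finset V) (N : V → Finset V),
      (∀ R, g R = g (R ∩ inEdges G U)) ∧ (∀ R, B R = B (R ∩ inEdges G U)) ∧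
      (∀ R, B R ⊆ U) ∧
      (∀ R, ∀ v ∈ U, v ∉ B R → g R v < 2 * K2) ∧
      (∀ R ⊆ G.edgeFinset, ∀ u ∈ U, ∀ v ∈ U, u ∉ B R → v ∉ B R → s(u, v) ∈ R →
        g R u ≠ g R v) ∧
      (∀ M ⊆ U, EE (inEdges G U) r (fun R => if M ⊆ B R then (1 : ℝ) else 0) ≤ ε ^ M.card) ∧
      (∀ v ∈ U, N v ⊆ U ∧ (N v).card ≤ d) ∧
      (∀ X ⊆ U, (∀ v ∈ X, (N v ∩ X).card < m) → CanCol G X m) := by
  induction n with
  | zero =>
    intro U hU _
    rw [Finset.card_eq_zero] at hU
    subst hU
    refine ⟨fun _ _ => 0, fun _ => ∅, fun _ => ∅, fun _ => rfl, fun _ => rfl,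
      fun _ => Finset.Subset.refl _, by simp, by simp, ?_, by simp, ?_⟩
    · intro M hM
      rw [Finset.subset_empty] at hM
      subst hM
      simp [EE_const]
    · intro X hX _
      rw [Finset.subset_empty] at hX
      subst hX
      exact ⟨fun _ => 0, by simp, by simp⟩
  | succ n ih =>
    intro U hU hdeg
    obtain ⟨v, hvU, hvdeg⟩ := hdeg U (Finset.Subset.refl _) (Finset.card_pos.1 (by omega))
    set U0 := U.erase v with hU0
    have hU0U : U0 ⊆ U := Finset.erase_subset _ _
    obtain ⟨g, B, N, hg, hB, hBU, hgK, hprop, hprob, hN, hcol⟩ := ih U0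
      (by rw [hU0, Finset.card_erase_of_mem hvU, hU]; rfl)
      (fun S hS hne => hdeg S (hS.trans hU0U) hne)
    set Nv := U0.filter fun u => G.Adj v u with hNv
    have hvNv : v ∉ Nv := by
      intro h
      have := (Finset.mem_filter.1 h).1
      simp [hU0] at this
    have hNvd : Nv.card < d := by
      refine lt_of_le_of_lt (Finset.card_le_card ?_) hvdeg
      exact Finset.filter_subset_filter _ hU0U
    set E0 := inEdges G U0 with hE0
    set St := star v Nv with hSt
    have hEU : inEdges G U = E0 ∪ St := inEdges_insert G hvU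
    have hdisj : Disjoint E0 St := inEdges_disj G Nv
    have hvU0 : v ∉ U0 := by simp [hU0]
    -- the new data
    set fail : Finset (Sym2 V) → Prop := fun R =>
      ¬ ∃ c, c < 2 * K2 ∧ FreeCol v Nv (g R) (B R) (R ∩ St) c with hfail
    set g' : Finset (Sym2 V) → V → ℕ := fun R =>
      Function.update (g R) v (newCol (2 * K2) v Nv (g R) (B R) (R ∩ St)) with hg'
    set B' : Finset (Sym2 V) → Finset V := fun R => if fail R then insert v (B R) else B R
      with hB'
    have hloc1 : ∀ R, g (R ∩ inEdges G U) = g R := by
      intro R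
      rw [hg R, hg (R ∩ inEdges G U), hEU, Finset.inter_assoc,
        Finset.inter_eq_right.2 (Finset.subset_union_left (s₁ := E0) (s₂ := St))]
    have hloc2 : ∀ R, B (R ∩ inEdges G U) = B R := by
      intro R
      rw [hB R, hB (R ∩ inEdges G U), hEU, Finset.inter_assoc,
        Finset.inter_eq_right.2 (Finset.subset_union_left (s₁ := E0) (s₂ := St))]
    have hloc3 : ∀ R, (R ∩ inEdges G U) ∩ St = R ∩ St := by
      intro R
      rw [hEU, Finset.inter_assoc,
        Finset.inter_eq_right.2 (Finset.subset_union_right (s₁ := E0) (s₂ := St))]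
    have hB't : ∀ R, fail R → B' R = insert v (B R) := fun R h => if_pos h
    have hB'f : ∀ R, ¬ fail R → B' R = B R := fun R h => if_neg h
    have hB'er : ∀ R w, w ∈ B' R → w ≠ v → w ∈ B R := by
      intro R w hw hne
      by_cases hf : fail R
      · rw [hB't R hf, Finset.mem_insert] at hw
        exact hw.resolve_left hne
      · rwa [hB'f R hf] at hw
    have hB'sub : ∀ R, B R ⊆ B' R := by
      intro R
      simp only [hB']
      split_ifs
      · exact Finset.subset_insert _ _
      · exact Finset.Subset.refl _
    have hvB' : ∀ R, v ∉ B' R → ∃ c, c < 2 * K2 ∧ FreeCol v Nv (g R) (B R) (R ∩ St) c := by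
      intro R hv
      by_contra hcon
      have : fail R := hcon
      simp only [hB', if_pos this] at hv
      exact hv (Finset.mem_insert_self _ _)
    refine ⟨g', B', Function.update N v Nv, ?_, ?_, ?_, ?_, ?_, ?_, ?_, ?_⟩
    · intro R
      simp only [hg', hloc1, hloc2, hloc3]
    · intro R
      simp only [hB', hfail, hloc1, hloc2, hloc3]
    · intro R
      simp only [hB']
      split_ifs
      · exact Finset.insert_subset hvU ((hBU R).trans hU0U)
      · exact (hBU R).trans hU0U
    · intro R w hw hwB
      by_cases hwv : w = v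
      · subst hwv
        simp only [hg', Function.update_self]
        exact (newCol_spec (hvB' R hwB)).1
      · simp only [hg', Function.update_of_ne hwv]
        exact hgK R w (Finset.mem_erase.2 ⟨hwv, hw⟩) fun h => hwB (hB'sub R h)
    · -- properness
      have key : ∀ R ⊆ G.edgeFinset, ∀ w ∈ U, w ≠ v → w ∉ B' R → v ∉ B' R → s(v, w) ∈ R →
          g R w ≠ newCol (2 * K2) v Nv (g R) (B R) (R ∩ St) := by
        intro R hR w hw hwv hwB hvB hvw he
        have h1 := (newCol_spec (hvB' R hvB)).2
        have hadj : G.Adj v w := by simpa using hR hvw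
        have hwN : w ∈ Nv := Finset.mem_filter.2 ⟨Finset.mem_erase.2 ⟨hwv, hw⟩, hadj⟩
        exact h1 w (Finset.mem_sdiff.2 ⟨hwN, fun h => hwB (hB'sub R h)⟩) he
          (Finset.mem_inter.2 ⟨hvw, (star_mem hvNv).2 hwN⟩)
      intro R hR u hu w hw huB hwB huw
      by_cases h1 : u = v
      · by_cases h2 : w = v
        · subst h1
          subst h2
          have := hR huw
          simp at this
        · subst h1
          simp only [hg', Function.update_self, Function.update_of_ne h2]
          exact (key R hR w hw h2 hwB huB huw).symm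
      · by_cases h2 : w = v
        · subst h2
          simp only [hg', Function.update_self, Function.update_of_ne h1]
          exact key R hR u hu h1 huB hwB (by rwa [Sym2.eq_swap])
        · simp only [hg', Function.update_of_ne h1, Function.update_of_ne h2]
          exact hprop R hR u (Finset.mem_erase.2 ⟨h1, hu⟩) w (Finset.mem_erase.2 ⟨h2, hw⟩)
            (fun h => huB (hB'sub R h)) (fun h => hwB (hB'sub R h)) huw
    · -- probability
      intro M hM
      rw [hEU, EE_union hdisj]
      have hAB : ∀ A ⊆ E0, ∀ Z ⊆ St, g (A ∪ Z) = g A ∧ B (A ∪ Z) = B A ∧ (A ∪ Z) ∩ St = Z := by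
        intro A hA Z hZ
        have h1 : (A ∪ Z) ∩ E0 = A ∩ E0 := by
          rw [Finset.union_inter_distrib_right,
            Finset.disjoint_iff_inter_eq_empty.1
              ((hdisj.symm).mono_left hZ), Finset.union_empty]
        have h2 : (A ∪ Z) ∩ St = Z := by
          rw [Finset.union_inter_distrib_right,
            Finset.disjoint_iff_inter_eq_empty.1 (hdisj.mono_left hA), Finset.empty_union,
            Finset.inter_eq_left.2 hZ]
        refine ⟨?_, ?_, h2⟩
        · rw [hg (A ∪ Z), h1, ← hg A]
        · rw [hB (A ∪ Z), h1, ← hB A]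
      by_cases hvM : v ∈ M
      · have hM0 : M.erase v ⊆ U0 := Finset.erase_subset_erase v hM
        calc EE E0 r (fun A => EE St r fun Z => if M ⊆ B' (A ∪ Z) then (1 : ℝ) else 0)
            ≤ EE E0 r (fun A => ε * (if M.erase v ⊆ B A then (1 : ℝ) else 0)) := by
              refine EE_mono hr0.le hr1.le fun A hA => ?_
              by_cases hMA : M.erase v ⊆ B A
              · rw [if_pos hMA, mul_one]
                refine le_trans (EE_mono hr0.le hr1.le fun Z hZ => ?_)
                  (hstar St (fun c => star v ((Nv \ B A).filter fun u => g A u = c))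
                    (lt_of_le_of_lt (star_card v Nv) hNvd) ?_ ?_)
                · obtain ⟨e1, e2, e3⟩ := hAB A hA Z hZ
                  by_cases hMB : M ⊆ B' (A ∪ Z)
                  · have hf : fail (A ∪ Z) := by
                      by_contra hcon0
                      have hcon : ¬ fail (A ∪ Z) := fun h => h hcon0
                      rw [hB'f _ hcon] at hMB
                      exact hvU0 (hBU (A ∪ Z) (hMB hvM))
                    rw [if_pos hMB, if_pos]
                    intro c hc
                    simp only [hfail, e1, e2, e3, not_exists, not_and] at hf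
                    have h1 := hf c hc
                    unfold FreeCol at h1
                    push Not at h1
                    obtain ⟨u, hu, huc, huZ⟩ := h1
                    rw [Finset.not_disjoint_iff]
                    exact ⟨s(v, u), Finset.mem_image.2 ⟨u, Finset.mem_filter.2 ⟨hu, huc⟩, rfl⟩,
                      huZ⟩
                  · rw [if_neg hMB]
                    split_ifs <;> norm_num
                · intro c _
                  exact Finset.image_subset_image ((Finset.filter_subset _ _).trans
                    Finset.sdiff_subset)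
                · intro c _ c' _ hcc
                  rw [Finset.disjoint_left]
                  intro e he he'
                  obtain ⟨u, hu, rfl⟩ := Finset.mem_image.1 he
                  have hv1 : v ∉ ((Nv \ B A).filter fun u => g A u = c') := fun h =>
                    hvNv (Finset.mem_sdiff.1 (Finset.mem_filter.1 h).1).1
                  have h2 := (star_mem hv1).1 he'
                  exact hcc ((Finset.mem_filter.1 hu).2.symm.trans (Finset.mem_filter.1 h2).2)
              · rw [if_neg hMA, mul_zero]
                refine le_of_eq_of_le ?_ (le_of_eq (EE_const (E := St) (p := r) 0))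
                unfold EE
                refine Finset.sum_congr rfl fun Z hZ => ?_
                obtain ⟨e1, e2, e3⟩ := hAB A hA Z (Finset.mem_powerset.1 hZ)
                have hno : ¬ M ⊆ B' (A ∪ Z) := by
                  intro hMB
                  apply hMA
                  intro w hw
                  have h1 := hB'er _ w (hMB (Finset.mem_of_mem_erase hw))
                    (Finset.ne_of_mem_erase hw)
                  rwa [e2] at h1
                simp only [if_neg hno]
          _ = ε * EE E0 r (fun A => if M.erase v ⊆ B A then (1 : ℝ) else 0) := EE_mul _ _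
          _ ≤ ε * ε ^ (M.erase v).card := mul_le_mul_of_nonneg_left (hprob _ hM0) hε
          _ = ε ^ M.card := by
              rw [← pow_succ', Finset.card_erase_add_one hvM]
      · have hM0 : M ⊆ U0 := fun w hw => Finset.mem_erase.2
          ⟨fun h => hvM (h ▸ hw), hM hw⟩
        refine le_trans (EE_mono hr0.le hr1.le fun A hA => ?_) (hprob M hM0)
        refine le_trans (EE_mono hr0.le hr1.le fun Z hZ => ?_)
          (le_of_eq (EE_const (E := St) (p := r) (if M ⊆ B A then (1 : ℝ) else 0)))
        obtain ⟨e1, e2, e3⟩ := hAB A hA Z hZ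
        by_cases hMB : M ⊆ B' (A ∪ Z)
        · have h1 : M ⊆ B A := by
            intro w hw
            have h1 := hB'er _ w (hMB hw) (fun h => hvM (h ▸ hw))
            rwa [e2] at h1
          rw [if_pos hMB, if_pos h1]
        · rw [if_neg hMB]
          split_ifs <;> norm_num
    · intro w hw
      by_cases hwv : w = v
      · subst hwv
        rw [Function.update_self]
        exact ⟨(Finset.filter_subset _ _).trans hU0U, hNvd.le⟩
      · rw [Function.update_of_ne hwv]
        have h1 := hN w (Finset.mem_erase.2 ⟨hwv, hw⟩)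
        exact ⟨h1.1.trans hU0U, h1.2⟩
    · intro X hX hXm
      have hX0 : X.erase v ⊆ U0 := Finset.erase_subset_erase v hX
      have h1 := hcol (X.erase v) hX0 (by
        intro w hw
        have hwv := Finset.ne_of_mem_erase hw
        have h2 := hXm w (Finset.mem_of_mem_erase hw)
        rw [Function.update_of_ne hwv] at h2
        exact lt_of_le_of_lt (Finset.card_le_card
          (Finset.inter_subset_inter_left (Finset.erase_subset _ _))) h2)
      by_cases hvX : v ∈ X
      · obtain ⟨f, hf, hf'⟩ := h1
        have h2 := hXm v hvX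
        rw [Function.update_self] at h2
        obtain ⟨c, hc, hcf⟩ : ∃ c ∈ Finset.range m, c ∉ (Nv ∩ X).image f := by
          by_contra hcon
          push Not at hcon
          have h3 := Finset.card_le_card (show Finset.range m ⊆ (Nv ∩ X).image f from hcon)
          rw [Finset.card_range] at h3
          have h4 := Finset.card_image_le (s := Nv ∩ X) (f := f)
          omega
        have hcu : ∀ u ∈ X, u ≠ v → G.Adj v u → f u ≠ c := by
          intro u hu huv hadj he
          refine hcf (Finset.mem_image.2 ⟨u, Finset.mem_inter.2 ⟨?_, hu⟩, he⟩)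
          exact Finset.mem_filter.2 ⟨Finset.mem_erase.2 ⟨huv, hX hu⟩, hadj⟩
        refine ⟨Function.update f v c, ?_, ?_⟩
        · intro w hw
          by_cases hwv : w = v
          · subst hwv
            rw [Function.update_self]
            exact Finset.mem_range.1 hc
          · rw [Function.update_of_ne hwv]
            exact hf w (Finset.mem_erase.2 ⟨hwv, hw⟩)
        · intro u hu w hw hadj
          by_cases h3 : u = v
          · have h4 : w ≠ v := fun h => hadj.ne (h3.trans h.symm)
            rw [h3, Function.update_self, Function.update_of_ne h4]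
            rw [h3] at hadj
            exact (hcu w hw h4 hadj).symm
          · by_cases h4 : w = v
            · rw [h4, Function.update_self, Function.update_of_ne h3]
              rw [h4] at hadj
              exact hcu u hu h3 hadj.symm
            · rw [Function.update_of_ne h3, Function.update_of_ne h4]
              exact hf' u (Finset.mem_erase.2 ⟨h3, hu⟩) w (Finset.mem_erase.2 ⟨h4, hw⟩) hadj
      · rwa [Finset.erase_eq_of_notMem hvX] at h1

end

end Pool.Agent.Helper20.HalfP
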