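import Mathlib
import Pool.Agent.Helper20.HalfE3

/-!
HB4: the random subgraph of a `d`-degenerate graph has small chromatic number.
-/

namespace Pool.Agent.Helper20.HalfP

open Finset

private lemma EE_congr' {α : Type} {E : Finset α} {p : ℝ} {f g : Finset α → ℝ}
    (h : ∀ F ⊆ E, f F = g F) : EE E p f = EE E p g := by
  unfold EE
  exact Finset.sum_congr rfl fun F hF => by rw [h F (Finset.mem_powerset.1 hF)]

open Classical in
lemma prob_col {V : Type} [Fintype V] [DecidableEq V] (G : SimpleGraph V) [DecidableRel G.Adj]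
    {r ε : ℝ} (hr0 : 0 < r) (hr1 : r < 1) (hε : 0 ≤ ε) {K2 d m : ℕ}
    (hstar : ∀ (E : Finset (Sym2 V)) (D : ℕ → Finset (Sym2 V)), E.card < d →
      (∀ c < 2 * K2, D c ⊆ E) →
      (∀ c < 2 * K2, ∀ c' < 2 * K2, c ≠ c' → Disjoint (D c) (D c')) →
      EE E r (fun R => if (∀ c < 2 * K2, ¬ Disjoint (D c) R) then (1 : ℝ) else 0) ≤ ε)
    (U : Finset V)
    (hdeg : ∀ S ⊆ U, S.Nonempty → ∃ v ∈ S, (S.filter fun u => G.Adj v u).card < d) :
    EE G.edgeFinset r (fun R => if CanCol (gr R) U (2 * K2 + m) then (0 : ℝ) else 1) ≤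
      (Fintype.card V : ℝ) * ((d : ℝ) * ε) ^ m := by
  obtain ⟨g, B, N, hg, hB, hBU, hgK, hprop, hprob, hN, hcol⟩ :=
    seq (m := m) G hr0 hr1 hε hstar U.card U rfl hdeg
  set E0 := inEdges G U with hE0
  have hE0E : E0 ⊆ G.edgeFinset := Finset.filter_subset _ _
  have hmarg : ∀ M ⊆ U, EE G.edgeFinset r (fun R => if M ⊆ B R then (1 : ℝ) else 0) ≤
      ε ^ M.card := by
    intro M hM
    have h1 : G.edgeFinset = E0 ∪ (G.edgeFinset \ E0) :=
      (Finset.union_sdiff_of_subset hE0E).symm
    have hd : Disjoint E0 (G.edgeFinset \ E0) := Finset.disjoint_sdiff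
    rw [h1, EE_union hd]
    refine le_trans (le_of_eq ?_) (hprob M hM)
    refine EE_congr' fun A hA => ?_
    refine Eq.trans (EE_congr' (g := fun _ => if M ⊆ B A then (1 : ℝ) else 0)
      fun Z hZ => ?_) (EE_const _)
    have h3 : Disjoint Z E0 := hd.symm.mono_left hZ
    have h2 : B (A ∪ Z) = B A := by
      rw [hB (A ∪ Z), hB A, Finset.union_inter_distrib_right,
        Finset.disjoint_iff_inter_eq_empty.1 h3, Finset.union_empty]
    rw [h2]
  have hpt : ∀ R ⊆ G.edgeFinset, (if CanCol (gr R) U (2 * K2 + m) then (0 : ℝ) else 1) ≤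
      ∑ v ∈ U, ∑ M ∈ (N v).powersetCard m, (if M ⊆ B R then (1 : ℝ) else 0) := by
    intro R hR
    have hnn : ∀ v ∈ U, 0 ≤ ∑ M ∈ (N v).powersetCard m, (if M ⊆ B R then (1 : ℝ) else 0) :=
      fun v _ => Finset.sum_nonneg fun M _ => by split_ifs <;> norm_num
    by_cases hc : CanCol (gr R) U (2 * K2 + m)
    · rw [if_pos hc]
      exact Finset.sum_nonneg hnn
    · rw [if_neg hc]
      have hex : ∃ v ∈ B R, m ≤ (N v ∩ B R).card := by
        by_contra hcon
        push Not at hcon
        apply hc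
        have h1 : CanCol (gr R) (B R) m := by
          obtain ⟨f, hf, hf'⟩ := hcol (B R) (hBU R) hcon
          refine ⟨f, hf, fun u hu v hv hadj => hf' u hu v hv ?_⟩
          have := hR (gr_adj.1 hadj).1
          simpa using this
        have h2 : CanCol (gr R) (U \ B R) (2 * K2) := by
          refine ⟨g R, fun v hv => ?_, fun u hu v hv hadj => ?_⟩
          · rw [Finset.mem_sdiff] at hv
            exact hgK R v hv.1 hv.2
          · rw [Finset.mem_sdiff] at hu hv
            exact hprop R hR u hu.1 v hv.1 hu.2 hv.2 (gr_adj.1 hadj).1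
        have h3 := h2.union h1
        rwa [Finset.sdiff_union_of_subset (hBU R)] at h3
      obtain ⟨v, hv, hvm⟩ := hex
      obtain ⟨M, hM, hMc⟩ := Finset.exists_subset_card_eq hvm
      have hvU : v ∈ U := hBU R hv
      calc (1 : ℝ) = (if M ⊆ B R then (1 : ℝ) else 0) := by
            rw [if_pos (hM.trans Finset.inter_subset_right)]
        _ ≤ ∑ M ∈ (N v).powersetCard m, (if M ⊆ B R then (1 : ℝ) else 0) :=
            Finset.single_le_sum (f := fun M => if M ⊆ B R then (1 : ℝ) else 0)
              (fun M _ => by split_ifs <;> norm_num)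
              (Finset.mem_powersetCard.2 ⟨hM.trans Finset.inter_subset_left, hMc⟩)
        _ ≤ _ := Finset.single_le_sum
            (f := fun v => ∑ M ∈ (N v).powersetCard m, (if M ⊆ B R then (1 : ℝ) else 0))
            hnn hvU
  calc EE G.edgeFinset r (fun R => if CanCol (gr R) U (2 * K2 + m) then (0 : ℝ) else 1)
      ≤ EE G.edgeFinset r (fun R => ∑ v ∈ U, ∑ M ∈ (N v).powersetCard m,
          (if M ⊆ B R then (1 : ℝ) else 0)) := EE_mono hr0.le hr1.le hpt
    _ = ∑ v ∈ U, ∑ M ∈ (N v).powersetCard m,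
          EE G.edgeFinset r (fun R => if M ⊆ B R then (1 : ℝ) else 0) := by
        rw [EE_sum]
        exact Finset.sum_congr rfl fun v _ => EE_sum _ _
    _ ≤ ∑ v ∈ U, ((d : ℝ) * ε) ^ m := by
        refine Finset.sum_le_sum fun v hv => ?_
        calc _ ≤ ∑ M ∈ (N v).powersetCard m, ε ^ m := by
              refine Finset.sum_le_sum fun M hM => ?_
              rw [Finset.mem_powersetCard] at hM
              have := hmarg M (hM.1.trans (hN v hv).1)
              rwa [hM.2] at this
          _ = ((N v).card.choose m : ℝ) * ε ^ m := by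
              rw [Finset.sum_const, Finset.card_powersetCard, nsmul_eq_mul]
          _ ≤ (d : ℝ) ^ m * ε ^ m := by
              refine mul_le_mul_of_nonneg_right ?_ (pow_nonneg hε m)
              have h1 : (N v).card.choose m ≤ d ^ m :=
                (Nat.choose_le_pow _ _).trans (Nat.pow_le_pow_left (hN v hv).2 m)
              exact_mod_cast h1
          _ = _ := (mul_pow _ _ _).symm
    _ = (U.card : ℝ) * ((d : ℝ) * ε) ^ m := by rw [Finset.sum_const, nsmul_eq_mul]
    _ ≤ _ := by
        refine mul_le_mul_of_nonneg_right ?_ (by positivity)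
        exact_mod_cast Finset.card_le_univ U

end Pool.Agent.Helper20.HalfP
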