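import Mathlib
import Pool.Agent.Helper20.HalfB

/-!
HB5: with high probability every independent set of the random subgraph induces a graph of small
degeneracy in `G` (Alon, Krivelevich, Sudakov).
-/

namespace Pool.Agent.Helper20.HalfP

open Finset

/-- The bad event: some nonempty `S` is independent in the random subgraph `H`, but all degrees of
`G` inside `S` are at least `2 T`. -/
def BadSet {V : Type} [Fintype V] [DecidableEq V] (G : SimpleGraph V) [DecidableRel G.Adj]
    (T : ℕ) (H : Finset (Sym2 V)) : Prop :=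
  ∃ S : Finset V, S.Nonempty ∧ (∀ v ∈ S, 2 * T ≤ (S.filter fun u => G.Adj v u).card) ∧
    Disjoint (inEdges G S) H

/-- Half of the sum of the degrees inside `S` is the number of edges inside `S`. -/
private lemma hb5_card {V : Type} [Fintype V] [DecidableEq V] (G : SimpleGraph V)
    [DecidableRel G.Adj] (T : ℕ) (S : Finset V)
    (h : ∀ v ∈ S, 2 * T ≤ (S.filter fun u => G.Adj v u).card) :
    T * S.card ≤ (inEdges G S).card := by
  set P : Finset (Σ _ : V, V) := S.sigma fun v => S.filter fun u => G.Adj v u with hP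
  have h1 : S.card * (2 * T) ≤ P.card := by
    rw [hP, Finset.card_sigma, ← smul_eq_mul, ← Finset.sum_const]
    exact Finset.sum_le_sum fun v hv => h v hv
  have h2 : P.card ≤ 2 * (inEdges G S).card := by
    refine Finset.card_le_mul_card_image_of_maps_to (f := fun x : (Σ _ : V, V) => s(x.1, x.2))
      ?_ 2 ?_
    · rintro ⟨v, u⟩ hvu
      rw [hP, Finset.mem_sigma, Finset.mem_filter] at hvu
      rw [inEdges_mem]
      refine ⟨by simpa using hvu.2.2, ?_⟩
      intro w hw
      rw [Sym2.mem_iff] at hw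
      rcases hw with rfl | rfl
      · exact hvu.1
      · exact hvu.2.1
    · intro e _
      induction e using Sym2.ind with
      | _ a b =>
        refine le_trans (Finset.card_le_card (t := {⟨a, b⟩, ⟨b, a⟩}) ?_) Finset.card_le_two
        rintro ⟨v, u⟩ hvu
        have h3 := (Finset.mem_filter.1 hvu).2
        rw [Sym2.eq_iff] at h3
        rw [Finset.mem_insert, Finset.mem_singleton]
        rcases h3 with ⟨rfl, rfl⟩ | ⟨rfl, rfl⟩
        · exact Or.inl rfl
        · exact Or.inr rfl
  have h3 : 2 * (T * S.card) ≤ 2 * (inEdges G S).card := by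
    calc 2 * (T * S.card) = S.card * (2 * T) := by ring
      _ ≤ _ := h1.trans h2
  omega

private lemma hb5_pow (n : ℕ) {x : ℝ} (hx : 0 ≤ x) (hnx : (n : ℝ) * x ≤ 1) :
    (1 + x) ^ n - 1 ≤ 2 * (n * x) := by
  have h1 : (1 + x) ^ n ≤ Real.exp (n * x) := by
    rw [Real.exp_nat_mul]
    refine pow_le_pow_left₀ (by linarith) ?_ n
    have := Real.add_one_le_exp x
    linarith
  have hy : 0 ≤ (n : ℝ) * x := by positivity
  have h2 := Real.abs_exp_sub_one_sub_id_le (x := (n : ℝ) * x) (by rw [abs_of_nonneg hy]; exact hnx)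
  have h3 := (abs_le.1 h2).2
  nlinarith

open Classical in
lemma bad_prob {V : Type} [Fintype V] [DecidableEq V] (G : SimpleGraph V) [DecidableRel G.Adj]
    {q : ℝ} (hq0 : 0 < q) (hq1 : q < 1) (T : ℕ)
    (hT : 2 * (Fintype.card V : ℝ) ^ 2 * (1 - q) ^ T ≤ 1) :
    (Fintype.card V : ℝ) * EE G.edgeFinset q (fun H => if BadSet G T H then (1 : ℝ) else 0)
      ≤ 1 := by
  have h1q : 0 ≤ 1 - q := by linarith
  have h1q' : 1 - q ≤ 1 := by linarith
  set x : ℝ := (1 - q) ^ T with hx
  have hx0 : 0 ≤ x := pow_nonneg h1q T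
  set n : ℕ := Fintype.card V with hn
  set Ss : Finset (Finset V) := (Finset.univ : Finset V).powerset.filter (fun S => S.Nonempty ∧
    ∀ v ∈ S, 2 * T ≤ (S.filter fun u => G.Adj v u).card) with hSs
  have hpt : ∀ F ⊆ G.edgeFinset, (if BadSet G T F then (1 : ℝ) else 0) ≤
      ∑ S ∈ Ss, (if Disjoint (inEdges G S) F then (1 : ℝ) else 0) := by
    intro F _
    by_cases hb : BadSet G T F
    · rw [if_pos hb]
      obtain ⟨S, hS, hdeg, hdis⟩ := hb
      have hmem : S ∈ Ss := by
        rw [hSs, Finset.mem_filter]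
        exact ⟨Finset.mem_powerset.2 (Finset.subset_univ S), hS, hdeg⟩
      have h1 := Finset.single_le_sum
        (f := fun S => if Disjoint (inEdges G S) F then (1 : ℝ) else 0)
        (fun S _ => by positivity) hmem
      simpa [hdis] using h1
    · rw [if_neg hb]
      exact Finset.sum_nonneg fun S _ => by positivity
  have h1 := EE_mono (E := G.edgeFinset) hq0.le hq1.le hpt
  rw [EE_sum] at h1
  have h2 : ∑ S ∈ Ss, EE G.edgeFinset q
      (fun F => if Disjoint (inEdges G S) F then (1 : ℝ) else 0) ≤ (1 + x) ^ n - 1 := by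
    have h20 : ∑ S ∈ Ss, EE G.edgeFinset q
        (fun F => if Disjoint (inEdges G S) F then (1 : ℝ) else 0) ≤ ∑ S ∈ Ss, x ^ S.card := by
      refine Finset.sum_le_sum fun S hS => ?_
      rw [EE_disj (E := G.edgeFinset) (p := q) (D := inEdges G S) (Finset.filter_subset _ _),
        hx, ← pow_mul]
      exact pow_le_pow_of_le_one h1q h1q' (hb5_card G T S (Finset.mem_filter.1 hS).2.2)
    have h21 : ∑ S ∈ Ss, x ^ S.card ≤
        ∑ S ∈ (Finset.univ : Finset V).powerset.erase ∅, x ^ S.card := by
      refine Finset.sum_le_sum_of_subset_of_nonneg ?_ fun S _ _ => pow_nonneg hx0 _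
      intro S hS
      rw [hSs, Finset.mem_filter] at hS
      exact Finset.mem_erase.2 ⟨hS.2.1.ne_empty, hS.1⟩
    have h22 : ∑ S ∈ (Finset.univ : Finset V).powerset, x ^ S.card = (1 + x) ^ n := by
      have h3 := Finset.sum_pow_mul_eq_add_pow x 1 (Finset.univ : Finset V)
      simp only [one_pow, mul_one] at h3
      rw [h3, add_comm, hn, Finset.card_univ]
    have h23 := Finset.add_sum_erase (Finset.univ : Finset V).powerset (fun S => x ^ S.card)
      (Finset.empty_mem_powerset _)
    rw [h22] at h23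
    simp only [Finset.card_empty, pow_zero] at h23
    linarith
  have h3 : EE G.edgeFinset q (fun H => if BadSet G T H then (1 : ℝ) else 0) ≤
      (1 + x) ^ n - 1 := h1.trans h2
  rcases Nat.eq_zero_or_pos n with h0 | hpos
  · rw [h0]
    simp
  · have hn1 : (1 : ℝ) ≤ n := by exact_mod_cast hpos
    have hnx : (n : ℝ) * x ≤ 1 := by nlinarith [mul_nonneg (by linarith : (0 : ℝ) ≤ n) hx0]
    have h4 := hb5_pow n hx0 hnx
    have h5 : (n : ℝ) * EE G.edgeFinset q (fun H => if BadSet G T H then (1 : ℝ) else 0) ≤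
        n * (2 * (n * x)) := mul_le_mul_of_nonneg_left (h3.trans h4) (by linarith)
    refine h5.trans (le_trans (le_of_eq ?_) hT)
    ring

end Pool.Agent.Helper20.HalfP
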