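import Mathlib

/-!
HB7: numbers for the general bound. (helper97)
-/

namespace Pool.Agent.Helper20.HalfP

open Filter Topology

private lemma grow (A : ℝ) : ∃ s0 : ℕ, ∀ s lam : ℕ, s0 ≤ s → lam ≤ 2 * s + 1 →
    ((lam : ℝ) + 1) * (A + 2 * ((lam : ℝ) + 1)) ≤ 4 * 2 ^ s := by
  have h1 := tendsto_pow_const_div_const_pow_of_one_lt 2 (one_lt_two (α := ℝ))
  have h2 : ∀ᶠ s : ℕ in atTop, ((s : ℝ) ^ 2 / 2 ^ s) < 1 / (|A| + 8) :=
    h1.eventually_lt_const (by positivity)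
  obtain ⟨s1, hs1⟩ := eventually_atTop.1 h2
  refine ⟨max s1 1, fun s lam hs hlam => ?_⟩
  have h3 := hs1 s ((le_max_left _ _).trans hs)
  have hs1' : (1 : ℝ) ≤ s := by exact_mod_cast (le_max_right s1 1).trans hs
  have h4 : (lam : ℝ) ≤ 2 * s + 1 := by exact_mod_cast hlam
  have h5 : (0 : ℝ) ≤ lam := Nat.cast_nonneg _
  have h6 : (lam : ℝ) + 1 ≤ 4 * s := by linarith
  have h7 : A + 2 * ((lam : ℝ) + 1) ≤ (|A| + 8) * s := by
    have h8 : |A| * 1 ≤ |A| * s := mul_le_mul_of_nonneg_left hs1' (abs_nonneg _)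
    have := le_abs_self A
    nlinarith
  have h9 : (0 : ℝ) < 2 ^ s := by positivity
  have h10 : (s : ℝ) ^ 2 * (|A| + 8) ≤ 2 ^ s := by
    rw [div_lt_div_iff₀ h9 (by positivity)] at h3
    linarith
  calc ((lam : ℝ) + 1) * (A + 2 * ((lam : ℝ) + 1))
      ≤ ((lam : ℝ) + 1) * ((|A| + 8) * s) := mul_le_mul_of_nonneg_left h7 (by positivity)
    _ ≤ (4 * s) * ((|A| + 8) * s) := mul_le_mul_of_nonneg_right h6 (by positivity)
    _ = 4 * ((s : ℝ) ^ 2 * (|A| + 8)) := by ring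
    _ ≤ 4 * 2 ^ s := by linarith

/-- `κ`, `ρ` depend on `p` only. `X = log_2 n + 2`, `T = κ (2 X)` is half of the degeneracy. -/
lemma numbers {r : ℝ} (hr0 : 0 < r) (hr1 : r < 1) (κ : ℕ) (hκ : 0 < κ) :
    ∃ C : ℝ, 0 < C ∧ ∃ n0 : ℕ, ∀ n : ℕ, n0 ≤ n → ∃ K2 h : ℕ,
      4 * κ * (Nat.log 2 n + 2) < (K2 + 1) * (h + 1) ∧
      (n : ℝ) ^ 2 * (((4 * κ * (Nat.log 2 n + 2) : ℕ) : ℝ) * (1 - (1 - r) ^ h) ^ K2) ^ K2 ≤ 1 ∧
      (3 * K2 : ℝ) ≤ C * (Real.log n / Real.log (Real.log n)) := by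
  obtain ⟨ρ, hρ⟩ : ∃ ρ : ℕ, (1 / 2 : ℝ) ^ ρ < 1 - r :=
    exists_pow_lt_of_lt_one (by linarith) (by norm_num)
  have hρ0 : 0 < ρ := by
    rcases Nat.eq_zero_or_pos ρ with h | h
    · rw [h, pow_zero] at hρ
      linarith
    · exact h
  obtain ⟨A, hA⟩ : ∃ A : ℝ, A = Real.log (4 * κ) := ⟨_, rfl⟩
  obtain ⟨s0, hs0⟩ := grow A
  have hκ1 : (1 : ℝ) ≤ κ := by exact_mod_cast hκ
  have hρ1 : (1 : ℝ) ≤ ρ := by exact_mod_cast hρ0
  refine ⟨72 * κ * ρ + 3, by positivity, max 16 (2 ^ (2 ^ (2 * s0))), fun n hn => ?_⟩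
  have hn16 : 16 ≤ n := (le_max_left _ _).trans hn
  have hn1 : 2 ^ (2 ^ (2 * s0)) ≤ n := (le_max_right _ _).trans hn
  obtain ⟨L, hL⟩ : ∃ L, L = Nat.log 2 n := ⟨_, rfl⟩
  obtain ⟨X, hX⟩ : ∃ X, X = L + 2 := ⟨_, rfl⟩
  obtain ⟨lam, hlam⟩ : ∃ lam, lam = Nat.log 2 X := ⟨_, rfl⟩
  obtain ⟨s, hs⟩ : ∃ s, s = lam / 2 := ⟨_, rfl⟩
  obtain ⟨h, hh⟩ : ∃ h, h = s / ρ := ⟨_, rfl⟩
  obtain ⟨d, hd⟩ : ∃ d, d = 4 * κ * X := ⟨_, rfl⟩
  obtain ⟨K, hK⟩ : ∃ K, K = d / (h + 1) + 1 := ⟨_, rfl⟩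
  have hX0 : X ≠ 0 := by omega
  have hn0 : n ≠ 0 := by omega
  -- sizes
  have hLs : 2 ^ (2 * s0) ≤ L := by
    rw [hL]
    exact Nat.le_log_of_pow_le one_lt_two hn1
  have hlams : 2 * s0 ≤ lam := by
    rw [hlam]
    exact Nat.le_log_of_pow_le one_lt_two (by omega)
  have hss : s0 ≤ s := by omega
  have hgrow := hs0 s lam hss (by omega)
  have hdK : d < (h + 1) * K := by
    rw [hK]
    exact Nat.lt_mul_div_succ d (by omega)
  have hρh : ρ * h ≤ s := by
    rw [hh]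
    exact Nat.mul_div_le s ρ
  have hhl : h ≤ lam := by
    have : h ≤ ρ * h := Nat.le_mul_of_pos_left h hρ0
    omega
  have hXlt : X < 2 ^ (lam + 1) := by
    rw [hlam]
    exact Nat.lt_pow_succ_log_self one_lt_two X
  have hXge : 2 ^ lam ≤ X := by
    rw [hlam]
    exact Nat.pow_log_le_self 2 hX0
  have hnlt : n < 2 ^ (L + 1) := by
    rw [hL]
    exact Nat.lt_pow_succ_log_self one_lt_two n
  have hnge : 2 ^ L ≤ n := by
    rw [hL]
    exact Nat.pow_log_le_self 2 hn0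
  have h2e : (2 : ℝ) ≤ Real.exp 1 := by
    have := Real.add_one_le_exp (1 : ℝ)
    linarith
  have hpow : ∀ m : ℕ, (2 : ℝ) ^ m ≤ Real.exp m := by
    intro m
    calc (2 : ℝ) ^ m ≤ (Real.exp 1) ^ m := pow_le_pow_left₀ (by norm_num) h2e m
      _ = Real.exp m := by rw [← Real.exp_nat_mul, mul_one]
  -- real forms
  have hdX : (d : ℝ) = 4 * κ * X := by rw [hd]; push_cast; ring
  have hX0' : (0 : ℝ) < X := by exact_mod_cast Nat.pos_of_ne_zero hX0
  have h4X : 4 * (X : ℝ) ≤ d := by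
    rw [hdX]
    nlinarith
  have hl0 : (0 : ℝ) < (lam : ℝ) + 1 := by positivity
  have hKl : (d : ℝ) ≤ K * ((lam : ℝ) + 1) := by
    have h1 : d ≤ K * (lam + 1) := by
      calc d ≤ (h + 1) * K := hdK.le
        _ ≤ (lam + 1) * K := Nat.mul_le_mul_right _ (by omega)
        _ = K * (lam + 1) := Nat.mul_comm _ _
    exact_mod_cast h1
  refine ⟨K, h, ?_, ?_, ?_⟩
  · rw [← hL, ← hX, ← hd]
    calc d < (h + 1) * K := hdK
      _ = K * (h + 1) := Nat.mul_comm _ _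
      _ ≤ (K + 1) * (h + 1) := Nat.mul_le_mul_right _ (by omega)
  · rw [← hL, ← hX, ← hd]
    obtain ⟨a, ha⟩ : ∃ a : ℝ, a = (1 - r) ^ h := ⟨_, rfl⟩
    rw [← ha]
    have ha0 : 0 < a := by rw [ha]; exact pow_pos (by linarith) _
    have ha1 : a ≤ 1 := by rw [ha]; exact pow_le_one₀ (by linarith) (by linarith)
    have has : (1 / 2 : ℝ) ^ s ≤ a := by
      calc (1 / 2 : ℝ) ^ s ≤ (1 / 2 : ℝ) ^ (ρ * h) :=
            pow_le_pow_of_le_one (by norm_num) (by norm_num) hρh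
        _ = ((1 / 2 : ℝ) ^ ρ) ^ h := by rw [pow_mul]
        _ ≤ (1 - r) ^ h := pow_le_pow_left₀ (by positivity) hρ.le _
        _ = a := ha.symm
    have hs2 : (0 : ℝ) < 2 ^ s := by positivity
    have has' : 1 ≤ a * 2 ^ s := by
      have h1 : (1 / 2 : ℝ) ^ s * 2 ^ s = 1 := by
        rw [← mul_pow]
        norm_num
      calc (1 : ℝ) = (1 / 2 : ℝ) ^ s * 2 ^ s := h1.symm
        _ ≤ a * 2 ^ s := mul_le_mul_of_nonneg_right has hs2.le
    have hXs : (2 : ℝ) ^ s * 2 ^ s ≤ X := by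
      have h1 : 2 ^ s * 2 ^ s ≤ X := by
        calc 2 ^ s * 2 ^ s = 2 ^ (s + s) := (pow_add 2 s s).symm
          _ ≤ 2 ^ lam := Nat.pow_le_pow_right (by norm_num) (by omega)
          _ ≤ X := hXge
      exact_mod_cast h1
    have hKa : A + 2 * ((lam : ℝ) + 1) ≤ K * a := by
      have h1 : 4 * (2 : ℝ) ^ s ≤ (K * a) * ((lam : ℝ) + 1) := by
        have h2 : 4 * ((2 : ℝ) ^ s * 2 ^ s) ≤ K * ((lam : ℝ) + 1) := by linarith
        have h3 : 4 * ((2 : ℝ) ^ s * 2 ^ s) * a ≤ K * ((lam : ℝ) + 1) * a :=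
          mul_le_mul_of_nonneg_right h2 ha0.le
        have h4 : 4 * (2 : ℝ) ^ s * 1 ≤ 4 * (2 : ℝ) ^ s * (a * 2 ^ s) :=
          mul_le_mul_of_nonneg_left has' (by positivity)
        nlinarith
      have h5 : (A + 2 * ((lam : ℝ) + 1)) * ((lam : ℝ) + 1) ≤ (K * a) * ((lam : ℝ) + 1) := by
        linarith
      exact le_of_mul_le_mul_right h5 hl0
    have he : (1 - a) ^ K ≤ Real.exp (-(K * a)) := by
      calc (1 - a) ^ K ≤ (Real.exp (-a)) ^ K :=
            pow_le_pow_left₀ (by linarith) (Real.one_sub_le_exp_neg a) K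
        _ = Real.exp (-(K * a)) := by
            rw [← Real.exp_nat_mul]
            congr 1
            ring
    have hd' : (d : ℝ) ≤ Real.exp (A + ((lam : ℝ) + 1)) := by
      have h1 : (X : ℝ) ≤ 2 ^ (lam + 1) := by exact_mod_cast hXlt.le
      have h2 := hpow (lam + 1)
      rw [Real.exp_add, hA, Real.exp_log (by positivity), hdX]
      have h3 : (X : ℝ) ≤ Real.exp ((lam : ℝ) + 1) := by
        refine h1.trans (h2.trans (le_of_eq ?_))
        push_cast
        rfl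
      exact mul_le_mul_of_nonneg_left h3 (by positivity)
    have hde : (d : ℝ) * (1 - a) ^ K ≤ Real.exp (-((lam : ℝ) + 1)) := by
      calc (d : ℝ) * (1 - a) ^ K ≤ Real.exp (A + ((lam : ℝ) + 1)) * Real.exp (-(K * a)) :=
            mul_le_mul hd' he (pow_nonneg (by linarith) _) (Real.exp_pos _).le
        _ = Real.exp (A + ((lam : ℝ) + 1) + -(K * a)) := (Real.exp_add _ _).symm
        _ ≤ Real.exp (-((lam : ℝ) + 1)) := by
            apply Real.exp_le_exp.2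
            linarith
    have hpowK : ((d : ℝ) * (1 - a) ^ K) ^ K ≤ Real.exp (-(K * ((lam : ℝ) + 1))) := by
      calc ((d : ℝ) * (1 - a) ^ K) ^ K ≤ (Real.exp (-((lam : ℝ) + 1))) ^ K :=
            pow_le_pow_left₀ (mul_nonneg (Nat.cast_nonneg _) (pow_nonneg (by linarith) _)) hde K
        _ = Real.exp (-(K * ((lam : ℝ) + 1))) := by
            rw [← Real.exp_nat_mul]
            congr 1
            ring
    have hn2 : (n : ℝ) ^ 2 ≤ Real.exp (2 * X) := by
      have h1 : (n : ℝ) ≤ Real.exp X := by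
        have h2 : (n : ℝ) ≤ 2 ^ (L + 1) := by exact_mod_cast hnlt.le
        refine h2.trans ((hpow (L + 1)).trans (Real.exp_le_exp.2 ?_))
        rw [hX]
        push_cast
        linarith
      calc (n : ℝ) ^ 2 ≤ (Real.exp X) ^ 2 := pow_le_pow_left₀ (Nat.cast_nonneg _) h1 2
        _ = Real.exp (2 * X) := by rw [← Real.exp_nat_mul]; norm_num
    calc (n : ℝ) ^ 2 * ((d : ℝ) * (1 - a) ^ K) ^ K
        ≤ Real.exp (2 * X) * Real.exp (-(K * ((lam : ℝ) + 1))) :=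
          mul_le_mul hn2 hpowK (pow_nonneg (mul_nonneg (Nat.cast_nonneg _)
            (pow_nonneg (by linarith) _)) _) (Real.exp_pos _).le
      _ = Real.exp (2 * X + -(K * ((lam : ℝ) + 1))) := (Real.exp_add _ _).symm
      _ ≤ Real.exp 0 := by
          apply Real.exp_le_exp.2
          linarith
      _ = 1 := Real.exp_zero
  · -- the size of `K`
    have hn' : (16 : ℝ) ≤ n := by exact_mod_cast hn16
    have hnpos : (0 : ℝ) < n := by linarith
    have hlog2 : Real.log 16 ≤ Real.log n := Real.log_le_log (by norm_num) hn'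
    have h16 : Real.log 16 = 4 * Real.log 2 := by
      rw [show (16 : ℝ) = 2 ^ 4 by norm_num, Real.log_pow]
      norm_num
    have hl2 := Real.log_two_gt_d9
    have hl2' := Real.log_two_lt_d9
    have hlogn : (2.7 : ℝ) ≤ Real.log n := by
      rw [h16] at hlog2
      linarith
    have hlogn0 : 0 < Real.log n := by linarith
    have hll0 : 0 < Real.log (Real.log n) := Real.log_pos (by linarith)
    have hlln : Real.log (Real.log n) ≤ Real.log n :=
      (Real.log_le_sub_one_of_pos hlogn0).trans (by linarith)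
    have hll : Real.log (Real.log n) ≤ (lam : ℝ) + 1 := by
      have h1 : Real.log n ≤ X := by
        have h2 : (n : ℝ) ≤ 2 ^ (L + 1) := by exact_mod_cast hnlt.le
        have h3 := Real.log_le_log hnpos (h2.trans (hpow (L + 1)))
        rw [Real.log_exp] at h3
        rw [hX]
        push_cast at h3 ⊢
        linarith
      have h4 : (X : ℝ) ≤ 2 ^ (lam + 1) := by exact_mod_cast hXlt.le
      have h5 := Real.log_le_log hlogn0 ((h1.trans h4).trans (hpow (lam + 1)))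
      rw [Real.log_exp] at h5
      push_cast at h5
      exact h5
    have hXn : (X : ℝ) ≤ 3 * Real.log n := by
      have h1 : (2 : ℝ) ^ L ≤ n := by exact_mod_cast hnge
      have h2 := Real.log_le_log (by positivity) h1
      rw [Real.log_pow] at h2
      rw [hX]
      push_cast
      have h3 : (0 : ℝ) ≤ L := Nat.cast_nonneg _
      nlinarith
    have hhρ : ((lam : ℝ) + 1) ≤ 2 * ρ * ((h : ℝ) + 1) := by
      have h1 : s < ρ * (h + 1) := by
        rw [hh]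
        exact Nat.lt_mul_div_succ s hρ0
      have h2 : lam + 1 ≤ 2 * (ρ * (h + 1)) := by omega
      have h3 : ((lam + 1 : ℕ) : ℝ) ≤ ((2 * (ρ * (h + 1)) : ℕ) : ℝ) := by exact_mod_cast h2
      push_cast at h3
      linarith
    have hKd : (K : ℝ) ≤ d / ((h : ℝ) + 1) + 1 := by
      rw [hK]
      push_cast
      have := @Nat.cast_div_le ℝ _ _ _ d (h + 1)
      push_cast at this
      linarith
    have hh0 : (0 : ℝ) < (h : ℝ) + 1 := by positivity
    have h6 : (d : ℝ) / ((h : ℝ) + 1) ≤ 24 * κ * ρ * (Real.log n / Real.log (Real.log n)) := by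
      rw [div_le_iff₀ hh0, mul_div_assoc', div_mul_eq_mul_div, le_div_iff₀ hll0]
      calc (d : ℝ) * Real.log (Real.log n) ≤ (4 * κ * (3 * Real.log n)) * (2 * ρ * ((h : ℝ) + 1)) := by
            apply mul_le_mul _ (hll.trans hhρ) hll0.le (by positivity)
            rw [hdX]
            exact mul_le_mul_of_nonneg_left hXn (by positivity)
        _ = 24 * κ * ρ * Real.log n * ((h : ℝ) + 1) := by ring
    have h7 : 1 ≤ Real.log n / Real.log (Real.log n) := (one_le_div hll0).2 hlln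
    calc (3 * K : ℝ) ≤ 3 * (24 * κ * ρ * (Real.log n / Real.log (Real.log n)) + 1) := by linarith
      _ ≤ (72 * κ * ρ + 3) * (Real.log n / Real.log (Real.log n)) := by nlinarith

end Pool.Agent.Helper20.HalfP
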