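import Mathlib
import Pool.Agent.Helper20.HalfD
import Pool.Agent.Helper20.HalfE4
import Pool.Agent.Helper20.HalfE1b
import Pool.Agent.Helper20.HalfE5
import Pool.Agent.Helper20.HalfE7

/-!
Assembly: halving the edge probability costs at most a factor of order `log n / log log n`.
-/

namespace Pool.Agent.Helper20.HalfP

open Finset

section

variable {V : Type} [Fintype V] [DecidableEq V] (G : SimpleGraph V) [DecidableRel G.Adj]

lemma canCol_biUnion {H : SimpleGraph V} (S : ℕ → Finset V) (c : ℕ → ℕ) (s : Finset ℕ)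
    (h : ∀ i ∈ s, CanCol H (S i) (c i)) : CanCol H (s.biUnion S) (∑ i ∈ s, c i) := by
  induction s using Finset.induction_on with
  | empty => exact ⟨fun _ => 0, by simp, by simp⟩
  | insert a s ha ih =>
    rw [Finset.biUnion_insert, Finset.sum_insert ha]
    exact (h a (Finset.mem_insert_self _ _)).union
      (ih fun i hi => h i (Finset.mem_insert_of_mem hi))

lemma one_le_EChi {q : ℝ} (hq0 : 0 < q) (hq1 : q < 1) (hV : 0 < Fintype.card V) :
    1 ≤ EChi G q := by
  obtain ⟨v⟩ := Fintype.card_pos_iff.1 hV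
  have h1 : EE G.edgeFinset q (fun _ => (1 : ℝ)) ≤ EChi G q := by
    refine EE_mono hq0.le hq1.le fun F _ => ?_
    obtain ⟨f, hf, _⟩ := chi_canCol (gr F)
    have h2 := hf v (Finset.mem_univ v)
    have h3 : 1 ≤ chi (gr F) := by omega
    exact_mod_cast h3
  rwa [EE_const] at h1

open Classical in
lemma main_ineq {p q r ε : ℝ} (hq0 : 0 < q) (hq1 : q < 1) (hr0 : 0 < r) (hr1 : r < 1)
    (hpqr : q + r - q * r = p) (hε : 0 ≤ ε) {K2 T m : ℕ}
    (hstar : ∀ (E : Finset (Sym2 V)) (D : ℕ → Finset (Sym2 V)), E.card < 2 * T →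
      (∀ c < 2 * K2, D c ⊆ E) →
      (∀ c < 2 * K2, ∀ c' < 2 * K2, c ≠ c' → Disjoint (D c) (D c')) →
      EE E r (fun R => if (∀ c < 2 * K2, ¬ Disjoint (D c) R) then (1 : ℝ) else 0) ≤ ε)
    (hT : 2 * (Fintype.card V : ℝ) ^ 2 * (1 - q) ^ T ≤ 1)
    (hnum : (Fintype.card V : ℝ) ^ 2 * (((2 * T : ℕ) : ℝ) * ε) ^ m ≤ 1)
    (hV : 0 < Fintype.card V) :
    EChi G p ≤ (2 * K2 + m + 2) * EChi G q := by
  set n := Fintype.card V with hn
  have htriv : ∀ F : Finset (Sym2 V), (chi (gr F) : ℝ) ≤ n := by
    intro F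
    have h1 := (CanCol.card (H := gr F) (Finset.univ : Finset V)).chi_le
    exact_mod_cast h1
  have hpt : ∀ H ⊆ G.edgeFinset, EE G.edgeFinset r (fun R => (chi (gr (H ∪ R)) : ℝ)) ≤
      (2 * K2 + m + 1) * (chi (gr H) : ℝ) + n * (if BadSet G T H then (1 : ℝ) else 0) := by
    intro H hH
    by_cases hbad : BadSet G T H
    · rw [if_pos hbad]
      have h1 : EE G.edgeFinset r (fun R => (chi (gr (H ∪ R)) : ℝ)) ≤
          EE G.edgeFinset r (fun _ => (n : ℝ)) := EE_mono hr0.le hr1.le fun R _ => htriv _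
      rw [EE_const] at h1
      have h2 : (0 : ℝ) ≤ (2 * K2 + m + 1) * (chi (gr H) : ℝ) := by positivity
      linarith
    · rw [if_neg hbad, mul_zero, add_zero]
      obtain ⟨f, hf, hf'⟩ := chi_canCol (gr H)
      set k := chi (gr H) with hk
      set S : ℕ → Finset V := fun i => Finset.univ.filter fun v => f v = i with hS
      have hdeg : ∀ i, ∀ S' ⊆ S i, S'.Nonempty →
          ∃ v ∈ S', (S'.filter fun u => G.Adj v u).card < 2 * T := by
        intro i S' hS' hne
        by_contra hcon
        push Not at hcon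
        refine hbad ⟨S', hne, hcon, ?_⟩
        rw [Finset.disjoint_left]
        intro e he heH
        induction e using Sym2.ind with
        | _ u v =>
          rw [inEdges_mem] at he
          have hadj : G.Adj u v := by simpa using he.1
          have hu := (Finset.mem_filter.1 (hS' (he.2 u (by simp)))).2
          have hv := (Finset.mem_filter.1 (hS' (he.2 v (by simp)))).2
          exact hf' u (Finset.mem_univ u) v (Finset.mem_univ v)
            (gr_adj.2 ⟨heH, hadj.ne⟩) (hu.trans hv.symm)
      have hR : ∀ R ⊆ G.edgeFinset, (chi (gr (H ∪ R)) : ℝ) ≤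
          ∑ i ∈ Finset.range k, ((2 * K2 + m : ℕ) + (n : ℝ) *
            (if CanCol (gr R) (S i) (2 * K2 + m) then (0 : ℝ) else 1)) := by
        intro R _
        have h1 := canCol_biUnion (H := gr (H ∪ R)) S
          (fun i => if CanCol (gr R) (S i) (2 * K2 + m) then 2 * K2 + m else n)
          (Finset.range k) (by
            intro i _
            split_ifs with hc
            · obtain ⟨g, hg, hg'⟩ := hc
              refine ⟨g, hg, fun u hu v hv hadj => hg' u hu v hv ?_⟩
              rw [gr_adj, Finset.mem_union] at hadj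
              obtain ⟨h2 | h2, h3⟩ := hadj
              · exact absurd ((Finset.mem_filter.1 hu).2.trans (Finset.mem_filter.1 hv).2.symm)
                  (hf' u (Finset.mem_univ u) v (Finset.mem_univ v) (gr_adj.2 ⟨h2, h3⟩))
              · exact gr_adj.2 ⟨h2, h3⟩
            · have h2 := (CanCol.card (H := gr (H ∪ R)) (Finset.univ : Finset V)).mono
                (Finset.subset_univ (S i))
              rwa [Finset.card_univ] at h2)
        have h2 : (Finset.range k).biUnion S = Finset.univ := by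
          ext v
          simp only [Finset.mem_biUnion, Finset.mem_range, Finset.mem_univ, iff_true]
          exact ⟨f v, hf v (Finset.mem_univ v), Finset.mem_filter.2 ⟨Finset.mem_univ v, rfl⟩⟩
        rw [h2] at h1
        have h3 : (chi (gr (H ∪ R)) : ℝ) ≤ ((∑ i ∈ Finset.range k,
            (if CanCol (gr R) (S i) (2 * K2 + m) then 2 * K2 + m else n) : ℕ) : ℝ) := by
          exact_mod_cast h1.chi_le
        refine h3.trans ?_
        rw [Nat.cast_sum]
        refine Finset.sum_le_sum fun i _ => ?_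
        split_ifs
        · simp
        · simp only [mul_one]
          have : (0 : ℝ) ≤ ((2 * K2 + m : ℕ) : ℝ) := by positivity
          linarith
      refine (EE_mono hr0.le hr1.le hR).trans ?_
      rw [EE_sum]
      have hi : ∀ i ∈ Finset.range k, EE G.edgeFinset r (fun R => ((2 * K2 + m : ℕ) + (n : ℝ) *
            (if CanCol (gr R) (S i) (2 * K2 + m) then (0 : ℝ) else 1))) ≤ 2 * K2 + m + 1 := by
        intro i _
        rw [EE_add, EE_const, EE_mul]
        have h1 := prob_col G hr0 hr1 hε (m := m) hstar (S i) (hdeg i)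
        rw [← hn] at h1
        set PP := EE G.edgeFinset r
            (fun R => if CanCol (gr R) (S i) (2 * K2 + m) then (0 : ℝ) else 1) with hPP
        have h2 : (n : ℝ) * PP ≤ 1 := by
          have h20 : (n : ℝ) * PP ≤ n * (n * (((2 * T : ℕ) : ℝ) * ε) ^ m) :=
            mul_le_mul_of_nonneg_left h1 (by positivity)
          have h21 : (n : ℝ) * (n * (((2 * T : ℕ) : ℝ) * ε) ^ m) =
            (n : ℝ) ^ 2 * (((2 * T : ℕ) : ℝ) * ε) ^ m := by ring
          linarith
        push_cast
        linarith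
      refine (Finset.sum_le_sum hi).trans ?_
      rw [Finset.sum_const, Finset.card_range, nsmul_eq_mul]
      exact le_of_eq (by ring)
  have h1 := EE_mono (E := G.edgeFinset) hq0.le hq1.le hpt
  rw [EE_sprinkle (f := fun F => (chi (gr F) : ℝ)), hpqr, EE_add, EE_mul, EE_mul] at h1
  have h2 := bad_prob G hq0 hq1 T hT
  have h3 : EE G.edgeFinset p (fun F => (chi (gr F) : ℝ)) = EChi G p := rfl
  have h4 : EE G.edgeFinset q (fun F => (chi (gr F) : ℝ)) = EChi G q := rfl
  rw [h3, h4] at h1
  have h5 : 1 ≤ EChi G q := one_le_EChi G hq0 hq1 hV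
  linarith

end

/-- For every graph on `n >= 3` vertices. -/
theorem general {p : ℝ} (hp0 : 0 < p) (hp1 : p < 1) : ∃ c : ℝ, 0 < c ∧
    ∀ (V : Type) [Fintype V] [DecidableEq V] (G : SimpleGraph V) [DecidableRel G.Adj],
      3 ≤ Fintype.card V →
      c * (Real.log (Real.log (Fintype.card V)) / Real.log (Fintype.card V)) * EChi G p ≤
        EChi G (p / 2) := by
  have hq0 : 0 < p / 2 := by linarith
  have hq1 : p / 2 < 1 := by linarith
  have h1q : 0 < 1 - p / 2 := by linarith
  set r : ℝ := (p / 2) / (1 - p / 2) with hr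
  have hr0 : 0 < r := by positivity
  have hr1 : r < 1 := by
    rw [hr, div_lt_one h1q]
    linarith
  have hpqr : p / 2 + r - p / 2 * r = p := by
    have h1 : r * (1 - p / 2) = p / 2 := div_mul_cancel₀ _ h1q.ne'
    linarith
  obtain ⟨κ, hκ, hκ'⟩ := exists_kappa (a := 1 - p / 2) (by linarith) h1q
  obtain ⟨C, hC, n0, hnum⟩ := numbers hr0 hr1 κ hκ
  refine ⟨1 / (C + 2 + n0), by positivity, ?_⟩
  intro V _ _ G _ hV
  set n := Fintype.card V with hn
  have hnR : (3 : ℝ) ≤ n := by exact_mod_cast hV
  have hlog1 : 1 < Real.log n := by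
    rw [Real.lt_log_iff_exp_lt (by linarith)]
    exact lt_of_lt_of_le Real.exp_one_lt_three hnR
  have hll : 0 < Real.log (Real.log n) := Real.log_pos hlog1
  have hQ : 1 ≤ Real.log n / Real.log (Real.log n) := by
    rw [le_div_iff₀ hll, one_mul]
    have := Real.log_le_sub_one_of_pos (show 0 < Real.log n by linarith)
    linarith
  set Q := Real.log n / Real.log (Real.log n) with hQdef
  have hQinv : Real.log (Real.log n) / Real.log n = Q⁻¹ := by
    rw [hQdef, inv_div]
  have hQ0 : 0 < Q := by linarith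
  have he1 : 1 ≤ EChi G (p / 2) := one_le_EChi G hq0 hq1 (by omega)
  suffices hsuf : EChi G p ≤ (C + 2 + n0) * Q * EChi G (p / 2) by
    rw [hQinv]
    have h1 : 1 / (C + 2 + n0) * Q⁻¹ * EChi G p = EChi G p / ((C + 2 + n0) * Q) := by
      field_simp
    rw [h1, div_le_iff₀ (by positivity)]
    linarith
  have hn0 : (0 : ℝ) ≤ n0 := by positivity
  by_cases hcase : n0 ≤ n
  · obtain ⟨K2, h, hK, hK2, hK3⟩ := hnum n hcase
    set X := Nat.log 2 n + 2 with hX
    have h1 := main_ineq G hq0 hq1 hr0 hr1 hpqr (ε := (1 - (1 - r) ^ h) ^ K2)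
      (by
        have h2 : (1 - r) ^ h ≤ 1 := pow_le_one₀ (by linarith) (by linarith)
        have h3 : 0 ≤ 1 - (1 - r) ^ h := by linarith
        positivity)
      (K2 := K2) (T := 2 * κ * X) (m := K2)
      (by
        intro E D hE hD hdis
        refine star_bound hr0 hr1 E D K2 h hD hdis ?_
        have h2 : 2 * (2 * κ * X) = 4 * κ * X := by ring
        rw [h2] at hE
        omega)
      (by
        rw [← hn]
        have h2 : (1 - p / 2) ^ (2 * κ * X) ≤ (1 / 2) ^ (2 * X) := by
          calc (1 - p / 2) ^ (2 * κ * X) = ((1 - p / 2) ^ κ) ^ (2 * X) := by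
                rw [← pow_mul]
                congr 1
                ring
            _ ≤ (1 / 2) ^ (2 * X) := pow_le_pow_left₀ (by positivity) hκ' _
        have h3 : n < 2 ^ (Nat.log 2 n + 1) := Nat.lt_pow_succ_log_self (by norm_num) n
        have h4 : 2 * n ^ 2 ≤ 2 ^ (2 * X) := by
          have h5 : n ^ 2 ≤ (2 ^ (Nat.log 2 n + 1)) ^ 2 := Nat.pow_le_pow_left h3.le 2
          have h6 : 2 ^ (2 * X) = 4 * (2 ^ (Nat.log 2 n + 1)) ^ 2 := by
            rw [← pow_mul, show (4 : ℕ) = 2 ^ 2 by norm_num, ← pow_add]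
            congr 1
            rw [hX]
            ring
          rw [h6]
          nlinarith
        have h7 : 2 * (n : ℝ) ^ 2 ≤ 2 ^ (2 * X) := by exact_mod_cast h4
        calc 2 * (n : ℝ) ^ 2 * (1 - p / 2) ^ (2 * κ * X)
            ≤ 2 ^ (2 * X) * (1 / 2) ^ (2 * X) := by
              apply mul_le_mul h7 h2 (by positivity) (by positivity)
          _ = 1 := by
              rw [← mul_pow]
              norm_num)
      (by
        rw [← hn]
        have h2 : 2 * (2 * κ * X) = 4 * κ * X := by ring
        rw [h2]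
        exact hK2)
      (by omega)
    have h2 : (2 * (K2 : ℝ) + K2 + 2) ≤ (C + 2 + n0) * Q := by
      have h3 : (3 * (K2 : ℝ)) ≤ C * Q := hK3
      nlinarith
    calc EChi G p ≤ (2 * K2 + K2 + 2) * EChi G (p / 2) := h1
      _ ≤ (C + 2 + n0) * Q * EChi G (p / 2) := mul_le_mul_of_nonneg_right h2 (by linarith)
  · have h1 : EChi G p ≤ n := by
      have h2 := EChi_le G hp0 hp1 (CanCol.card (H := G) (Finset.univ : Finset V))
      rwa [Finset.card_univ] at h2
    have h3 : (n : ℝ) ≤ n0 := by
      have : n ≤ n0 := by omega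
      exact_mod_cast this
    have h4 : (n0 : ℝ) ≤ (C + 2 + n0) * Q := by nlinarith
    have h5 : (C + 2 + n0) * Q ≤ (C + 2 + n0) * Q * EChi G (p / 2) :=
      le_mul_of_one_le_right (by positivity) he1
    linarith

end Pool.Agent.Helper20.HalfP
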