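import Mathlib

/-!
Numbers for degenerate graphs.
-/

namespace Pool.Agent.Helper20.HalfP

private lemma num_expD :
    ∃ U : ℕ, 1 ≤ U ∧ ∀ u : ℕ, U ≤ u → (2 * (u : ℝ) + 1) * (3 * (2 * u + 1)) ≤ 2 ^ u := by
  have h1 := tendsto_pow_const_div_const_pow_of_one_lt 2 (one_lt_two : (1 : ℝ) < 2)
  have h2 : (0 : ℝ) < 1 / 27 := by norm_num
  obtain ⟨U, hU⟩ := Filter.eventually_atTop.1 (h1.eventually (gt_mem_nhds h2))
  refine ⟨max U 1, le_max_right _ _, fun u hu => ?_⟩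
  have h3 := hU u ((le_max_left _ _).trans hu)
  have hu1 : (1 : ℝ) ≤ u := by exact_mod_cast (le_max_right _ _).trans hu
  rw [div_lt_div_iff₀ (by positivity) (by positivity)] at h3
  nlinarith

/-- Numbers for the upper bound for `D`-degenerate graphs on `n ≤ exp D` vertices. -/
lemma numbersD {r : ℝ} (hr0 : 0 < r) (hr1 : r < 1) :
    ∃ C : ℝ, 0 < C ∧ ∃ D0 : ℕ, ∀ D n : ℕ, D0 ≤ D → Real.log n ≤ D → ∃ K2 h : ℕ,
      D < (K2 + 1) * (h + 1) ∧
      (n : ℝ) ^ 2 * ((D : ℝ) * (1 - (1 - r) ^ h) ^ K2) ^ K2 ≤ 1 ∧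
      (3 * K2 : ℝ) ≤ C * (D / Real.log D) := by
  -- `ρ`
  obtain ⟨ρ, hρ1, hρ⟩ : ∃ ρ : ℕ, 1 ≤ ρ ∧ (2⁻¹ : ℝ) ^ ρ ≤ 1 - r := by
    obtain ⟨N, hN⟩ := exists_pow_lt_of_lt_one (sub_pos.2 hr1) (by norm_num : (2⁻¹ : ℝ) < 1)
    refine ⟨N + 1, by omega, ?_⟩
    refine le_trans ?_ hN.le
    rw [pow_succ]
    have : (0 : ℝ) ≤ 2⁻¹ ^ N := by positivity
    nlinarith
  obtain ⟨U, hU1, hU⟩ := num_expD
  have hρ1' : (1 : ℝ) ≤ ρ := by exact_mod_cast hρ1
  refine ⟨3 * (2 * ρ + 1), by positivity, 2 ^ (2 * U), fun X n hX hn => ?_⟩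
  have hX4 : 4 ≤ X := by
    refine le_trans ?_ hX
    calc 4 = 2 ^ 2 := by norm_num
      _ ≤ 2 ^ (2 * U) := Nat.pow_le_pow_right (by norm_num) (by omega)
  have hX0 : X ≠ 0 := by omega
  obtain ⟨lam, hlam⟩ : ∃ lam : ℕ, lam = Nat.log 2 X := ⟨_, rfl⟩
  have hlamU : 2 * U ≤ lam := by
    rw [hlam]
    exact (Nat.le_log_iff_pow_le (by norm_num) hX0).2 hX
  have hXlam : 2 ^ lam ≤ X := by rw [hlam]; exact Nat.pow_log_le_self 2 hX0
  have hXlam2 : X < 2 ^ (lam + 1) := by rw [hlam]; exact Nat.lt_pow_succ_log_self (by norm_num) X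
  obtain ⟨s, hs⟩ : ∃ s : ℕ, s = lam / 2 := ⟨_, rfl⟩
  obtain ⟨h, hh⟩ : ∃ h : ℕ, h = s / ρ := ⟨_, rfl⟩
  obtain ⟨q, hq⟩ : ∃ q : ℕ, q = X / (h + 1) := ⟨_, rfl⟩
  have hhs : h * ρ ≤ s := by rw [hh]; exact Nat.div_mul_le_self s ρ
  have hsh : s < (h + 1) * ρ := by
    rw [hh]; exact Nat.lt_mul_of_div_lt (Nat.lt_succ_self _) (by omega)
  have hq1 : X < (q + 1) * (h + 1) := by
    rw [hq]; exact Nat.lt_mul_of_div_lt (Nat.lt_succ_self _) (by omega)
  have hq2 : q * (h + 1) ≤ X := by rw [hq]; exact Nat.div_mul_le_self _ _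
  -- real versions
  have hlog2 : Real.log 2 ≤ 1 := by
    have := Real.log_two_lt_d9; linarith
  have hXR : (0 : ℝ) < X := by exact_mod_cast Nat.pos_of_ne_zero hX0
  have hX4R : (4 : ℝ) ≤ X := by exact_mod_cast hX4
  have hlogX : Real.log X ≤ lam + 1 := by
    have h1 : (X : ℝ) ≤ 2 ^ (lam + 1) := by exact_mod_cast hXlam2.le
    have h2 := Real.log_le_log hXR h1
    rw [Real.log_pow] at h2
    push_cast at h2
    have h3 : (0 : ℝ) ≤ (lam : ℝ) + 1 := by positivity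
    nlinarith
  have hlogX0 : 0 < Real.log X := Real.log_pos (by linarith)
  have hlogX2 : Real.log X ≤ X := by
    have := Real.log_le_sub_one_of_pos hXR
    linarith
  refine ⟨q + 1, h, ?_, ?_, ?_⟩
  · calc X < (q + 1) * (h + 1) := hq1
      _ ≤ (q + 1 + 1) * (h + 1) := Nat.mul_le_mul_right _ (by omega)
  · -- second
    obtain ⟨K, hK⟩ : ∃ K : ℕ, K = q + 1 := ⟨_, rfl⟩
    rw [← hK]
    have hKR : (X : ℝ) < K * (lam + 1) := by
      have h1 : (X : ℝ) < K * (h + 1) := by rw [hK]; exact_mod_cast hq1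
      have h2 : (h : ℝ) ≤ lam := by
        have h3 : h ≤ lam := by
          rw [hh]; exact (Nat.div_le_self _ _).trans (by rw [hs]; exact Nat.div_le_self _ _)
        exact_mod_cast h3
      have h4 : (K : ℝ) * (h + 1) ≤ K * (lam + 1) :=
        mul_le_mul_of_nonneg_left (by linarith) (by positivity)
      linarith
    -- `(1 - r)^h ≥ 2^(-s)`
    have hpow : ((2 : ℝ) ^ s)⁻¹ ≤ (1 - r) ^ h := by
      calc ((2 : ℝ) ^ s)⁻¹ ≤ ((2 : ℝ) ^ (h * ρ))⁻¹ := by
            apply inv_anti₀ (by positivity)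
            exact pow_le_pow_right₀ (by norm_num) hhs
        _ = (2⁻¹ ^ ρ) ^ h := by rw [← inv_pow, mul_comm h ρ, pow_mul]
        _ ≤ (1 - r) ^ h := pow_le_pow_left₀ (by positivity) hρ h
    have hε1 : 1 - (1 - r) ^ h ≤ Real.exp (-((2 : ℝ) ^ s)⁻¹) := by
      have := Real.add_one_le_exp (-((2 : ℝ) ^ s)⁻¹)
      linarith
    have hε0 : 0 ≤ 1 - (1 - r) ^ h := by
      have : (1 - r) ^ h ≤ 1 := pow_le_one₀ (by linarith) (by linarith)
      linarith
    obtain ⟨u, hu⟩ : ∃ u : ℕ, u = lam - s := ⟨_, rfl⟩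
    have hu2 : lam ≤ 2 * u := by omega
    have hus : u + s = lam := by omega
    have hUu : U ≤ u := by omega
    have hkey := hU u hUu
    -- `K 2^(-s) ≥ 3 (lam + 1)`
    have hK2 : 3 * ((lam : ℝ) + 1) ≤ K * ((2 : ℝ) ^ s)⁻¹ := by
      rw [← div_eq_mul_inv, le_div_iff₀ (by positivity)]
      have h1 : (2 : ℝ) ^ lam ≤ X := by exact_mod_cast hXlam
      rw [← hus, pow_add] at h1
      have h2 : (lam : ℝ) ≤ 2 * u := by exact_mod_cast hu2
      have hs0 : (0 : ℝ) < 2 ^ s := by positivity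
      have h3 : ((lam : ℝ) + 1) * (3 * (lam + 1)) ≤ (2 * (u : ℝ) + 1) * (3 * (2 * u + 1)) := by
        apply mul_le_mul (by linarith) (by linarith) (by positivity) (by positivity)
      have h4 : ((lam : ℝ) + 1) * (3 * ((lam : ℝ) + 1) * 2 ^ s) ≤ (lam + 1) * K := by
        calc ((lam : ℝ) + 1) * (3 * ((lam : ℝ) + 1) * 2 ^ s) =
            (((lam : ℝ) + 1) * (3 * (lam + 1))) * 2 ^ s := by ring
          _ ≤ 2 ^ u * 2 ^ s := mul_le_mul_of_nonneg_right (h3.trans hkey) hs0.le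
          _ ≤ X := h1
          _ ≤ (lam + 1) * K := by linarith
      exact le_of_mul_le_mul_left h4 (by positivity)
    have hD : (X : ℝ) ≤ Real.exp (lam + 1) := by
      calc (X : ℝ) = Real.exp (Real.log X) := (Real.exp_log hXR).symm
        _ ≤ _ := Real.exp_le_exp.2 hlogX
    have hDε : (X : ℝ) * (1 - (1 - r) ^ h) ^ K ≤ Real.exp (-(2 * (lam + 1))) := by
      calc (X : ℝ) * (1 - (1 - r) ^ h) ^ K ≤
          Real.exp (lam + 1) * (Real.exp (-((2 : ℝ) ^ s)⁻¹)) ^ K := by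
            apply mul_le_mul hD (pow_le_pow_left₀ hε0 hε1 K) (by positivity) (by positivity)
        _ = Real.exp (lam + 1 - K * ((2 : ℝ) ^ s)⁻¹) := by
            rw [← Real.exp_nat_mul, ← Real.exp_add]; congr 1; ring
        _ ≤ Real.exp (-(2 * (lam + 1))) := Real.exp_le_exp.2 (by linarith)
    have hn2 : (n : ℝ) ^ 2 ≤ Real.exp (2 * X) := by
      rcases Nat.eq_zero_or_pos n with h0 | h0
      · rw [h0]; simp [Real.exp_nonneg]
      · have hn0 : (0 : ℝ) < n := by exact_mod_cast h0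
        have h1 : (n : ℝ) = Real.exp (Real.log n) := (Real.exp_log hn0).symm
        rw [h1, ← Real.exp_nat_mul]
        apply Real.exp_le_exp.2
        push_cast
        linarith
    calc (n : ℝ) ^ 2 * ((X : ℝ) * (1 - (1 - r) ^ h) ^ K) ^ K ≤
        Real.exp (2 * X) * (Real.exp (-(2 * (lam + 1)))) ^ K := by
          apply mul_le_mul hn2 (pow_le_pow_left₀ (by positivity) hDε K) (by positivity)
            (by positivity)
      _ = Real.exp (2 * X - 2 * (K * (lam + 1))) := by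
          rw [← Real.exp_nat_mul, ← Real.exp_add]; congr 1; ring
      _ ≤ Real.exp 0 := Real.exp_le_exp.2 (by linarith)
      _ = 1 := Real.exp_zero
  · -- third
    have h1 : (lam : ℝ) + 1 ≤ 2 * ρ * (h + 1) := by
      have h2 : lam + 1 ≤ 2 * (h + 1) * ρ := by
        have : lam + 1 ≤ 2 * (s + 1) := by omega
        calc lam + 1 ≤ 2 * (s + 1) := this
          _ ≤ 2 * ((h + 1) * ρ) := Nat.mul_le_mul_left _ hsh
          _ = 2 * (h + 1) * ρ := by ring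
      have h3 : ((lam + 1 : ℕ) : ℝ) ≤ ((2 * (h + 1) * ρ : ℕ) : ℝ) := by exact_mod_cast h2
      push_cast at h3
      linarith
    have h2 : (q : ℝ) * Real.log X ≤ 2 * ρ * X := by
      have h3 : (q : ℝ) * (h + 1) ≤ X := by exact_mod_cast hq2
      have hq0 : (0 : ℝ) ≤ q := by positivity
      have h4 : Real.log X ≤ 2 * ρ * (h + 1) := hlogX.trans h1
      calc (q : ℝ) * Real.log X ≤ q * (2 * ρ * (h + 1)) := mul_le_mul_of_nonneg_left h4 hq0
        _ = 2 * ρ * (q * (h + 1)) := by ring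
        _ ≤ 2 * ρ * X := mul_le_mul_of_nonneg_left h3 (by positivity)
    rw [mul_div_assoc', le_div_iff₀ hlogX0]
    push_cast
    nlinarith

end Pool.Agent.Helper20.HalfP
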