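import Mathlib
import Pool.Agent.Helper20.HalfE6
import Pool.Agent.Helper20.HalfF1

/-!
Degenerate graphs: upper bound for the random subgraph and the resulting comparison.
-/

namespace Pool.Agent.Helper20.HalfP

open Finset

section

variable {V : Type} [Fintype V] [DecidableEq V] (G : SimpleGraph V) [DecidableRel G.Adj]

/-- `G` is `D`-degenerate: every nonempty set of vertices contains a vertex with at most `D`
neighbours in the set. -/
def Degen (D : ℕ) : Prop :=
  ∀ S : Finset V, S.Nonempty → ∃ v ∈ S, (S.filter fun u => G.Adj v u).card ≤ D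

/-- Sets all of whose nonempty subsets have a vertex of small degree can be coloured. -/
lemma canCol_of_degen {d : ℕ} (n : ℕ) : ∀ U : Finset V, U.card = n →
    (∀ S ⊆ U, S.Nonempty → ∃ v ∈ S, (S.filter fun u => G.Adj v u).card < d) →
    CanCol G U d := by
  induction n with
  | zero =>
    intro U hU _
    rw [Finset.card_eq_zero] at hU
    subst hU
    exact ⟨fun _ => 0, by simp, by simp⟩
  | succ n ih =>
    intro U hU hdeg
    obtain ⟨v, hvU, hvdeg⟩ := hdeg U (Finset.Subset.refl _) (Finset.card_pos.1 (by omega))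
    obtain ⟨f, hf, hf'⟩ := ih (U.erase v) (by rw [Finset.card_erase_of_mem hvU, hU]; rfl)
      (fun S hS hne => hdeg S (hS.trans (Finset.erase_subset _ _)) hne)
    obtain ⟨c, hc, hcf⟩ : ∃ c ∈ Finset.range d, c ∉ (U.filter fun u => G.Adj v u).image f := by
      by_contra hcon
      push Not at hcon
      have h3 := Finset.card_le_card
        (show Finset.range d ⊆ (U.filter fun u => G.Adj v u).image f from hcon)
      rw [Finset.card_range] at h3
      have h4 := Finset.card_image_le (s := U.filter fun u => G.Adj v u) (f := f)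
      omega
    have hcu : ∀ u ∈ U, G.Adj v u → f u ≠ c := fun u hu hadj he =>
      hcf (Finset.mem_image.2 ⟨u, Finset.mem_filter.2 ⟨hu, hadj⟩, he⟩)
    refine ⟨Function.update f v c, ?_, ?_⟩
    · intro w hw
      by_cases hwv : w = v
      · subst hwv
        rw [Function.update_self]
        exact Finset.mem_range.1 hc
      · rw [Function.update_of_ne hwv]
        exact hf w (Finset.mem_erase.2 ⟨hwv, hw⟩)
    · intro u hu w hw hadj
      by_cases h3 : u = v
      · have h4 : w ≠ v := fun h => hadj.ne (h3.trans h.symm)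
        rw [h3, Function.update_self, Function.update_of_ne h4]
        rw [h3] at hadj
        exact (hcu w hw hadj).symm
      · by_cases h4 : w = v
        · rw [h4, Function.update_self, Function.update_of_ne h3]
          rw [h4] at hadj
          exact hcu u hu hadj.symm
        · rw [Function.update_of_ne h3, Function.update_of_ne h4]
          exact hf' u (Finset.mem_erase.2 ⟨h3, hu⟩) w (Finset.mem_erase.2 ⟨h4, hw⟩) hadj

open Classical in
/-- Alon, Krivelevich, Sudakov: the lower bound in terms of the chromatic number of `G`. -/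
lemma chi_le {q : ℝ} (hq0 : 0 < q) (hq1 : q < 1) {T : ℕ} (hT0 : 0 < T)
    (hT : 2 * (Fintype.card V : ℝ) ^ 2 * (1 - q) ^ T ≤ 1) (hV : 0 < Fintype.card V) :
    (chi G : ℝ) ≤ 4 * T * EChi G q := by
  set n := Fintype.card V with hn
  have hcn : (chi G : ℝ) ≤ n := by
    have h1 := (CanCol.card (H := G) (Finset.univ : Finset V)).chi_le
    exact_mod_cast h1
  have hpt : ∀ H ⊆ G.edgeFinset, (chi G : ℝ) ≤ 2 * T * (chi (gr H) : ℝ) +
      n * (if BadSet G T H then (1 : ℝ) else 0) := by
    intro H hH
    by_cases hbad : BadSet G T H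
    · rw [if_pos hbad]
      have h2 : (0 : ℝ) ≤ 2 * T * (chi (gr H) : ℝ) := by positivity
      linarith
    · rw [if_neg hbad, mul_zero, add_zero]
      obtain ⟨f, hf, hf'⟩ := chi_canCol (gr H)
      set k := chi (gr H) with hk
      set S : ℕ → Finset V := fun i => Finset.univ.filter fun v => f v = i with hS
      have hdeg : ∀ i, ∀ S' ⊆ S i, S'.Nonempty →
          ∃ v ∈ S', (S'.filter fun u => G.Adj v u).card < 2 * T := by
        intro i S' hS' hne
        by_contra hcon
        push Not at hcon
        refine hbad ⟨S', hne, hcon, ?_⟩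
        rw [Finset.disjoint_left]
        intro e he heH
        induction e using Sym2.ind with
        | _ u v =>
          rw [inEdges_mem] at he
          have hadj : G.Adj u v := by simpa using he.1
          have hu := (Finset.mem_filter.1 (hS' (he.2 u (by simp)))).2
          have hv := (Finset.mem_filter.1 (hS' (he.2 v (by simp)))).2
          exact hf' u (Finset.mem_univ u) v (Finset.mem_univ v)
            (gr_adj.2 ⟨heH, hadj.ne⟩) (hu.trans hv.symm)
      have h1 := canCol_biUnion (H := G) S (fun _ => 2 * T) (Finset.range k)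
        (fun i _ => canCol_of_degen G (S i).card (S i) rfl (hdeg i))
      have h2 : (Finset.range k).biUnion S = Finset.univ := by
        ext v
        simp only [Finset.mem_biUnion, Finset.mem_range, Finset.mem_univ, iff_true]
        exact ⟨f v, hf v (Finset.mem_univ v), Finset.mem_filter.2 ⟨Finset.mem_univ v, rfl⟩⟩
      rw [h2] at h1
      have h3 := h1.chi_le
      rw [Finset.sum_const, Finset.card_range, smul_eq_mul] at h3
      have h4 : (chi G : ℝ) ≤ ((k * (2 * T) : ℕ) : ℝ) := by exact_mod_cast h3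
      push_cast at h4
      linarith
  have h1 := EE_mono (E := G.edgeFinset) hq0.le hq1.le hpt
  rw [EE_const, EE_add, EE_mul, EE_mul] at h1
  have h2 := bad_prob G hq0 hq1 T hT
  have h4 : EE G.edgeFinset q (fun F => (chi (gr F) : ℝ)) = EChi G q := rfl
  rw [h4] at h1
  have h5 : 1 ≤ EChi G q := one_le_EChi G hq0 hq1 hV
  have h6 : (1 : ℝ) ≤ T := by exact_mod_cast hT0
  nlinarith

open Classical in
/-- Upper bound for the random subgraph of a degenerate graph. -/
lemma upper_degen {r ε : ℝ} (hr0 : 0 < r) (hr1 : r < 1) (hε : 0 ≤ ε) {K2 D m : ℕ}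
    (hstar : ∀ (E : Finset (Sym2 V)) (D' : ℕ → Finset (Sym2 V)), E.card < D + 1 →
      (∀ c < 2 * K2, D' c ⊆ E) →
      (∀ c < 2 * K2, ∀ c' < 2 * K2, c ≠ c' → Disjoint (D' c) (D' c')) →
      EE E r (fun R => if (∀ c < 2 * K2, ¬ Disjoint (D' c) R) then (1 : ℝ) else 0) ≤ ε)
    (hnum : (Fintype.card V : ℝ) ^ 2 * (((D + 1 : ℕ) : ℝ) * ε) ^ m ≤ 1)
    (hG : Degen G D) : EChi G r ≤ 2 * K2 + m + 1 := by
  set n := Fintype.card V with hn
  have h1 := prob_col G hr0 hr1 hε (m := m) hstar Finset.univ
    (fun S _ hne => by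
      obtain ⟨v, hv, h⟩ := hG S hne
      exact ⟨v, hv, by omega⟩)
  rw [← hn] at h1
  have hpt : ∀ R ⊆ G.edgeFinset, (chi (gr R) : ℝ) ≤ (2 * (K2 : ℝ) + m) + n *
      (if CanCol (gr R) Finset.univ (2 * K2 + m) then (0 : ℝ) else 1) := by
    intro R _
    by_cases hc : CanCol (gr R) Finset.univ (2 * K2 + m)
    · rw [if_pos hc, mul_zero, add_zero]
      have h2 := hc.chi_le
      exact_mod_cast h2
    · rw [if_neg hc, mul_one]
      have h2 := (CanCol.card (H := gr R) (Finset.univ : Finset V)).chi_le
      have h3 : (chi (gr R) : ℝ) ≤ n := by exact_mod_cast h2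
      have h4 : (0 : ℝ) ≤ 2 * (K2 : ℝ) + m := by positivity
      linarith
  have h2 := EE_mono (E := G.edgeFinset) hr0.le hr1.le hpt
  rw [EE_add, EE_const, EE_mul] at h2
  have h3 : EE G.edgeFinset r (fun F => (chi (gr F) : ℝ)) = EChi G r := rfl
  rw [h3] at h2
  set PP := EE G.edgeFinset r
    (fun R => if CanCol (gr R) Finset.univ (2 * K2 + m) then (0 : ℝ) else 1) with hPP
  have h4 : (n : ℝ) * PP ≤ n * (n * (((D + 1 : ℕ) : ℝ) * ε) ^ m) :=
    mul_le_mul_of_nonneg_left h1 (by positivity)
  have h5 : (n : ℝ) * (n * (((D + 1 : ℕ) : ℝ) * ε) ^ m) =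
      (n : ℝ) ^ 2 * (((D + 1 : ℕ) : ℝ) * ε) ^ m := by ring
  linarith

end

end Pool.Agent.Helper20.HalfP
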