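import Mathlib
import Pool.Agent.Helper20.HalfF2

/-!
The lower bound relative to a set `W` of vertices, and the comparison for degenerate graphs.
-/

namespace Pool.Agent.Helper20.HalfP

open Finset

/-- The bad event for subsets of `W`. -/
def BadSetW {V : Type} [Fintype V] [DecidableEq V] (G : SimpleGraph V) [DecidableRel G.Adj]
    (T : ℕ) (W : Finset V) (H : Finset (Sym2 V)) : Prop :=
  ∃ S ⊆ W, S.Nonempty ∧ (∀ v ∈ S, 2 * T ≤ (S.filter fun u => G.Adj v u).card) ∧
    Disjoint (inEdges G S) H

/-- Half of the sum of the degrees inside `S` is the number of edges inside `S`. -/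
private lemma hg1_card {V : Type} [Fintype V] [DecidableEq V] (G : SimpleGraph V)
    [DecidableRel G.Adj] (T : ℕ) (S : Finset V)
    (h : ∀ v ∈ S, 2 * T ≤ (S.filter fun u => G.Adj v u).card) :
    T * S.card ≤ (inEdges G S).card := by
  set P : Finset (Σ _ : V, V) := S.sigma fun v => S.filter fun u => G.Adj v u with hP
  have h1 : S.card * (2 * T) ≤ P.card := by
    rw [hP, Finset.card_sigma, ← smul_eq_mul, ← Finset.sum_const]
    exact Finset.sum_le_sum fun v hv => h v hv
  have h2 : P.card ≤ 2 * (inEdges G S).card := by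
    refine Finset.card_le_mul_card_image_of_maps_to (f := fun x : (Σ _ : V, V) => s(x.1, x.2))
      ?_ 2 ?_
    · rintro ⟨v, u⟩ hvu
      rw [hP, Finset.mem_sigma, Finset.mem_filter] at hvu
      rw [inEdges_mem]
      refine ⟨by simpa using hvu.2.2, ?_⟩
      intro w hw
      rw [Sym2.mem_iff] at hw
      rcases hw with rfl | rfl
      · exact hvu.1
      · exact hvu.2.1
    · intro e _
      induction e using Sym2.ind with
      | _ a b =>
        refine le_trans (Finset.card_le_card (t := {⟨a, b⟩, ⟨b, a⟩}) ?_) Finset.card_le_two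
        rintro ⟨v, u⟩ hvu
        have h3 := (Finset.mem_filter.1 hvu).2
        rw [Sym2.eq_iff] at h3
        rw [Finset.mem_insert, Finset.mem_singleton]
        rcases h3 with ⟨rfl, rfl⟩ | ⟨rfl, rfl⟩
        · exact Or.inl rfl
        · exact Or.inr rfl
  have h3 : 2 * (T * S.card) ≤ 2 * (inEdges G S).card := by
    calc 2 * (T * S.card) = S.card * (2 * T) := by ring
      _ ≤ _ := h1.trans h2
  omega

private lemma hg1_pow (n : ℕ) {x : ℝ} (hx : 0 ≤ x) (hnx : (n : ℝ) * x ≤ 1) :
    (1 + x) ^ n - 1 ≤ 2 * (n * x) := by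
  have h1 : (1 + x) ^ n ≤ Real.exp (n * x) := by
    rw [Real.exp_nat_mul]
    refine pow_le_pow_left₀ (by linarith) ?_ n
    have := Real.add_one_le_exp x
    linarith
  have hy : 0 ≤ (n : ℝ) * x := by positivity
  have h2 := Real.abs_exp_sub_one_sub_id_le (x := (n : ℝ) * x) (by rw [abs_of_nonneg hy]; exact hnx)
  have h3 := (abs_le.1 h2).2
  nlinarith

open Classical in
lemma bad_probW {V : Type} [Fintype V] [DecidableEq V] (G : SimpleGraph V) [DecidableRel G.Adj]
    {q : ℝ} (hq0 : 0 < q) (hq1 : q < 1) (T : ℕ) (W : Finset V)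
    (hT : 2 * (W.card : ℝ) ^ 2 * (1 - q) ^ T ≤ 1) :
    (W.card : ℝ) * EE G.edgeFinset q (fun H => if BadSetW G T W H then (1 : ℝ) else 0)
      ≤ 1 := by
  have h1q : 0 ≤ 1 - q := by linarith
  have h1q' : 1 - q ≤ 1 := by linarith
  set x : ℝ := (1 - q) ^ T with hx
  have hx0 : 0 ≤ x := pow_nonneg h1q T
  set n : ℕ := W.card with hn
  set Ss : Finset (Finset V) := W.powerset.filter (fun S => S.Nonempty ∧
    ∀ v ∈ S, 2 * T ≤ (S.filter fun u => G.Adj v u).card) with hSs
  have hpt : ∀ F ⊆ G.edgeFinset, (if BadSetW G T W F then (1 : ℝ) else 0) ≤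
      ∑ S ∈ Ss, (if Disjoint (inEdges G S) F then (1 : ℝ) else 0) := by
    intro F _
    by_cases hb : BadSetW G T W F
    · rw [if_pos hb]
      obtain ⟨S, hSW, hS, hdeg, hdis⟩ := hb
      have hmem : S ∈ Ss := by
        rw [hSs, Finset.mem_filter]
        exact ⟨Finset.mem_powerset.2 hSW, hS, hdeg⟩
      have h1 := Finset.single_le_sum
        (f := fun S => if Disjoint (inEdges G S) F then (1 : ℝ) else 0)
        (fun S _ => by positivity) hmem
      simpa [hdis] using h1
    · rw [if_neg hb]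
      exact Finset.sum_nonneg fun S _ => by positivity
  have h1 := EE_mono (E := G.edgeFinset) hq0.le hq1.le hpt
  rw [EE_sum] at h1
  have h2 : ∑ S ∈ Ss, EE G.edgeFinset q
      (fun F => if Disjoint (inEdges G S) F then (1 : ℝ) else 0) ≤ (1 + x) ^ n - 1 := by
    have h20 : ∑ S ∈ Ss, EE G.edgeFinset q
        (fun F => if Disjoint (inEdges G S) F then (1 : ℝ) else 0) ≤ ∑ S ∈ Ss, x ^ S.card := by
      refine Finset.sum_le_sum fun S hS => ?_
      rw [EE_disj (E := G.edgeFinset) (p := q) (D := inEdges G S) (Finset.filter_subset _ _),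
        hx, ← pow_mul]
      exact pow_le_pow_of_le_one h1q h1q' (hg1_card G T S (Finset.mem_filter.1 hS).2.2)
    have h21 : ∑ S ∈ Ss, x ^ S.card ≤
        ∑ S ∈ W.powerset.erase ∅, x ^ S.card := by
      refine Finset.sum_le_sum_of_subset_of_nonneg ?_ fun S _ _ => pow_nonneg hx0 _
      intro S hS
      rw [hSs, Finset.mem_filter] at hS
      exact Finset.mem_erase.2 ⟨hS.2.1.ne_empty, hS.1⟩
    have h22 : ∑ S ∈ W.powerset, x ^ S.card = (1 + x) ^ n := by
      have h3 := Finset.sum_pow_mul_eq_add_pow x 1 W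
      simp only [one_pow, mul_one] at h3
      rw [h3, add_comm, hn]
    have h23 := Finset.add_sum_erase W.powerset (fun S => x ^ S.card)
      (Finset.empty_mem_powerset _)
    rw [h22] at h23
    simp only [Finset.card_empty, pow_zero] at h23
    linarith
  have h3 : EE G.edgeFinset q (fun H => if BadSetW G T W H then (1 : ℝ) else 0) ≤
      (1 + x) ^ n - 1 := h1.trans h2
  rcases Nat.eq_zero_or_pos n with h0 | hpos
  · rw [h0]
    simp
  · have hn1 : (1 : ℝ) ≤ n := by exact_mod_cast hpos
    have hnx : (n : ℝ) * x ≤ 1 := by nlinarith [mul_nonneg (by linarith : (0 : ℝ) ≤ n) hx0]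
    have h4 := hg1_pow n hx0 hnx
    have h5 : (n : ℝ) * EE G.edgeFinset q (fun H => if BadSetW G T W H then (1 : ℝ) else 0) ≤
        n * (2 * (n * x)) := mul_le_mul_of_nonneg_left (h3.trans h4) (by linarith)
    refine h5.trans (le_trans (le_of_eq ?_) hT)
    ring

section

variable {V : Type} [Fintype V] [DecidableEq V] (G : SimpleGraph V) [DecidableRel G.Adj]

omit [Fintype V] [DecidableEq V] [DecidableRel G.Adj] in
lemma canCol_induce {W : Finset V} {k : ℕ} (h : CanCol G W k) :
    chi (G.induce (W : Set V)) ≤ k := by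
  obtain ⟨f, hf, hf'⟩ := h
  have h1 : (G.induce (W : Set V)).Colorable k :=
    ⟨SimpleGraph.Coloring.mk (fun v : (W : Set V) => (⟨f v.1, hf v.1 v.2⟩ : Fin k))
      fun {u v} hadj h => hf' u.1 u.2 v.1 v.2 hadj (congrArg Fin.val h)⟩
  have h2 := h1.chromaticNumber_le
  unfold chi
  exact ENat.toNat_le_of_le_natCast h2

open Classical in
/-- Alon, Krivelevich, Sudakov: the lower bound in terms of the chromatic number of `G`. -/
lemma chi_leW {q : ℝ} (hq0 : 0 < q) (hq1 : q < 1) {T : ℕ} (hT0 : 0 < T)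
    (W : Finset V) (hT : 2 * (W.card : ℝ) ^ 2 * (1 - q) ^ T ≤ 1) (hV : 0 < W.card) :
    (chi (G.induce (W : Set V)) : ℝ) ≤ 4 * T * EChi G q := by
  set n := W.card with hn
  set x := chi (G.induce (W : Set V)) with hx
  have hchi : ∀ k, CanCol G W k → x ≤ k := fun k h => canCol_induce G h
  have hcn : (x : ℝ) ≤ n := by exact_mod_cast hchi _ (CanCol.card (H := G) W)
  have hpt : ∀ H ⊆ G.edgeFinset, (x : ℝ) ≤ 2 * T * (chi (gr H) : ℝ) +
      n * (if BadSetW G T W H then (1 : ℝ) else 0) := by
    intro H hH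
    by_cases hbad : BadSetW G T W H
    · rw [if_pos hbad]
      have h2 : (0 : ℝ) ≤ 2 * T * (chi (gr H) : ℝ) := by positivity
      linarith
    · rw [if_neg hbad, mul_zero, add_zero]
      obtain ⟨f, hf, hf'⟩ := chi_canCol (gr H)
      set k := chi (gr H) with hk
      set S : ℕ → Finset V := fun i => W.filter fun v => f v = i with hS
      have hdeg : ∀ i, ∀ S' ⊆ S i, S'.Nonempty →
          ∃ v ∈ S', (S'.filter fun u => G.Adj v u).card < 2 * T := by
        intro i S' hS' hne
        by_contra hcon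
        push Not at hcon
        refine hbad ⟨S', hS'.trans (Finset.filter_subset _ _), hne, hcon, ?_⟩
        rw [Finset.disjoint_left]
        intro e he heH
        induction e using Sym2.ind with
        | _ u v =>
          rw [inEdges_mem] at he
          have hadj : G.Adj u v := by simpa using he.1
          have hu := (Finset.mem_filter.1 (hS' (he.2 u (by simp)))).2
          have hv := (Finset.mem_filter.1 (hS' (he.2 v (by simp)))).2
          exact hf' u (Finset.mem_univ u) v (Finset.mem_univ v)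
            (gr_adj.2 ⟨heH, hadj.ne⟩) (hu.trans hv.symm)
      have h1 := canCol_biUnion (H := G) S (fun _ => 2 * T) (Finset.range k)
        (fun i _ => canCol_of_degen G (S i).card (S i) rfl (hdeg i))
      have h2 : W ⊆ (Finset.range k).biUnion S := by
        intro v hv
        rw [Finset.mem_biUnion]
        exact ⟨f v, Finset.mem_range.2 (hf v (Finset.mem_univ v)),
          Finset.mem_filter.2 ⟨hv, rfl⟩⟩
      have h3 := hchi _ (h1.mono h2)
      rw [Finset.sum_const, Finset.card_range, smul_eq_mul] at h3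
      have h4 : (x : ℝ) ≤ ((k * (2 * T) : ℕ) : ℝ) := by exact_mod_cast h3
      push_cast at h4
      linarith
  have h1 := EE_mono (E := G.edgeFinset) hq0.le hq1.le hpt
  rw [EE_const, EE_add, EE_mul, EE_mul] at h1
  have h2 := bad_probW G hq0 hq1 T W hT
  have h4 : EE G.edgeFinset q (fun F => (chi (gr F) : ℝ)) = EChi G q := rfl
  rw [h4] at h1
  have h5 : 1 ≤ EChi G q := one_le_EChi G hq0 hq1 (by
    obtain ⟨v, _⟩ := Finset.card_pos.1 hV
    exact Fintype.card_pos_iff.2 ⟨v⟩)
  have h6 : (1 : ℝ) ≤ T := by exact_mod_cast hT0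
  nlinarith

end

theorem degenW {p : ℝ} (hp0 : 0 < p) (hp1 : p < 1) : ∃ c : ℝ, 0 < c ∧
    ∀ (V : Type) [Fintype V] [DecidableEq V] (G : SimpleGraph V) [DecidableRel G.Adj] (D : ℕ)
      (W : Finset V), 3 ≤ W.card → Real.log (Fintype.card V) ≤ D → Degen G D →
      c * ((chi (G.induce (W : Set V)) : ℝ) / D) * (Real.log D / Real.log W.card) * EChi G p ≤
        EChi G (p / 2) := by
  have hq0 : 0 < p / 2 := by linarith
  have hq1 : p / 2 < 1 := by linarith
  have h1q : 0 < 1 - p / 2 := by linarith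
  obtain ⟨κ, hκ, hκ'⟩ := exists_kappa (a := 1 - p / 2) (by linarith) h1q
  have hκR : (0 : ℝ) < κ := by exact_mod_cast hκ
  obtain ⟨C, hC, D0, hnum⟩ := numbersD hp0 hp1
  set C2 : ℝ := 2 * C + 1 + D0 with hC2
  have hC20 : 0 < C2 := by positivity
  refine ⟨1 / (32 * κ * C2), by positivity, ?_⟩
  intro V _ _ G _ D W hW hD hG
  have hWV : W.card ≤ Fintype.card V := Finset.card_le_univ W
  have hV : 3 ≤ Fintype.card V := hW.trans hWV
  set n := Fintype.card V with hn
  have hnR : (3 : ℝ) ≤ n := by exact_mod_cast hV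
  have hlog1 : 1 < Real.log n := by
    rw [Real.lt_log_iff_exp_lt (by linarith)]
    exact lt_of_lt_of_le Real.exp_one_lt_three hnR
  have hD1 : (1 : ℝ) < D := lt_of_lt_of_le hlog1 hD
  have hD2 : 2 ≤ D := by
    have : 1 < D := by exact_mod_cast hD1
    omega
  have hD2R : (2 : ℝ) ≤ D := by exact_mod_cast hD2
  have hlD : 0 < Real.log D := Real.log_pos hD1
  have hDl : 1 ≤ D / Real.log D := by
    rw [le_div_iff₀ hlD, one_mul]
    have := Real.log_le_sub_one_of_pos (show (0 : ℝ) < D by linarith)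
    linarith
  have he1 : 1 ≤ EChi G (p / 2) := one_le_EChi G hq0 hq1 (by omega)
  set e := EChi G (p / 2) with he
  -- upper bound
  have hup : EChi G p ≤ C2 * (D / Real.log D) := by
    by_cases hcase : D0 ≤ D + 1
    · obtain ⟨K2, h, hK, hK2, hK3⟩ := hnum (D + 1) n hcase (by push_cast; linarith)
      have h1 := upper_degen G hp0 hp1 (ε := (1 - (1 - p) ^ h) ^ K2)
        (by
          have h2 : (1 - p) ^ h ≤ 1 := pow_le_one₀ (by linarith) (by linarith)
          have h3 : 0 ≤ 1 - (1 - p) ^ h := by linarith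
          positivity)
        (K2 := K2) (D := D) (m := K2)
        (fun E D' hE hD' hdis => star_bound hp0 hp1 E D' K2 h hD' hdis (by omega))
        hK2 hG
      have h2 : ((D + 1 : ℕ) : ℝ) / Real.log ((D + 1 : ℕ) : ℝ) ≤ 2 * (D / Real.log D) := by
        have h3 : Real.log D ≤ Real.log ((D + 1 : ℕ) : ℝ) := by
          apply Real.log_le_log (by linarith)
          push_cast
          linarith
        calc ((D + 1 : ℕ) : ℝ) / Real.log ((D + 1 : ℕ) : ℝ)
            ≤ ((D + 1 : ℕ) : ℝ) / Real.log D :=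
              div_le_div_of_nonneg_left (by positivity) hlD h3
          _ ≤ (2 * D) / Real.log D := by
              apply div_le_div_of_nonneg_right _ hlD.le
              push_cast
              linarith
          _ = 2 * (D / Real.log D) := by ring
      have h4 : (3 * K2 : ℝ) ≤ 2 * C * (D / Real.log D) := by
        calc (3 * K2 : ℝ) ≤ C * (((D + 1 : ℕ) : ℝ) / Real.log ((D + 1 : ℕ) : ℝ)) := hK3
          _ ≤ C * (2 * (D / Real.log D)) := mul_le_mul_of_nonneg_left h2 hC.le
          _ = 2 * C * (D / Real.log D) := by ring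
      have h5 : (0 : ℝ) ≤ D0 * (D / Real.log D) := by positivity
      calc EChi G p ≤ 2 * K2 + K2 + 1 := h1
        _ = 3 * K2 + 1 := by ring
        _ ≤ 2 * C * (D / Real.log D) + 1 * (D / Real.log D) + D0 * (D / Real.log D) := by
            linarith
        _ = C2 * (D / Real.log D) := by
            rw [hC2]
            ring
    · have h1 : CanCol G Finset.univ (D + 1) :=
        canCol_of_degen G _ Finset.univ rfl fun S _ hne => by
          obtain ⟨v, hv, h⟩ := hG S hne
          exact ⟨v, hv, by omega⟩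
      have h2 := EChi_le G hp0 hp1 h1
      have h3 : ((D + 1 : ℕ) : ℝ) ≤ D0 := by
        have : D + 1 ≤ D0 := by omega
        exact_mod_cast this
      have h4 : (D0 : ℝ) ≤ C2 * (D / Real.log D) := by
        have h5 : (0 : ℝ) ≤ D0 := by positivity
        nlinarith
      linarith
  -- lower bound
  clear_value n
  set w := W.card with hw
  have hwR : (3 : ℝ) ≤ w := by exact_mod_cast hW
  have hlogw : 1 < Real.log w := by
    rw [Real.lt_log_iff_exp_lt (by linarith)]
    exact lt_of_lt_of_le Real.exp_one_lt_three hwR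
  set X := Nat.log 2 w + 2 with hX
  have hlow := chi_leW G hq0 hq1 (T := 2 * κ * X) (by positivity) W
    (by
      rw [← hw]
      have h2 : (1 - p / 2) ^ (2 * κ * X) ≤ (1 / 2) ^ (2 * X) := by
        calc (1 - p / 2) ^ (2 * κ * X) = ((1 - p / 2) ^ κ) ^ (2 * X) := by
              rw [← pow_mul]
              congr 1
              ring
          _ ≤ (1 / 2) ^ (2 * X) := pow_le_pow_left₀ (by positivity) hκ' _
      have h3 : w < 2 ^ (Nat.log 2 w + 1) := Nat.lt_pow_succ_log_self (by norm_num) w
      have h4 : 2 * w ^ 2 ≤ 2 ^ (2 * X) := by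
        have h5 : w ^ 2 ≤ (2 ^ (Nat.log 2 w + 1)) ^ 2 := Nat.pow_le_pow_left h3.le 2
        have h6 : 2 ^ (2 * X) = 4 * (2 ^ (Nat.log 2 w + 1)) ^ 2 := by
          rw [← pow_mul, show (4 : ℕ) = 2 ^ 2 by norm_num, ← pow_add]
          congr 1
          rw [hX]
          ring
        rw [h6]
        nlinarith
      have h7 : 2 * (w : ℝ) ^ 2 ≤ 2 ^ (2 * X) := by exact_mod_cast h4
      calc 2 * (w : ℝ) ^ 2 * (1 - p / 2) ^ (2 * κ * X)
          ≤ 2 ^ (2 * X) * (1 / 2) ^ (2 * X) := by
            apply mul_le_mul h7 h2 (by positivity) (by positivity)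
        _ = 1 := by
            rw [← mul_pow]
            norm_num)
    (by omega)
  rw [← he] at hlow
  have hXl : (X : ℝ) ≤ 4 * Real.log w := by
    have h1 : (Nat.log 2 w : ℝ) ≤ 2 * Real.log w := by
      have h2 : 2 ^ Nat.log 2 w ≤ w := Nat.pow_log_le_self 2 (by omega)
      have h3 : (2 : ℝ) ^ Nat.log 2 w ≤ w := by exact_mod_cast h2
      have h4 : Real.log ((2 : ℝ) ^ Nat.log 2 w) ≤ Real.log w :=
        Real.log_le_log (by positivity) h3
      rw [Real.log_pow] at h4
      have h5 := Real.log_two_gt_d9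
      have h6 : (0 : ℝ) ≤ Nat.log 2 w := by positivity
      nlinarith
    rw [hX]
    push_cast
    linarith
  have hchi : (chi (G.induce (W : Set V)) : ℝ) ≤ 32 * κ * Real.log w * e := by
    have h1 : (4 : ℝ) * ((2 * κ * X : ℕ) : ℝ) * e = 8 * κ * e * X := by
      push_cast
      ring
    rw [h1] at hlow
    have h2 : 0 ≤ 8 * κ * e := by positivity
    calc (chi (G.induce (W : Set V)) : ℝ) ≤ 8 * κ * e * X := hlow
      _ ≤ 8 * κ * e * (4 * Real.log w) := mul_le_mul_of_nonneg_left hXl h2
      _ = 32 * κ * Real.log w * e := by ring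
  have hw0 : 0 < Real.log w := by linarith
  have hD0 : (0 : ℝ) < D := by linarith
  have h1 : 1 / (32 * κ * C2) * ((chi (G.induce (W : Set V)) : ℝ) / D) * (Real.log D / Real.log w) * EChi G p ≤
      1 / (32 * κ * C2) * ((chi (G.induce (W : Set V)) : ℝ) / D) * (Real.log D / Real.log w) *
        (C2 * (D / Real.log D)) := by
    apply mul_le_mul_of_nonneg_left hup
    positivity
  have h2 : 1 / (32 * κ * C2) * ((chi (G.induce (W : Set V)) : ℝ) / D) * (Real.log D / Real.log w) *
        (C2 * (D / Real.log D)) = (chi (G.induce (W : Set V)) : ℝ) / (32 * κ * Real.log w) := by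
    field_simp
  rw [h2] at h1
  refine h1.trans ?_
  rw [div_le_iff₀ (by positivity)]
  linarith

end Pool.Agent.Helper20.HalfP
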