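import Mathlib
import Pool.Agent.Helper20.HalfG1

/-!
Blow-ups with fibres of logarithmic size keep the fractional chromatic number.
-/

namespace Pool.Agent.Helper20.HalfP

open Finset

/-- `G` together with all pairs inside the classes of `cls` on `W`. -/
def plusGraph {V J : Type} (G : SimpleGraph V) (cls : V → J) : SimpleGraph V where
  Adj u v := u ≠ v ∧ (G.Adj u v ∨ cls u = cls v)
  symm := ⟨fun _ _ h => ⟨h.1.symm, h.2.elim (fun h => Or.inl h.symm) fun h => Or.inr h.symm⟩⟩
  loopless := ⟨fun _ h => h.1 rfl⟩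

/-- Numbers for the blow-up theorem. -/
lemma blow_num {q : ℝ} (hq0 : 0 < q) (hq1 : q < 1) : ∃ K : ℕ, 0 < K ∧
    ∀ N : ℕ, 0 < N → ∃ T t : ℕ, 0 < T ∧ 0 < t ∧ 2 * T ≤ t ∧
      (t : ℝ) ≤ K * (Real.log N + 1) ∧
      2 * ((N * t : ℕ) : ℝ) ^ 2 * (1 - q) ^ T ≤ 1 := by
  have h0 : 0 < 1 - q := by linarith
  obtain ⟨κ, hκ, hκ'⟩ := exists_kappa (a := 1 - q) (by linarith) h0
  obtain ⟨a, ha⟩ : ∃ a, a = 64 * κ + 4 := ⟨_, rfl⟩
  obtain ⟨m, hm⟩ : ∃ m, m = 4 * a := ⟨_, rfl⟩
  have hm2 : 8 * κ ^ 2 * m ^ 2 * 16 ≤ 2 ^ m := by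
    have h1 : a * a ≤ 2 ^ a := sq_le_two_pow (by omega)
    have h2 : 2 ^ m = (2 ^ a) ^ 4 := by
      rw [← pow_mul, hm, mul_comm]
    have h3 : (a * a) ^ 4 ≤ 2 ^ m := by
      rw [h2]
      exact Nat.pow_le_pow_left h1 4
    have h4 : 64 * κ ≤ a := by omega
    have h5 : (64 * κ) ^ 2 ≤ a ^ 2 := Nat.pow_le_pow_left h4 2
    have h6 : 1 ≤ a := by omega
    have h7 : 2048 * κ ^ 2 ≤ (64 * κ) ^ 2 := by
      rw [mul_pow]
      exact Nat.mul_le_mul_right _ (by norm_num)
    calc 8 * κ ^ 2 * m ^ 2 * 16 = (2048 * κ ^ 2) * a ^ 2 := by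
          rw [hm]
          ring
      _ ≤ (64 * κ) ^ 2 * a ^ 2 := Nat.mul_le_mul_right _ h7
      _ ≤ a ^ 2 * a ^ 2 := Nat.mul_le_mul_right _ h5
      _ = a ^ 4 := by ring
      _ ≤ a ^ 8 := Nat.pow_le_pow_right h6 (by norm_num)
      _ = (a * a) ^ 4 := by ring
      _ ≤ 2 ^ m := h3
  have hm0 : 0 < m := by omega
  refine ⟨4 * κ * m, by positivity, ?_⟩
  intro N hN
  obtain ⟨l, hl⟩ : ∃ l, l = Nat.log 2 N + 1 := ⟨_, rfl⟩
  have hl0 : 0 < l := by omega
  have hNl : N < 2 ^ l := by
    rw [hl]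
    exact Nat.lt_pow_succ_log_self (by norm_num) N
  refine ⟨κ * (m * l), 2 * (κ * (m * l)), by positivity, by positivity, le_refl _, ?_, ?_⟩
  · have h2 : 2 ^ Nat.log 2 N ≤ N := Nat.pow_log_le_self 2 hN.ne'
    have h3 : (2 : ℝ) ^ Nat.log 2 N ≤ N := by exact_mod_cast h2
    have h4 : Real.log ((2 : ℝ) ^ Nat.log 2 N) ≤ Real.log N := Real.log_le_log (by positivity) h3
    rw [Real.log_pow] at h4
    have h5 := Real.log_two_gt_d9
    have h6 : (0 : ℝ) ≤ Nat.log 2 N := by positivity
    have h7 : (Nat.log 2 N : ℝ) ≤ 2 * Real.log N := by nlinarith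
    have h8 : (l : ℝ) ≤ 2 * (Real.log N + 1) := by
      rw [hl]
      push_cast
      linarith
    calc ((2 * (κ * (m * l)) : ℕ) : ℝ) = 2 * (κ * m) * l := by
          push_cast
          ring
      _ ≤ 2 * (κ * m) * (2 * (Real.log N + 1)) := by
          apply mul_le_mul_of_nonneg_left h8 (by positivity)
      _ = ((4 * κ * m : ℕ) : ℝ) * (Real.log N + 1) := by
          push_cast
          ring
  · have h2 : (1 - q) ^ (κ * (m * l)) ≤ (1 / 2) ^ (m * l) := by
      rw [pow_mul]
      exact pow_le_pow_left₀ (by positivity) hκ' _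
    have h3 : 2 * (N * (2 * (κ * (m * l)))) ^ 2 ≤ 2 ^ (m * l) := by
      have h4 : N ^ 2 ≤ (2 ^ l) ^ 2 := Nat.pow_le_pow_left hNl.le 2
      have h5 : l ^ 2 ≤ (2 ^ l) ^ 2 := Nat.pow_le_pow_left Nat.lt_two_pow_self.le 2
      have h6 : 2 ^ m = 16 * 2 ^ (m - 4) := by
        rw [show (16 : ℕ) = 2 ^ 4 by norm_num, ← pow_add]
        congr 1
        omega
      have h7 : 8 * κ ^ 2 * m ^ 2 ≤ 2 ^ (m - 4) := by
        rw [h6, mul_comm 16] at hm2
        exact Nat.le_of_mul_le_mul_right hm2 (by norm_num)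
      calc 2 * (N * (2 * (κ * (m * l)))) ^ 2 = 8 * κ ^ 2 * m ^ 2 * (N ^ 2 * l ^ 2) := by ring
        _ ≤ 2 ^ (m - 4) * ((2 ^ l) ^ 2 * (2 ^ l) ^ 2) := by gcongr
        _ = 2 ^ ((m - 4) + 4 * l) := by
            have h8 : (2 ^ l) ^ 2 * (2 ^ l) ^ 2 = 2 ^ (4 * l) := by
              rw [← pow_mul, ← pow_add]
              congr 1
              ring
            rw [h8, ← pow_add]
        _ ≤ 2 ^ (m * l) := by
            apply Nat.pow_le_pow_right (by norm_num)
            obtain ⟨m', hm'⟩ : ∃ m', m = m' + 4 := ⟨m - 4, by omega⟩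
            rw [hm', Nat.add_sub_cancel]
            nlinarith
    have h9 : 2 * ((N * (2 * (κ * (m * l))) : ℕ) : ℝ) ^ 2 ≤ 2 ^ (m * l) := by exact_mod_cast h3
    calc 2 * ((N * (2 * (κ * (m * l))) : ℕ) : ℝ) ^ 2 * (1 - q) ^ (κ * (m * l))
        ≤ 2 ^ (m * l) * (1 / 2) ^ (m * l) := by
          apply mul_le_mul h9 h2 (by positivity) (by positivity)
      _ = 1 := by
          rw [← mul_pow]
          norm_num

open Classical in
theorem blow {V J : Type} [Fintype V] [DecidableEq V] [Fintype J] [DecidableEq J]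
    (G : SimpleGraph V) [DecidableRel G.Adj] (H : SimpleGraph J) (cls : V → J) (w : J → ℝ)
    (hw0 : ∀ j, 0 ≤ w j)
    (hw : ∀ I : Finset J, (∀ i ∈ I, ∀ j ∈ I, ¬ H.Adj i j) → ∑ j ∈ I, w j ≤ 1)
    (U : Finset V) (hG : ∀ u ∈ U, ∀ v ∈ U, H.Adj (cls u) (cls v) → G.Adj u v)
    {q : ℝ} (hq0 : 0 < q) (hq1 : q < 1) {T t : ℕ} (ht0 : 0 < t)
    (hTt : 2 * T ≤ t) (hJ : 0 < Fintype.card J)
    (hsize : ∀ j, t ≤ (U.filter fun v => cls v = j).card)
    (hnum : 2 * ((Fintype.card J * t : ℕ) : ℝ) ^ 2 * (1 - q) ^ T ≤ 1) :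
    ∑ j, w j ≤ 4 * EChi G q := by
  -- subsets of size `t` of the classes
  have hex : ∀ j : J, ∃ B : Finset V, B ⊆ U.filter (fun v => cls v = j) ∧ B.card = t :=
    fun j => Finset.exists_subset_card_eq (hsize j)
  choose B hB hBt using hex
  have hBc : ∀ j, ∀ v ∈ B j, cls v = j := fun j v hv => (Finset.mem_filter.1 (hB j hv)).2
  have hBU : ∀ j, ∀ v ∈ B j, v ∈ U := fun j v hv => (Finset.mem_filter.1 (hB j hv)).1
  set W := (Finset.univ : Finset J).biUnion B with hW
  have hWmem : ∀ v, v ∈ W ↔ v ∈ B (cls v) := by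
    intro v
    rw [hW, Finset.mem_biUnion]
    constructor
    · rintro ⟨j, _, hj⟩
      have := hBc j v hj
      rwa [this]
    · intro h
      exact ⟨cls v, Finset.mem_univ _, h⟩
  have hWU : ∀ v ∈ W, v ∈ U := fun v hv => hBU _ v ((hWmem v).1 hv)
  have hdisj : ∀ i ∈ (Finset.univ : Finset J), ∀ j ∈ (Finset.univ : Finset J), i ≠ j →
      Disjoint (B i) (B j) := by
    intro i _ j _ hij
    rw [Finset.disjoint_left]
    intro v hvi hvj
    exact hij ((hBc i v hvi).symm.trans (hBc j v hvj))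
  have hWcard : W.card = Fintype.card J * t := by
    rw [hW, Finset.card_biUnion hdisj, Finset.sum_congr rfl fun j _ => hBt j]
    simp
  have hWsum : ∑ v ∈ W, w (cls v) = t * ∑ j, w j := by
    rw [hW, Finset.sum_biUnion (fun i hi j hj hij => hdisj i hi j hj hij), Finset.mul_sum]
    refine Finset.sum_congr rfl fun j _ => ?_
    rw [Finset.sum_congr rfl fun v hv => by rw [hBc j v hv], Finset.sum_const, hBt j,
      nsmul_eq_mul]
  have hclsW : ∀ S ⊆ W, ∀ j, (S.filter fun v => cls v = j).card ≤ t := by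
    intro S hS j
    rw [← hBt j]
    apply Finset.card_le_card
    intro v hv
    rw [Finset.mem_filter] at hv
    have h1 := (hWmem v).1 (hS hv.1)
    rwa [hv.2] at h1
  have htR : (0 : ℝ) < t := by exact_mod_cast ht0
  have hTtR : 2 * (T : ℝ) ≤ t := by exact_mod_cast hTt
  set σ := ∑ j, w j with hσ
  have hσ0 : 0 ≤ σ := Finset.sum_nonneg fun j _ => hw0 j
  have hσJ : σ ≤ Fintype.card J := by
    have h1 : ∀ j, w j ≤ 1 := by
      intro j
      have := hw {j} (by
        intro a ha b hb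
        rw [Finset.mem_singleton] at ha hb
        rw [ha, hb]
        exact H.loopless.irrefl j)
      simpa using this
    calc σ ≤ ∑ _j : J, (1 : ℝ) := Finset.sum_le_sum fun j _ => h1 j
      _ = Fintype.card J := by simp
  have hσW : σ ≤ W.card := by
    rw [hWcard]
    have h1 : (Fintype.card J : ℝ) ≤ ((Fintype.card J * t : ℕ) : ℝ) := by
      exact_mod_cast Nat.le_mul_of_pos_right _ ht0
    linarith
  have hpt : ∀ F ⊆ G.edgeFinset, σ ≤ 2 * (chi (gr F) : ℝ) +
      W.card * (if BadSetW G T W F then (1 : ℝ) else 0) := by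
    intro F hF
    by_cases hbad : BadSetW G T W F
    · rw [if_pos hbad]
      have h2 : (0 : ℝ) ≤ 2 * (chi (gr F) : ℝ) := by positivity
      linarith
    · rw [if_neg hbad, mul_zero, add_zero]
      obtain ⟨f, hf, hf'⟩ := chi_canCol (gr F)
      set k := chi (gr F) with hk
      -- each colour class
      have hcls : ∀ i, ∑ v ∈ W.filter (fun v => f v = i), w (cls v) ≤ ((2 * T + t : ℕ) : ℝ) := by
        intro i
        set S := W.filter fun v => f v = i with hS
        have hSW : S ⊆ W := Finset.filter_subset _ _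
        obtain ⟨g, hg, hg'⟩ := canCol_of_degen (plusGraph G cls) (d := 2 * T + t) S.card S rfl (by
          intro S' hS' hne
          by_contra hcon
          push Not at hcon
          refine hbad ⟨S', hS'.trans hSW, hne, ?_, ?_⟩
          · intro v hv
            have h1 := hcon v hv
            have h2 : (S'.filter fun u => (plusGraph G cls).Adj v u).card ≤
                (S'.filter fun u => G.Adj v u).card + (S'.filter fun u => cls u = cls v).card := by
              refine (Finset.card_le_card ?_).trans (Finset.card_union_le _ _)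
              intro u hu
              rw [Finset.mem_filter] at hu
              rw [Finset.mem_union, Finset.mem_filter, Finset.mem_filter]
              rcases hu.2.2 with h | h
              · exact Or.inl ⟨hu.1, h⟩
              · exact Or.inr ⟨hu.1, h.symm⟩
            have h3 := hclsW S' (hS'.trans hSW) (cls v)
            omega
          · rw [Finset.disjoint_left]
            intro e he heF
            induction e using Sym2.ind with
            | _ u v =>
              rw [inEdges_mem] at he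
              have hadj : G.Adj u v := by simpa using he.1
              have hu := (Finset.mem_filter.1 (hS' (he.2 u (by simp)))).2
              have hv := (Finset.mem_filter.1 (hS' (he.2 v (by simp)))).2
              exact hf' u (Finset.mem_univ u) v (Finset.mem_univ v)
                (gr_adj.2 ⟨heF, hadj.ne⟩) (hu.trans hv.symm))
        have h1 : ∑ v ∈ S, w (cls v) =
            ∑ c ∈ Finset.range (2 * T + t), ∑ v ∈ S.filter (fun v => g v = c), w (cls v) :=
          (Finset.sum_fiberwise_of_maps_to (fun v hv => Finset.mem_range.2 (hg v hv)) _).symm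
        rw [h1]
        calc ∑ c ∈ Finset.range (2 * T + t), ∑ v ∈ S.filter (fun v => g v = c), w (cls v)
            ≤ ∑ c ∈ Finset.range (2 * T + t), (1 : ℝ) := by
              refine Finset.sum_le_sum fun c _ => ?_
              have hinj : Set.InjOn cls (S.filter (fun v => g v = c) : Finset V) := by
                intro u hu v hv huv
                by_contra hne
                rw [Finset.mem_coe, Finset.mem_filter] at hu hv
                exact hg' u hu.1 v hv.1 ⟨hne, Or.inr huv⟩ (hu.2.trans hv.2.symm)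
              rw [← Finset.sum_image hinj]
              refine hw _ ?_
              intro a ha b hb hab
              obtain ⟨u, hu, rfl⟩ := Finset.mem_image.1 ha
              obtain ⟨v, hv, rfl⟩ := Finset.mem_image.1 hb
              rw [Finset.mem_filter] at hu hv
              have hadj := hG u (hWU u (hSW hu.1)) v (hWU v (hSW hv.1)) hab
              exact hg' u hu.1 v hv.1 ⟨hadj.ne, Or.inl hadj⟩ (hu.2.trans hv.2.symm)
          _ = ((2 * T + t : ℕ) : ℝ) := by simp
      have h2 : ∑ v ∈ W, w (cls v) =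
          ∑ i ∈ Finset.range k, ∑ v ∈ W.filter (fun v => f v = i), w (cls v) :=
        (Finset.sum_fiberwise_of_maps_to
          (fun v _ => Finset.mem_range.2 (hf v (Finset.mem_univ v))) _).symm
      have h3 : (t : ℝ) * σ ≤ k * ((2 * T + t : ℕ) : ℝ) := by
        rw [← hWsum, h2]
        calc ∑ i ∈ Finset.range k, ∑ v ∈ W.filter (fun v => f v = i), w (cls v)
            ≤ ∑ i ∈ Finset.range k, ((2 * T + t : ℕ) : ℝ) :=
              Finset.sum_le_sum fun i _ => hcls i
          _ = k * ((2 * T + t : ℕ) : ℝ) := by rw [Finset.sum_const, Finset.card_range,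
                nsmul_eq_mul]
      push_cast at h3
      have h4 : (t : ℝ) * σ ≤ t * (2 * k) := by
        have h5 : (0 : ℝ) ≤ k := by positivity
        nlinarith
      exact le_of_mul_le_mul_left h4 htR
  have h1 := EE_mono (E := G.edgeFinset) hq0.le hq1.le hpt
  rw [EE_const, EE_add, EE_mul, EE_mul] at h1
  have hnum' : 2 * (W.card : ℝ) ^ 2 * (1 - q) ^ T ≤ 1 := by
    rw [hWcard]
    exact hnum
  have h2 := bad_probW G hq0 hq1 T W hnum'
  have h4 : EE G.edgeFinset q (fun F => (chi (gr F) : ℝ)) = EChi G q := rfl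
  rw [h4] at h1
  have hWpos : 0 < W.card := by
    rw [hWcard]
    positivity
  have h5 : 1 ≤ EChi G q := one_le_EChi G hq0 hq1 (by
    obtain ⟨v, _⟩ := Finset.card_pos.1 hWpos
    exact Fintype.card_pos_iff.2 ⟨v⟩)
  linarith

end Pool.Agent.Helper20.HalfP
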