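import Mathlib
import Pool.Agent.Helper20.HypBilin
import Pool.Agent.Helper20.SmallKernel

set_option autoImplicit false

namespace Pool.Agent.Helper20

open Finset

/-- evaluation vector for the monomials of bidegree at most `(2,1)` -/
def v6 (P : ℤ × ℤ) : Fin 6 → ℤ :=
  ![1, P.1, P.1 ^ 2, P.2, P.1 * P.2, P.1 ^ 2 * P.2]

theorem abs_mul_le {a b x y : ℤ} (ha : |a| ≤ x) (hb : |b| ≤ y) : |a * b| ≤ x * y := by
  rw [abs_mul]
  exact mul_le_mul ha hb (abs_nonneg _) ((abs_nonneg _).trans ha)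

theorem abs_sub_le' {a b x y : ℤ} (ha : |a| ≤ x) (hb : |b| ≤ y) : |a - b| ≤ x + y :=
  (abs_sub _ _).trans (add_le_add ha hb)

theorem abs_add_le' {a b x y : ℤ} (ha : |a| ≤ x) (hb : |b| ≤ y) : |a + b| ≤ x + y :=
  (abs_add_le _ _).trans (add_le_add ha hb)

namespace Conf

variable {p : ℕ} {A B C : ℤ} {M : ℕ} {S : Finset (ℤ × ℤ)}

theorem fiber_quad (h : Conf p A B C M S) {a b c : ℤ} (ha : a ≠ 0) (y : ℤ) :
    (S.filter (fun P => a * P.1 ^ 2 + b * P.1 + c = y)).card ≤ 2 := by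
  by_contra hcon
  push Not at hcon
  obtain ⟨P1, h1, P2, h2, P3, h3, h12, h13, h23⟩ := Finset.two_lt_card.mp hcon
  rw [Finset.mem_filter] at h1 h2 h3
  have d12 : P1.1 - P2.1 ≠ 0 := fun h0 => h12 (h.inj1 h1.1 h2.1 (by linarith))
  have d13 : P1.1 - P3.1 ≠ 0 := fun h0 => h13 (h.inj1 h1.1 h3.1 (by linarith))
  have d23 : P2.1 - P3.1 ≠ 0 := fun h0 => h23 (h.inj1 h2.1 h3.1 (by linarith))
  have e1 : a * (P1.1 + P2.1) + b = 0 := by
    have : (P1.1 - P2.1) * (a * (P1.1 + P2.1) + b) = 0 := by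
      linear_combination h1.2 - h2.2
    exact (mul_eq_zero.mp this).resolve_left d12
  have e2 : a * (P1.1 + P3.1) + b = 0 := by
    have : (P1.1 - P3.1) * (a * (P1.1 + P3.1) + b) = 0 := by
      linear_combination h1.2 - h3.2
    exact (mul_eq_zero.mp this).resolve_left d13
  have e3 : a * (P2.1 - P3.1) = 0 := by linear_combination e1 - e2
  rcases mul_eq_zero.mp e3 with h' | h'
  · exact ha h'
  · exact d23 h'

/-- Points of the configuration on a curve of bidegree `(2,1)`. -/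
theorem card_quadlin (h : Conf p A B C M S) (hM : 1 ≤ M)
    (w : Fin 6 → ℚ) (hw : w ≠ 0) (hk : ∀ P ∈ S, ∑ j, w j * (v6 P j : ℚ) = 0) :
    ∃ D : ℤ, D ≠ 0 ∧ |D| ≤ 12 * 6 ^ 30 * (M : ℤ) ^ 90 ∧ S.card ≤ 4 * dv D + 4 := by
  have hM' : (1 : ℤ) ≤ M := by exact_mod_cast hM
  have hpw : ∀ k : ℕ, (1 : ℤ) ≤ (M : ℤ) ^ k := fun k => one_le_pow₀ hM'
  have hbig1 : |(1 : ℤ)| ≤ 12 * 6 ^ 30 * (M : ℤ) ^ 90 := by
    rw [abs_one]
    have := hpw 90
    have h2 : (1 : ℤ) ≤ 12 * 6 ^ 30 := by norm_num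
    nlinarith
  have hbig6 : ∀ D : ℤ, |D| ≤ 72 * (M : ℤ) ^ 6 → |D| ≤ 12 * 6 ^ 30 * (M : ℤ) ^ 90 := by
    intro D hD
    refine hD.trans ?_
    have h1 : (M : ℤ) ^ 6 ≤ (M : ℤ) ^ 90 := pow_le_pow_right₀ hM' (by norm_num)
    have h2 : (72 : ℤ) ≤ 12 * 6 ^ 30 := by norm_num
    have h3 := hpw 6
    nlinarith
  obtain ⟨t, hprim, htb, htk⟩ := small_kernel_prim (M ^ 3) (Nat.one_le_pow _ _ hM) S v6 (by
    intro P hP j
    have b := h.hbox P hP
    have hx0 := b.1
    have hx1 := b.2.1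
    have hy0 := b.2.2.1
    have hy1 := b.2.2.2
    have hMn : (0 : ℤ) ≤ M := by linarith
    have c1 : |P.1| ≤ (M : ℤ) := by rw [abs_of_nonneg hx0]; exact hx1
    have c2 : |P.2| ≤ (M : ℤ) := by rw [abs_of_nonneg hy0]; exact hy1
    have m1 : (1 : ℤ) ≤ (M : ℤ) ^ 3 := hpw 3
    have m2 : (M : ℤ) ≤ (M : ℤ) ^ 3 := by
      calc (M : ℤ) = (M : ℤ) ^ 1 := (pow_one _).symm
        _ ≤ _ := pow_le_pow_right₀ hM' (by norm_num)
    have m3 : (M : ℤ) ^ 2 ≤ (M : ℤ) ^ 3 := pow_le_pow_right₀ hM' (by norm_num)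
    push_cast
    fin_cases j
    · simpa [v6] using m1
    · simpa [v6] using c1.trans m2
    · have : |P.1 ^ 2| ≤ (M : ℤ) ^ 2 := by
        rw [pow_two, pow_two]; exact abs_mul_le c1 c1
      simpa [v6] using this.trans m3
    · simpa [v6] using c2.trans m2
    · have : |P.1 * P.2| ≤ (M : ℤ) ^ 2 := by
        rw [pow_two]; exact abs_mul_le c1 c2
      simpa [v6] using this.trans m3
    · have : |P.1 ^ 2 * P.2| ≤ (M : ℤ) ^ 3 := by
        have e : (M : ℤ) ^ 3 = (M : ℤ) * M * M := by ring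
        rw [e, pow_two]; exact abs_mul_le (abs_mul_le c1 c1) c2
      simpa [v6] using this) w hw hk
  set T : ℤ := 6 ^ 6 * (M : ℤ) ^ 18 with hT
  have hT1 : 1 ≤ T := by
    have := hpw 18
    rw [hT]; nlinarith
  have hT0 : 0 ≤ T := by linarith
  have htT : ∀ j, |t j| ≤ T := by
    intro j
    have := htb j
    refine this.trans (le_of_eq ?_)
    rw [hT]; push_cast; ring
  have hrel : ∀ P ∈ S, t 0 + t 1 * P.1 + t 2 * P.1 ^ 2 + t 3 * P.2 + t 4 * (P.1 * P.2)
      + t 5 * (P.1 ^ 2 * P.2) = 0 := by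
    intro P hP
    have := htk P hP
    rw [Fin.sum_univ_six] at this
    simp only [v6, Matrix.cons_val_zero, Matrix.cons_val_one, Matrix.cons_val] at this
    linear_combination this
  obtain ⟨b0, hb0⟩ : ∃ z, z = t 0 := ⟨_, rfl⟩
  obtain ⟨b1, hb1⟩ : ∃ z, z = t 1 := ⟨_, rfl⟩
  obtain ⟨b2, hb2⟩ : ∃ z, z = t 2 := ⟨_, rfl⟩
  obtain ⟨a0, ha0⟩ : ∃ z, z = t 3 := ⟨_, rfl⟩
  obtain ⟨a1, ha1⟩ : ∃ z, z = t 4 := ⟨_, rfl⟩
  obtain ⟨a2, ha2⟩ : ∃ z, z = t 5 := ⟨_, rfl⟩
  have tb0 : |b0| ≤ T := hb0 ▸ htT 0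
  have tb1 : |b1| ≤ T := hb1 ▸ htT 1
  have tb2 : |b2| ≤ T := hb2 ▸ htT 2
  have ta0 : |a0| ≤ T := ha0 ▸ htT 3
  have ta1 : |a1| ≤ T := ha1 ▸ htT 4
  have ta2 : |a2| ≤ T := ha2 ▸ htT 5
  rw [← hb0, ← hb1, ← hb2, ← ha0, ← ha1, ← ha2] at hrel
  have hT5 : T ^ 5 = 6 ^ 30 * (M : ℤ) ^ 90 := by rw [hT]; ring
  have hfin5 : ∀ D : ℤ, |D| ≤ 12 * T ^ 5 → |D| ≤ 12 * 6 ^ 30 * (M : ℤ) ^ 90 := by
    intro D hD; rw [hT5] at hD; linarith
  have hT3 : T ^ 3 ≤ T ^ 5 := pow_le_pow_right₀ hT1 (by norm_num)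
  have hT2 : T ^ 2 ≤ T ^ 5 := pow_le_pow_right₀ hT1 (by norm_num)
  by_cases h2 : a2 = 0
  · by_cases h1 : a1 = 0
    · -- parabola: Bezout mod p
      by_cases hc : S.card ≤ 4
      · exact ⟨1, one_ne_zero, hbig1, by omega⟩
      exfalso
      push Not at hc
      have hT' := h.lemmaT (S := S) (by omega) (t0 := b0) (tx := b1) (txx := b2) (ty := a0)
        (tyy := 0) (by
          intro P hP
          have := hrel P hP
          rw [h1, h2] at this
          have e : b0 + b1 * P.1 + b2 * P.1 ^ 2 + a0 * P.2 + 0 * P.2 ^ 2 = 0 := by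
            linear_combination this
          rw [e]; exact dvd_zero _)
      obtain ⟨j, hj⟩ := hprim (p : ℤ) h.prime_int
      apply hj
      fin_cases j
      · show (p : ℤ) ∣ t 0; rw [← hb0]; exact hT'.1
      · show (p : ℤ) ∣ t 1; rw [← hb1]; exact hT'.2.1
      · show (p : ℤ) ∣ t 2; rw [← hb2]; exact hT'.2.2.1
      · show (p : ℤ) ∣ t 3; rw [← ha0]; exact hT'.2.2.2.1
      · show (p : ℤ) ∣ t 4; rw [← ha1, h1]; exact dvd_zero _
      · show (p : ℤ) ∣ t 5; rw [← ha2, h2]; exact dvd_zero _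
    · -- denominators linear
      set ρ := b2 * a0 ^ 2 - b1 * a0 * a1 + b0 * a1 ^ 2 with hρ
      have key : ∀ P ∈ S, (a1 * P.1 + a0) * (a1 ^ 2 * P.2 + (a1 * b2 * P.1 + a1 * b1 - b2 * a0))
          = -ρ := by
        intro P hP
        have := hrel P hP
        rw [h2] at this
        rw [hρ]
        linear_combination (a1 ^ 2) * this
      have hρb : |ρ| ≤ 3 * T ^ 3 := by
        have e1 : |b2 * a0 ^ 2| ≤ T * (T * T) := by
          rw [pow_two]; exact abs_mul_le tb2 (abs_mul_le ta0 ta0)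
        have e2 : |b1 * a0 * a1| ≤ T * T * T := abs_mul_le (abs_mul_le tb1 ta0) ta1
        have e3 : |b0 * a1 ^ 2| ≤ T * (T * T) := by
          rw [pow_two]; exact abs_mul_le tb0 (abs_mul_le ta1 ta1)
        calc |ρ| ≤ T * (T * T) + T * T * T + T * (T * T) :=
              abs_add_le' (abs_sub_le' e1 e2) e3
          _ = 3 * T ^ 3 := by ring
      by_cases hρ0 : ρ = 0
      · -- split
        set S1 := S.filter (fun P => a1 * P.1 + a0 = 0) with hS1
        set S2 := S.filter (fun P => ¬ (a1 * P.1 + a0 = 0)) with hS2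
        have c1 : S1.card ≤ 1 := h.fiber_fst h1 0
        have hconf2 : Conf p A B C M S2 := h.subset (Finset.filter_subset _ _)
        obtain ⟨D, hD0, hDb, hDc⟩ := hconf2.card_bilinear hM (α := 0) (β := a1 * b2)
          (γ := a1 ^ 2) (δ := a1 * b1 - b2 * a0) (by
            rintro ⟨_, _, h', _⟩
            exact h1 (pow_eq_zero_iff (two_ne_zero) |>.mp h')) (by
            intro P hP
            rw [hS2, Finset.mem_filter] at hP
            have := key P hP.1
            rw [hρ0, neg_zero] at this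
            have h3 := (mul_eq_zero.mp this).resolve_left hP.2
            linear_combination h3)
        refine ⟨D, hD0, hbig6 D hDb, ?_⟩
        have hsum : S.card = S1.card + S2.card := by
          rw [hS1, hS2]; exact (Finset.card_filter_add_card_filter_not _).symm
        omega
      · refine ⟨ρ, hρ0, hfin5 ρ (by nlinarith), ?_⟩
        have := card_le_of_dvd S (fun P => a1 * P.1 + a0) 1 ρ hρ0
          (fun P hP => by
            have := key P hP
            exact (dvd_neg (a := (a1 * P.1 + a0))).mp (Dvd.intro _ this))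
          (fun y => h.fiber_fst h1 y)
        omega
  · -- denominators quadratic
    set e1 := a2 * b1 - b2 * a1 with he1
    set e0 := a2 * b0 - b2 * a0 with he0
    have be1 : |e1| ≤ 2 * T ^ 2 := by
      calc |e1| ≤ T * T + T * T := abs_sub_le' (abs_mul_le ta2 tb1) (abs_mul_le tb2 ta1)
        _ = _ := by ring
    have be0 : |e0| ≤ 2 * T ^ 2 := by
      calc |e0| ≤ T * T + T * T := abs_sub_le' (abs_mul_le ta2 tb0) (abs_mul_le tb2 ta0)
        _ = _ := by ring
    have key : ∀ P ∈ S, (a2 * P.1 ^ 2 + a1 * P.1 + a0) * (a2 * P.2 + b2) = -(e1 * P.1 + e0) := by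
      intro P hP
      have := hrel P hP
      rw [he1, he0]
      linear_combination a2 * this
    by_cases h1 : e1 = 0
    · by_cases h0 : e0 = 0
      · refine ⟨1, one_ne_zero, hbig1, ?_⟩
        have hsub : S ⊆ (S.filter (fun P => a2 * P.1 ^ 2 + a1 * P.1 + a0 = 0)) ∪
            (S.filter (fun P => a2 * P.2 + b2 = 0)) := by
          intro P hP
          have := key P hP
          rw [h1, h0, zero_mul, zero_add, neg_zero] at this
          rcases mul_eq_zero.mp this with h' | h'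
          · exact Finset.mem_union_left _ (Finset.mem_filter.mpr ⟨hP, h'⟩)
          · exact Finset.mem_union_right _ (Finset.mem_filter.mpr ⟨hP, h'⟩)
        have c1 := Finset.card_le_card hsub
        have c2 := Finset.card_union_le (S.filter (fun P => a2 * P.1 ^ 2 + a1 * P.1 + a0 = 0))
          (S.filter (fun P => a2 * P.2 + b2 = 0))
        have c3 := h.fiber_quad (b := a1) (c := a0) h2 0
        have c4 := h.fiber_snd (b := b2) h2 0
        omega
      · refine ⟨e0, h0, hfin5 e0 (by nlinarith), ?_⟩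
        have := card_le_of_dvd S (fun P => a2 * P.1 ^ 2 + a1 * P.1 + a0) 2 e0 h0
          (fun P hP => by
            have := key P hP
            rw [h1, zero_mul, zero_add] at this
            exact (dvd_neg (a := (a2 * P.1 ^ 2 + a1 * P.1 + a0))).mp (Dvd.intro _ this))
          (fun y => h.fiber_quad h2 y)
        omega
    · set ρ := a2 * e0 ^ 2 - a1 * e0 * e1 + a0 * e1 ^ 2 with hρ
      have hρb : |ρ| ≤ 12 * T ^ 5 := by
        have q0 : |e0 ^ 2| ≤ (2 * T ^ 2) * (2 * T ^ 2) := by rw [pow_two]; exact abs_mul_le be0 be0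
        have q1 : |e1 ^ 2| ≤ (2 * T ^ 2) * (2 * T ^ 2) := by rw [pow_two]; exact abs_mul_le be1 be1
        have k1 : |a2 * e0 ^ 2| ≤ T * ((2 * T ^ 2) * (2 * T ^ 2)) := abs_mul_le ta2 q0
        have k2 : |a1 * e0 * e1| ≤ T * (2 * T ^ 2) * (2 * T ^ 2) :=
          abs_mul_le (abs_mul_le ta1 be0) be1
        have k3 : |a0 * e1 ^ 2| ≤ T * ((2 * T ^ 2) * (2 * T ^ 2)) := abs_mul_le ta0 q1
        calc |ρ| ≤ T * ((2 * T ^ 2) * (2 * T ^ 2)) + T * (2 * T ^ 2) * (2 * T ^ 2)
              + T * ((2 * T ^ 2) * (2 * T ^ 2)) := abs_add_le' (abs_sub_le' k1 k2) k3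
          _ = 12 * T ^ 5 := by ring
      by_cases hρ0 : ρ = 0
      · set S1 := S.filter (fun P => e1 * P.1 + e0 = 0) with hS1
        set S2 := S.filter (fun P => ¬ (e1 * P.1 + e0 = 0)) with hS2
        have c1 : S1.card ≤ 1 := h.fiber_fst h1 0
        have hconf2 : Conf p A B C M S2 := h.subset (Finset.filter_subset _ _)
        obtain ⟨D, hD0, hDb, hDc⟩ := hconf2.card_bilinear hM (α := a2 ^ 2 * e1)
          (β := a2 * e1 * b2)
          (γ := (a1 * e1 - a2 * e0) * a2) (δ := (a1 * e1 - a2 * e0) * b2 + e1 ^ 2) (by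
            rintro ⟨h', _, _, _⟩
            rcases mul_eq_zero.mp h' with h'' | h''
            · exact h2 (pow_eq_zero_iff (two_ne_zero) |>.mp h'')
            · exact h1 h'') (by
            intro P hP
            rw [hS2, Finset.mem_filter] at hP
            have hk := key P hP.1
            have : (e1 * P.1 + e0) * ((a2 * e1 * P.1 + a1 * e1 - a2 * e0) * (a2 * P.2 + b2)
                + e1 ^ 2) = 0 := by
              have hid : e1 ^ 2 * (a2 * P.1 ^ 2 + a1 * P.1 + a0) =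
                  (e1 * P.1 + e0) * (a2 * e1 * P.1 + a1 * e1 - a2 * e0) + ρ := by
                rw [hρ]; ring
              rw [hρ0, add_zero] at hid
              linear_combination (-(a2 * P.2 + b2)) * hid + e1 ^ 2 * hk
            have h3 := (mul_eq_zero.mp this).resolve_left hP.2
            linear_combination h3)
        refine ⟨D, hD0, hbig6 D hDb, ?_⟩
        have hsum : S.card = S1.card + S2.card := by
          rw [hS1, hS2]; exact (Finset.card_filter_add_card_filter_not _).symm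
        omega
      · refine ⟨ρ, hρ0, hfin5 ρ hρb, ?_⟩
        have := card_le_of_dvd S (fun P => a2 * P.1 ^ 2 + a1 * P.1 + a0) 2 ρ hρ0
          (fun P hP => by
            have hk := key P hP
            refine Dvd.intro (e1 ^ 2 + (a2 * P.2 + b2) * (a2 * e1 * P.1 + a1 * e1 - a2 * e0)) ?_
            rw [hρ]
            linear_combination (a2 * e1 * P.1 + a1 * e1 - a2 * e0) * hk)
          (fun y => h.fiber_quad h2 y)
        omega

end Conf

end Pool.Agent.Helper20
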