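import Mathlib
import Pool.Agent.Helper20.HypQuadLin

set_option autoImplicit false

namespace Pool.Agent.Helper20

open Finset Polynomial

/-- evaluation vector for the monomials of bidegree at most `(2,2)` -/
def v9 (P : ℤ × ℤ) : Fin 9 → ℤ :=
  ![1, P.1, P.1 ^ 2, P.2, P.2 ^ 2, P.1 * P.2, P.1 ^ 2 * P.2, P.1 * P.2 ^ 2, P.1 ^ 2 * P.2 ^ 2]

/-- quadratic polynomial -/
noncomputable def qp (c0 c1 c2 : ℚ) : ℚ[X] := C c0 + C c1 * X + C c2 * X ^ 2

theorem qp_natDegree (c0 c1 c2 : ℚ) : (qp c0 c1 c2).natDegree ≤ 2 := by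
  unfold qp; compute_degree

theorem qp_eval (c0 c1 c2 x : ℚ) : (qp c0 c1 c2).eval x = c0 + c1 * x + c2 * x ^ 2 := by
  simp [qp]

theorem qp_eq_zero {c0 c1 c2 : ℚ} (h : qp c0 c1 c2 = 0) : c0 = 0 ∧ c1 = 0 ∧ c2 = 0 := by
  have e0 := congrArg (fun f => coeff f 0) h
  have e1 := congrArg (fun f => coeff f 1) h
  have e2 := congrArg (fun f => coeff f 2) h
  simp [qp, coeff_X, coeff_C] at e0 e1 e2
  exact ⟨e0, e1, e2⟩

theorem eq_qp_of_natDegree {f : ℚ[X]} (hf : f.natDegree ≤ 2) :
    f = qp (f.coeff 0) (f.coeff 1) (f.coeff 2) := by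
  have := f.as_sum_range_C_mul_X_pow' (n := 3) (by omega)
  conv_lhs => rw [this]
  simp [Finset.sum_range_succ, qp]

theorem eval_of_natDegree {f : ℚ[X]} (hf : f.natDegree ≤ 2) (x : ℚ) :
    f.eval x = f.coeff 0 + f.coeff 1 * x + f.coeff 2 * x ^ 2 := by
  conv_lhs => rw [eq_qp_of_natDegree hf, qp_eval]

theorem all9 {f : Fin 9 → ℚ} (h0 : f 0 = 0) (h1 : f 1 = 0) (h2 : f 2 = 0) (h3 : f 3 = 0)
    (h4 : f 4 = 0) (h5 : f 5 = 0) (h6 : f 6 = 0) (h7 : f 7 = 0) (h8 : f 8 = 0) :
    ∀ j, f j = 0 := by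
  intro j
  fin_cases j
  exacts [h0, h1, h2, h3, h4, h5, h6, h7, h8]

theorem sum_v9 {R : Type*} [Ring R] (g : Fin 9 → R) (P : ℤ × ℤ) :
    ∑ j, g j * ((v9 P j : ℤ) : R) = g 0 + g 1 * P.1 + g 2 * P.1 ^ 2 + g 3 * P.2 + g 4 * P.2 ^ 2
      + g 5 * (P.1 * P.2) + g 6 * (P.1 ^ 2 * P.2) + g 7 * (P.1 * P.2 ^ 2)
      + g 8 * (P.1 ^ 2 * P.2 ^ 2) := by
  have h0 : v9 P 0 = 1 := rfl
  have h1 : v9 P 1 = P.1 := rfl
  have h2 : v9 P 2 = P.1 ^ 2 := rfl
  have h3 : v9 P 3 = P.2 := rfl
  have h4 : v9 P 4 = P.2 ^ 2 := rfl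
  have h5 : v9 P 5 = P.1 * P.2 := rfl
  have h6 : v9 P 6 = P.1 ^ 2 * P.2 := rfl
  have h7 : v9 P 7 = P.1 * P.2 ^ 2 := rfl
  have h8 : v9 P 8 = P.1 ^ 2 * P.2 ^ 2 := rfl
  rw [Fin.sum_univ_castSucc, Fin.sum_univ_eight]
  show g 0 * ((v9 P 0 : ℤ) : R) + g 1 * ((v9 P 1 : ℤ) : R) + g 2 * ((v9 P 2 : ℤ) : R)
    + g 3 * ((v9 P 3 : ℤ) : R) + g 4 * ((v9 P 4 : ℤ) : R) + g 5 * ((v9 P 5 : ℤ) : R)
    + g 6 * ((v9 P 6 : ℤ) : R) + g 7 * ((v9 P 7 : ℤ) : R) + g 8 * ((v9 P 8 : ℤ) : R) = _
  rw [h0, h1, h2, h3, h4, h5, h6, h7, h8]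
  push_cast
  rw [mul_one]

theorem sum_v9_int (g : Fin 9 → ℤ) (P : ℤ × ℤ) :
    ∑ j, g j * v9 P j = g 0 + g 1 * P.1 + g 2 * P.1 ^ 2 + g 3 * P.2 + g 4 * P.2 ^ 2
      + g 5 * (P.1 * P.2) + g 6 * (P.1 ^ 2 * P.2) + g 7 * (P.1 * P.2 ^ 2)
      + g 8 * (P.1 ^ 2 * P.2 ^ 2) := by
  have := sum_v9 g P
  simpa using this

namespace Conf

variable {p : ℕ} {A B C' : ℤ} {M : ℕ} {S : Finset (ℤ × ℤ)}

/-- points with abscissa a root of `f` -/
theorem card_roots_fst (h : Conf p A B C' M S) (f : ℚ[X]) (hf : f ≠ 0) (n : ℕ)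
    (hn : f.natDegree ≤ n) (hS : ∀ P ∈ S, f.eval (P.1 : ℚ) = 0) : S.card ≤ n := by
  by_contra hcon
  push Not at hcon
  apply hf
  apply eq_zero_of_natDegree_lt_card_of_eval_eq_zero' f (S.image (fun P => (P.1 : ℚ)))
  · intro i hi
    obtain ⟨P, hP, rfl⟩ := Finset.mem_image.mp hi
    exact hS P hP
  · rw [Finset.card_image_of_injOn]
    · omega
    · intro P hP Q hQ he
      have he' : (P.1 : ℚ) = Q.1 := he
      exact h.inj1 hP hQ (by exact_mod_cast he')

/-- `(2,1)`-type curve given by polynomials -/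
theorem card_quadlin_poly (h : Conf p A B C' M S) (hM : 1 ≤ M) (α β : ℚ[X])
    (hα : α.natDegree ≤ 2) (hβ : β.natDegree ≤ 2) (hne : ¬ (α = 0 ∧ β = 0))
    (hS : ∀ P ∈ S, α.eval (P.1 : ℚ) * P.2 + β.eval (P.1 : ℚ) = 0) :
    ∃ D : ℤ, D ≠ 0 ∧ |D| ≤ 12 * 6 ^ 30 * (M : ℤ) ^ 90 ∧ S.card ≤ 4 * dv D + 4 := by
  apply h.card_quadlin hM (![β.coeff 0, β.coeff 1, β.coeff 2, α.coeff 0, α.coeff 1, α.coeff 2])
  · intro h0
    apply hne
    have e0 := congrFun h0 0
    have e1 := congrFun h0 1
    have e2 := congrFun h0 2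
    have e3 := congrFun h0 3
    have e4 := congrFun h0 4
    have e5 := congrFun h0 5
    simp at e0 e1 e2 e3 e4 e5
    constructor
    · rw [eq_qp_of_natDegree hα, e3, e4, e5]; simp [qp]
    · rw [eq_qp_of_natDegree hβ, e0, e1, e2]; simp [qp]
  · intro P hP
    have := hS P hP
    rw [eval_of_natDegree hα, eval_of_natDegree hβ] at this
    rw [Fin.sum_univ_six]
    simp only [v6, Matrix.cons_val_zero, Matrix.cons_val_one, Matrix.cons_val]
    push_cast
    linear_combination this

/-- `(1,2)`-type curve given by polynomials -/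
theorem card_linquad_poly (h : Conf p A B C' M S) (hM : 1 ≤ M) (a b c : ℚ[X])
    (ha : a.natDegree ≤ 1) (hb : b.natDegree ≤ 1) (hc : c.natDegree ≤ 1)
    (hne : ¬ (a = 0 ∧ b = 0 ∧ c = 0))
    (hS : ∀ P ∈ S, a.eval (P.1 : ℚ) * P.2 ^ 2 + b.eval (P.1 : ℚ) * P.2 + c.eval (P.1 : ℚ) = 0) :
    ∃ D : ℤ, D ≠ 0 ∧ |D| ≤ 12 * 6 ^ 30 * (M : ℤ) ^ 90 ∧ S.card ≤ 4 * dv D + 4 := by
  have ha' : a.coeff 2 = 0 := coeff_eq_zero_of_natDegree_lt (by omega)
  have hb' : b.coeff 2 = 0 := coeff_eq_zero_of_natDegree_lt (by omega)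
  have hc' : c.coeff 2 = 0 := coeff_eq_zero_of_natDegree_lt (by omega)
  rw [← card_swap S]
  apply h.swap.card_quadlin hM
    (![c.coeff 0, b.coeff 0, a.coeff 0, c.coeff 1, b.coeff 1, a.coeff 1])
  · intro h0
    apply hne
    have e0 := congrFun h0 0
    have e1 := congrFun h0 1
    have e2 := congrFun h0 2
    have e3 := congrFun h0 3
    have e4 := congrFun h0 4
    have e5 := congrFun h0 5
    simp at e0 e1 e2 e3 e4 e5
    refine ⟨?_, ?_, ?_⟩
    · rw [eq_qp_of_natDegree (f := a) (by omega), e2, e5, ha']; simp [qp]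
    · rw [eq_qp_of_natDegree (f := b) (by omega), e1, e4, hb']; simp [qp]
    · rw [eq_qp_of_natDegree (f := c) (by omega), e0, e3, hc']; simp [qp]
  · intro P hP
    obtain ⟨Q, hQ, rfl⟩ := Finset.mem_image.mp hP
    have := hS Q hQ
    rw [eval_of_natDegree (f := a) (by omega), eval_of_natDegree (f := b) (by omega),
      eval_of_natDegree (f := c) (by omega), ha', hb', hc'] at this
    rw [Fin.sum_univ_six]
    simp only [v6, Matrix.cons_val_zero, Matrix.cons_val_one, Matrix.cons_val, Prod.fst_swap,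
      Prod.snd_swap]
    push_cast
    linear_combination this

/-- Points lying on two independent curves of bidegree `(2,2)`. -/
theorem card_two_curves (h : Conf p A B C' M S) (hM : 1 ≤ M) (g g' : Fin 9 → ℚ)
    (hind : ∀ r s : ℚ, (∀ j, r * g j + s * g' j = 0) → r = 0 ∧ s = 0)
    (hg : ∀ P ∈ S, ∑ j, g j * (v9 P j : ℚ) = 0)
    (hg' : ∀ P ∈ S, ∑ j, g' j * (v9 P j : ℚ) = 0) :
    ∃ D : ℤ, D ≠ 0 ∧ |D| ≤ 12 * 6 ^ 30 * (M : ℤ) ^ 90 ∧ S.card ≤ 4 * dv D + 8 := by
  set a1 := qp (g 4) (g 7) (g 8) with ha1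
  set b1 := qp (g 3) (g 5) (g 6) with hb1
  set c1 := qp (g 0) (g 1) (g 2) with hc1
  set a2 := qp (g' 4) (g' 7) (g' 8) with ha2
  set b2 := qp (g' 3) (g' 5) (g' 6) with hb2
  set c2 := qp (g' 0) (g' 1) (g' 2) with hc2
  have da1 : a1.natDegree ≤ 2 := qp_natDegree _ _ _
  have db1 : b1.natDegree ≤ 2 := qp_natDegree _ _ _
  have dc1 : c1.natDegree ≤ 2 := qp_natDegree _ _ _
  have da2 : a2.natDegree ≤ 2 := qp_natDegree _ _ _
  have db2 : b2.natDegree ≤ 2 := qp_natDegree _ _ _
  have dc2 : c2.natDegree ≤ 2 := qp_natDegree _ _ _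
  have hG1 : ∀ P ∈ S, a1.eval (P.1 : ℚ) * P.2 ^ 2 + b1.eval (P.1 : ℚ) * P.2
      + c1.eval (P.1 : ℚ) = 0 := by
    intro P hP
    have := hg P hP
    rw [sum_v9] at this
    rw [ha1, hb1, hc1, qp_eval, qp_eval, qp_eval]
    linear_combination this
  have hG2 : ∀ P ∈ S, a2.eval (P.1 : ℚ) * P.2 ^ 2 + b2.eval (P.1 : ℚ) * P.2
      + c2.eval (P.1 : ℚ) = 0 := by
    intro P hP
    have := hg' P hP
    rw [sum_v9] at this
    rw [ha2, hb2, hc2, qp_eval, qp_eval, qp_eval]
    linear_combination this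
  have hnz1 : ¬ (a1 = 0 ∧ b1 = 0 ∧ c1 = 0) := by
    rintro ⟨h1, h2, h3⟩
    obtain ⟨e4, e7, e8⟩ := qp_eq_zero h1
    obtain ⟨e3, e5, e6⟩ := qp_eq_zero h2
    obtain ⟨e0, e1, e2⟩ := qp_eq_zero h3
    have := hind 1 0 (all9 (by simp only [e0]; ring) (by simp only [e1]; ring)
      (by simp only [e2]; ring) (by simp only [e3]; ring) (by simp only [e4]; ring)
      (by simp only [e5]; ring) (by simp only [e6]; ring) (by simp only [e7]; ring)
      (by simp only [e8]; ring))
    exact one_ne_zero this.1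
  have hnz2 : ¬ (a2 = 0 ∧ b2 = 0 ∧ c2 = 0) := by
    rintro ⟨h1, h2, h3⟩
    obtain ⟨e4, e7, e8⟩ := qp_eq_zero h1
    obtain ⟨e3, e5, e6⟩ := qp_eq_zero h2
    obtain ⟨e0, e1, e2⟩ := qp_eq_zero h3
    have := hind 0 1 (all9 (by simp only [e0]; ring) (by simp only [e1]; ring)
      (by simp only [e2]; ring) (by simp only [e3]; ring) (by simp only [e4]; ring)
      (by simp only [e5]; ring) (by simp only [e6]; ring) (by simp only [e7]; ring)
      (by simp only [e8]; ring))
    exact one_ne_zero this.2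
  set D1 := a1 * b2 - a2 * b1 with hD1
  set D2 := a1 * c2 - a2 * c1 with hD2
  set D3 := b1 * c2 - b2 * c1 with hD3
  have dmul : ∀ {f f' : ℚ[X]} {m n : ℕ}, f.natDegree ≤ m → f'.natDegree ≤ n →
      (f * f').natDegree ≤ m + n := fun h1 h2 => natDegree_mul_le.trans (add_le_add h1 h2)
  have dD1 : D1.natDegree ≤ 4 := (natDegree_sub_le _ _).trans (max_le (dmul da1 db2) (dmul da2 db1))
  have dD2 : D2.natDegree ≤ 4 := (natDegree_sub_le _ _).trans (max_le (dmul da1 dc2) (dmul da2 dc1))
  have dD3 : D3.natDegree ≤ 4 := (natDegree_sub_le _ _).trans (max_le (dmul db1 dc2) (dmul db2 dc1))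
  have hlin : ∀ P ∈ S, D1.eval (P.1 : ℚ) * P.2 + D2.eval (P.1 : ℚ) = 0 := by
    intro P hP
    have e1 := hG1 P hP
    have e2 := hG2 P hP
    rw [hD1, hD2]; simp only [eval_sub, eval_mul]
    linear_combination a1.eval (P.1 : ℚ) * e2 - a2.eval (P.1 : ℚ) * e1
  have hone : |(1 : ℤ)| ≤ 12 * 6 ^ 30 * (M : ℤ) ^ 90 := by
    have hM' : (1 : ℤ) ≤ M := by exact_mod_cast hM
    rw [abs_one]
    have : (1 : ℤ) ≤ (M : ℤ) ^ 90 := one_le_pow₀ hM'
    have h2 : (1 : ℤ) ≤ 12 * 6 ^ 30 := by norm_num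
    nlinarith
  by_cases hR : D2 ^ 2 - D1 * D3 = 0
  · by_cases hD10 : D1 = 0
    · -- proportional
      have hD20 : D2 = 0 := by
        rw [hD10, zero_mul, sub_zero] at hR
        exact pow_eq_zero_iff two_ne_zero |>.mp hR
      by_cases haa : a1 = 0 ∧ a2 = 0
      · obtain ⟨D, h1, h2, h3⟩ := h.card_quadlin_poly hM b1 c1 db1 dc1 (by
          rintro ⟨e1, e2⟩; exact hnz1 ⟨haa.1, e1, e2⟩) (by
          intro P hP
          have := hG1 P hP
          rw [haa.1, eval_zero] at this
          linear_combination this)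
        exact ⟨D, h1, h2, by omega⟩
      · -- common factor structure
        obtain ⟨α1, α2, hα1, hα2, hu⟩ := extract_gcd a1 a2
        set d := gcd a1 a2 with hd
        have hcop : IsCoprime α1 α2 := (gcd_isUnit_iff α1 α2).mp hu
        have hd0 : d ≠ 0 := by
          intro h0
          apply haa
          rw [hα1, hα2, h0]; simp
        have e1 : α1 * b2 = α2 * b1 := by
          have : d * (α1 * b2 - α2 * b1) = 0 := by
            rw [hD1] at hD10
            calc d * (α1 * b2 - α2 * b1) = (d * α1) * b2 - (d * α2) * b1 := by ring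
              _ = 0 := by rw [← hα1, ← hα2]; exact hD10
          exact sub_eq_zero.mp ((mul_eq_zero.mp this).resolve_left hd0)
        have e2 : α1 * c2 = α2 * c1 := by
          have : d * (α1 * c2 - α2 * c1) = 0 := by
            rw [hD2] at hD20
            calc d * (α1 * c2 - α2 * c1) = (d * α1) * c2 - (d * α2) * c1 := by ring
              _ = 0 := by rw [← hα1, ← hα2]; exact hD20
          exact sub_eq_zero.mp ((mul_eq_zero.mp this).resolve_left hd0)
        -- not both `αi` vanish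
        obtain ⟨b', hb1', hb2'⟩ : ∃ b', b1 = α1 * b' ∧ b2 = α2 * b' := by
          have h1 : α1 ∣ α2 * b1 := Dvd.intro _ e1
          obtain ⟨b', hb'⟩ := hcop.dvd_of_dvd_mul_left h1
          refine ⟨b', hb', ?_⟩
          by_cases hz : α1 = 0
          · have hunit : IsUnit α2 := by
              rw [hz] at hcop; exact isCoprime_zero_left.mp hcop
            rw [hz, zero_mul] at hb'
            -- then b1 = 0; choose other witness impossible: treat separately
            obtain ⟨u, hu'⟩ := hunit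
            exfalso
            -- a1 = 0, b1 = 0, and c1 = 0
            apply hnz1
            refine ⟨by rw [hα1, hz, mul_zero], hb', ?_⟩
            rw [hz, zero_mul] at e2
            have := (mul_eq_zero.mp e2.symm).resolve_left (by rw [← hu']; exact u.ne_zero)
            exact this
          · have : α1 * b2 = α1 * (α2 * b') := by rw [e1, hb']; ring
            exact mul_left_cancel₀ hz this
        obtain ⟨c', hc1', hc2'⟩ : ∃ c', c1 = α1 * c' ∧ c2 = α2 * c' := by
          have h1 : α1 ∣ α2 * c1 := Dvd.intro _ e2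
          obtain ⟨c', hc'⟩ := hcop.dvd_of_dvd_mul_left h1
          refine ⟨c', hc', ?_⟩
          by_cases hz : α1 = 0
          · exfalso
            apply hnz1
            refine ⟨by rw [hα1, hz, mul_zero], by rw [hb1', hz, zero_mul], by rw [hc', hz, zero_mul]⟩
          · have : α1 * c2 = α1 * (α2 * c') := by rw [e2, hc']; ring
            exact mul_left_cancel₀ hz this
        have hα10 : α1 ≠ 0 := by
          intro hz
          apply hnz1
          exact ⟨by rw [hα1, hz, mul_zero], by rw [hb1', hz, zero_mul],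
            by rw [hc1', hz, zero_mul]⟩
        have hα20 : α2 ≠ 0 := by
          intro hz
          apply hnz2
          exact ⟨by rw [hα2, hz, mul_zero], by rw [hb2', hz, zero_mul],
            by rw [hc2', hz, zero_mul]⟩
        have hnz' : ¬ (d = 0 ∧ b' = 0 ∧ c' = 0) := fun hh => hd0 hh.1
        -- general step: if `α` is nonconstant and `G = α G'` has degree at most two
        have step : ∀ α : ℚ[X], α ≠ 0 → 1 ≤ α.natDegree → (α * d).natDegree ≤ 2 →
            (α * b').natDegree ≤ 2 → (α * c').natDegree ≤ 2 →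
            (∀ P ∈ S, (α * d).eval (P.1 : ℚ) * P.2 ^ 2 + (α * b').eval (P.1 : ℚ) * P.2
              + (α * c').eval (P.1 : ℚ) = 0) →
            ∃ D : ℤ, D ≠ 0 ∧ |D| ≤ 12 * 6 ^ 30 * (M : ℤ) ^ 90 ∧ S.card ≤ 4 * dv D + 8 := by
          intro α hα hα1 h1 h2 h3 hS
          have deg1 : ∀ f : ℚ[X], (α * f).natDegree ≤ 2 → f.natDegree ≤ 1 := by
            intro f hf
            by_cases hf0 : f = 0
            · rw [hf0]; simp
            · rw [natDegree_mul hα hf0] at hf; omega
          have dα : α.natDegree ≤ 2 := by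
            rw [natDegree_mul hα hd0] at h1; omega
          set S1 := S.filter (fun P => α.eval (P.1 : ℚ) = 0) with hS1
          set S2 := S.filter (fun P => ¬ (α.eval (P.1 : ℚ) = 0)) with hS2
          have hsum : S.card = S1.card + S2.card := by
            rw [hS1, hS2]; exact (Finset.card_filter_add_card_filter_not _).symm
          have c1 : S1.card ≤ 2 := (h.subset (Finset.filter_subset _ _)).card_roots_fst α hα 2 dα
            (by intro P hP; exact (Finset.mem_filter.mp hP).2)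
          have hconf2 : Conf p A B C' M S2 := h.subset (Finset.filter_subset _ _)
          obtain ⟨D, hD0, hDb, hDc⟩ :=
            hconf2.card_linquad_poly hM d b' c'
              (deg1 _ h1) (deg1 _ h2) (deg1 _ h3) hnz' (by
                intro P hP
                rw [hS2, Finset.mem_filter] at hP
                have := hS P hP.1
                simp only [eval_mul] at this
                have h4 : α.eval (P.1 : ℚ) * (d.eval (P.1 : ℚ) * P.2 ^ 2
                  + b'.eval (P.1 : ℚ) * P.2 + c'.eval (P.1 : ℚ)) = 0 := by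
                  linear_combination this
                exact (mul_eq_zero.mp h4).resolve_left hP.2)
          exact ⟨D, hD0, hDb, by omega⟩
        by_cases hk1 : 1 ≤ α1.natDegree
        · apply step α1 hα10 hk1
          · rw [mul_comm, ← hα1]; exact da1
          · rw [← hb1']; exact db1
          · rw [← hc1']; exact dc1
          · intro P hP
            have := hG1 P hP
            rw [hα1, hb1', hc1'] at this
            rw [mul_comm α1 d]; exact this
        · by_cases hk2 : 1 ≤ α2.natDegree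
          · apply step α2 hα20 hk2
            · rw [mul_comm, ← hα2]; exact da2
            · rw [← hb2']; exact db2
            · rw [← hc2']; exact dc2
            · intro P hP
              have := hG2 P hP
              rw [hα2, hb2', hc2'] at this
              rw [mul_comm α2 d]; exact this
          · -- both constant: dependent
            exfalso
            obtain ⟨r1, hr1⟩ : ∃ r, α1 = C r := ⟨_, eq_C_of_natDegree_eq_zero (by omega)⟩
            obtain ⟨r2, hr2⟩ : ∃ r, α2 = C r := ⟨_, eq_C_of_natDegree_eq_zero (by omega)⟩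
            have hr1' : r1 ≠ 0 := by
              intro h0; apply hα10; rw [hr1, h0, C_0]
            have k1 : C r2 * a1 - C r1 * a2 = 0 := by
              rw [hα1, hα2, hr1, hr2]; ring
            have k2 : C r2 * b1 - C r1 * b2 = 0 := by
              rw [hb1', hb2', hr1, hr2]; ring
            have k3 : C r2 * c1 - C r1 * c2 = 0 := by
              rw [hc1', hc2', hr1, hr2]; ring
            have cf : ∀ {x0 x1 x2 y0 y1 y2 : ℚ}, C r2 * qp x0 x1 x2 - C r1 * qp y0 y1 y2 = 0 →
                r2 * x0 + (-r1) * y0 = 0 ∧ r2 * x1 + (-r1) * y1 = 0 ∧ r2 * x2 + (-r1) * y2 = 0 := by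
              intro x0 x1 x2 y0 y1 y2 hh
              have hq : qp (r2 * x0 + (-r1) * y0) (r2 * x1 + (-r1) * y1) (r2 * x2 + (-r1) * y2) = 0 := by
                rw [← hh]; simp only [qp, map_add, map_mul, map_neg]; ring
              exact qp_eq_zero hq
            obtain ⟨f4, f7, f8⟩ := cf k1
            obtain ⟨f3, f5, f6⟩ := cf k2
            obtain ⟨f0, f1, f2⟩ := cf k3
            have := hind r2 (-r1) (all9 f0 f1 f2 f3 f4 f5 f6 f7 f8)
            exact hr1' (neg_eq_zero.mp this.2)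
    · -- D1 ≠ 0
      obtain ⟨α, β, hα, hβ, hu⟩ := extract_gcd D1 D2
      set d := gcd D1 D2 with hd
      have hcop : IsCoprime α β := (gcd_isUnit_iff α β).mp hu
      have hd0 : d ≠ 0 := by
        intro h0; apply hD10; rw [hα, h0, zero_mul]
      have hα0 : α ≠ 0 := by
        intro h0; apply hD10; rw [hα, h0, mul_zero]
      have e1 : d * β ^ 2 = α * D3 := by
        have : d * (d * β ^ 2 - α * D3) = 0 := by
          calc d * (d * β ^ 2 - α * D3) = (d * β) ^ 2 - (d * α) * D3 := by ring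
            _ = 0 := by rw [← hα, ← hβ]; exact hR
        exact sub_eq_zero.mp ((mul_eq_zero.mp this).resolve_left hd0)
      have e2 : α ∣ d := by
        have h1 : α ∣ d * β ^ 2 := Dvd.intro _ e1.symm
        exact (hcop.pow_right (n := 2)).dvd_of_dvd_mul_right h1
      obtain ⟨k, hk⟩ := e2
      have hk0 : k ≠ 0 := by
        intro h0; apply hd0; rw [hk, h0, mul_zero]
      have hD1' : D1 = α * k * α := by rw [hα, hk]
      have hD3' : D3 = k * (β * β) := by
        have : α * D3 = α * (k * (β * β)) := by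
          rw [← e1, hk]; ring
        exact mul_left_cancel₀ hα0 this
      have dα : α.natDegree ≤ 2 := by
        have := dD1
        rw [hD1', natDegree_mul (mul_ne_zero hα0 hk0) hα0, natDegree_mul hα0 hk0] at this
        omega
      have dβ : β.natDegree ≤ 2 := by
        by_cases hβ0 : β = 0
        · rw [hβ0]; simp
        · have := dD3
          rw [hD3', natDegree_mul hk0 (mul_ne_zero hβ0 hβ0), natDegree_mul hβ0 hβ0] at this
          omega
      have dd : d.natDegree ≤ 4 := by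
        have := dD1
        rw [hα, natDegree_mul hd0 hα0] at this
        omega
      set S1 := S.filter (fun P => d.eval (P.1 : ℚ) = 0) with hS1
      set S2 := S.filter (fun P => ¬ (d.eval (P.1 : ℚ) = 0)) with hS2
      have hsum : S.card = S1.card + S2.card := by
        rw [hS1, hS2]; exact (Finset.card_filter_add_card_filter_not _).symm
      have c1 : S1.card ≤ 4 := (h.subset (Finset.filter_subset _ _)).card_roots_fst d hd0 4 dd
        (by intro P hP; exact (Finset.mem_filter.mp hP).2)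
      have hconf2 : Conf p A B C' M S2 := h.subset (Finset.filter_subset _ _)
      obtain ⟨D, hD0, hDb, hDc⟩ :=
        hconf2.card_quadlin_poly hM α β dα dβ
          (fun hh => hα0 hh.1) (by
            intro P hP
            rw [hS2, Finset.mem_filter] at hP
            have := hlin P hP.1
            rw [hα, hβ, eval_mul, eval_mul] at this
            have h4 : d.eval (P.1 : ℚ) * (α.eval (P.1 : ℚ) * P.2 + β.eval (P.1 : ℚ)) = 0 := by
              linear_combination this
            exact (mul_eq_zero.mp h4).resolve_left hP.2)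
      exact ⟨D, hD0, hDb, by omega⟩
  · -- resultant nonzero
    refine ⟨1, one_ne_zero, hone, ?_⟩
    have : S.card ≤ 8 := by
      apply h.card_roots_fst (D2 ^ 2 - D1 * D3) hR 8
      · refine (natDegree_sub_le _ _).trans (max_le ?_ (dmul dD1 dD3))
        rw [pow_two]; exact dmul dD2 dD2
      · intro P hP
        have e1 := hlin P hP
        have e2 := hG1 P hP
        have e3 := hG2 P hP
        have e4 : D1.eval (P.1 : ℚ) * P.2 ^ 2 = D3.eval (P.1 : ℚ) := by
          rw [hD1, hD3]; simp only [eval_sub, eval_mul]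
          linear_combination -(b1.eval (P.1 : ℚ)) * e3 + b2.eval (P.1 : ℚ) * e2
        simp only [eval_sub, eval_mul, eval_pow]
        have e5 : D2.eval (P.1 : ℚ) = - (D1.eval (P.1 : ℚ) * P.2) := by linear_combination e1
        rw [e5, ← e4]; ring
    omega

end Conf

end Pool.Agent.Helper20
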