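import Mathlib
import Pool.Agent.Helper20.HypElim

set_option autoImplicit false

namespace Pool.Agent.Helper20

open Finset

/-- unimodular change of basis from the monomials to
`1, x, x^2, y, y^2, F, xF, yF, F^2` with `F = xy + A x + B y + C`. -/
def Umat (A B C : ℤ) : Matrix (Fin 9) (Fin 9) ℤ :=
  !![1,0,0,0,0,C,0,0,C^2;
     0,1,0,0,0,A,C,0,2*A*C;
     0,0,1,0,0,0,A,0,A^2;
     0,0,0,1,0,B,0,C,2*B*C;
     0,0,0,0,1,0,0,B,B^2;
     0,0,0,0,0,1,B,A,2*C+2*A*B;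
     0,0,0,0,0,0,1,0,2*A;
     0,0,0,0,0,0,0,1,2*B;
     0,0,0,0,0,0,0,0,1]

theorem det_Umat (A B C : ℤ) : (Umat A B C).det = 1 := by
  have : (Umat A B C).IsUpperTriangular := by
    intro i j hij
    fin_cases i <;> fin_cases j <;> first | rfl | (exact absurd hij (by decide))
  rw [Matrix.det_of_isUpperTriangular this]
  apply Finset.prod_eq_one
  intro i _
  fin_cases i <;> rfl

theorem sum_fin9 (f : Fin 9 → ℤ) :
    ∑ i, f i = f 0 + f 1 + f 2 + f 3 + f 4 + f 5 + f 6 + f 7 + f 8 := by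
  rw [Fin.sum_univ_castSucc, Fin.sum_univ_eight]; rfl

/-- coordinates after the change of basis -/
def uv (A B C : ℤ) (w : Fin 9 → ℤ) : Fin 9 → ℤ :=
  ![w 0, w 1, w 2, w 3, w 4,
    C * w 0 + A * w 1 + B * w 3 + w 5,
    C * w 1 + A * w 2 + B * w 5 + w 6,
    C * w 3 + A * w 5 + B * w 4 + w 7,
    C ^ 2 * w 0 + 2 * A * C * w 1 + A ^ 2 * w 2 + 2 * B * C * w 3 + B ^ 2 * w 4
      + (2 * C + 2 * A * B) * w 5 + 2 * A * w 6 + 2 * B * w 7 + w 8]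

theorem vecMul_Umat (A B C : ℤ) (w : Fin 9 → ℤ) :
    Matrix.vecMul w (Umat A B C) = uv A B C w := by
  ext j
  rw [Matrix.vecMul, dotProduct, sum_fin9]
  fin_cases j <;> simp [Umat, uv] <;> ring

/-- `consRow` followed by the change of basis -/
theorem consRow_mul_Umat (A B C : ℤ) (w : Fin 9 → ℤ) (Mt : Matrix (Fin 8) (Fin 9) ℤ) :
    consRow w Mt * Umat A B C = consRow (uv A B C w) (Matrix.of fun k => uv A B C (Mt k)) := by
  ext i j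
  rw [← vecMul_Umat]
  refine Fin.cases ?_ (fun i => ?_) i
  · rw [consRow_zero, Matrix.mul_apply]
    simp only [consRow_zero, Matrix.vecMul, dotProduct]
  · rw [consRow_succ, Matrix.mul_apply]
    simp only [consRow_succ, Matrix.of_apply, ← vecMul_Umat, Matrix.vecMul, dotProduct]

theorem consRow_det_uv (A B C : ℤ) (w : Fin 9 → ℤ) (Mt : Matrix (Fin 8) (Fin 9) ℤ) :
    (consRow (uv A B C w) (Matrix.of fun k => uv A B C (Mt k))).det = ∑ j, w j * mv Mt j := by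
  rw [← consRow_mul_Umat, Matrix.det_mul, det_Umat, mul_one, consRow_det]

theorem uv_v9 (A B C : ℤ) (P : ℤ × ℤ) : uv A B C (v9 P) =
    ![1, P.1, P.1 ^ 2, P.2, P.2 ^ 2, P.1 * P.2 + A * P.1 + B * P.2 + C,
      P.1 * (P.1 * P.2 + A * P.1 + B * P.2 + C), P.2 * (P.1 * P.2 + A * P.1 + B * P.2 + C),
      (P.1 * P.2 + A * P.1 + B * P.2 + C) ^ 2] := by
  ext j
  fin_cases j <;> simp [uv, v9] <;> ring

/-- the `p`-adic weights of the new basis -/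
def wt (p : ℤ) : Fin 9 → ℤ := ![1, 1, 1, 1, 1, p, p, p, p ^ 2]

theorem wt_dvd_uv (p A B C : ℤ) (P : ℤ × ℤ) (h : p ∣ P.1 * P.2 + A * P.1 + B * P.2 + C)
    (j : Fin 9) : wt p j ∣ uv A B C (v9 P) j := by
  rw [uv_v9]
  fin_cases j
  · exact one_dvd _
  · exact one_dvd _
  · exact one_dvd _
  · exact one_dvd _
  · exact one_dvd _
  · exact h
  · exact Dvd.dvd.mul_left h _
  · exact Dvd.dvd.mul_left h _
  · exact pow_dvd_pow_of_dvd h 2

/-- degrees of the monomials -/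
def deg9 : Fin 9 → ℕ := ![0, 1, 2, 1, 2, 2, 3, 3, 4]

theorem abs_v9_le {M : ℕ} (hM : 1 ≤ M) {P : ℤ × ℤ}
    (b : 0 ≤ P.1 ∧ P.1 ≤ (M : ℤ) ∧ 0 ≤ P.2 ∧ P.2 ≤ (M : ℤ)) (j : Fin 9) :
    |v9 P j| ≤ (M : ℤ) ^ deg9 j := by
  have c1 : |P.1| ≤ (M : ℤ) := by rw [abs_of_nonneg b.1]; exact b.2.1
  have c2 : |P.2| ≤ (M : ℤ) := by rw [abs_of_nonneg b.2.2.1]; exact b.2.2.2
  fin_cases j
  · simp [v9, deg9]
  · show |P.1| ≤ (M : ℤ) ^ 1
    rw [pow_one]; exact c1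
  · show |P.1 ^ 2| ≤ (M : ℤ) ^ 2
    rw [pow_two, pow_two]; exact abs_mul_le c1 c1
  · show |P.2| ≤ (M : ℤ) ^ 1
    rw [pow_one]; exact c2
  · show |P.2 ^ 2| ≤ (M : ℤ) ^ 2
    rw [pow_two, pow_two]; exact abs_mul_le c2 c2
  · show |P.1 * P.2| ≤ (M : ℤ) ^ 2
    rw [pow_two]; exact abs_mul_le c1 c2
  · show |P.1 ^ 2 * P.2| ≤ (M : ℤ) ^ 3
    have e : (M : ℤ) ^ 3 = (M : ℤ) * M * M := by ring
    rw [e, pow_two]; exact abs_mul_le (abs_mul_le c1 c1) c2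
  · show |P.1 * P.2 ^ 2| ≤ (M : ℤ) ^ 3
    have e : (M : ℤ) ^ 3 = (M : ℤ) * (M * M) := by ring
    rw [e, pow_two]; exact abs_mul_le c1 (abs_mul_le c2 c2)
  · show |P.1 ^ 2 * P.2 ^ 2| ≤ (M : ℤ) ^ 4
    have e : (M : ℤ) ^ 4 = ((M : ℤ) * M) * (M * M) := by ring
    rw [e, pow_two, pow_two]; exact abs_mul_le (abs_mul_le c1 c1) (abs_mul_le c2 c2)

theorem prod_fin9 (f : Fin 9 → ℤ) :
    ∏ i, f i = f 0 * f 1 * f 2 * f 3 * f 4 * f 5 * f 6 * f 7 * f 8 := by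
  rw [Fin.prod_univ_castSucc, Fin.prod_univ_eight]; rfl

theorem prod_deg9 (x : ℤ) : ∏ j, x ^ deg9 j = x ^ 18 := by
  rw [prod_fin9]
  show x ^ 0 * x ^ 1 * x ^ 2 * x ^ 1 * x ^ 2 * x ^ 2 * x ^ 3 * x ^ 3 * x ^ 4 = x ^ 18
  ring

theorem prod_wt (p : ℤ) : ∏ j, wt p j = p ^ 5 := by
  rw [prod_fin9]
  show 1 * 1 * 1 * 1 * 1 * p * p * p * p ^ 2 = p ^ 5
  ring

/-- evaluation matrix at eight points -/
def M8 (Q : Fin 8 → ℤ × ℤ) : Matrix (Fin 8) (Fin 9) ℤ := Matrix.of fun k => v9 (Q k)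

namespace Conf

variable {p : ℕ} {A B C : ℤ} {M : ℕ} {S : Finset (ℤ × ℤ)}

/-- every `9 × 9` determinant vanishes -/
theorem vanish (h : Conf p A B C M S) (hM : 1 ≤ M) (hsz : 362880 * (M : ℤ) ^ 18 < (p : ℤ) ^ 5)
    (Q : Fin 8 → ℤ × ℤ) (hQ : ∀ k, Q k ∈ S) {P : ℤ × ℤ} (hP : P ∈ S) :
    ∑ j, v9 P j * mv (M8 Q) j = 0 := by
  have h1 : (p : ℤ) ^ 5 ∣ ∑ j, v9 P j * mv (M8 Q) j := by
    rw [← consRow_det_uv A B C, ← prod_wt]
    apply prod_dvd_det_col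
    intro i j
    refine Fin.cases ?_ (fun i => ?_) i
    · rw [consRow_zero]; exact wt_dvd_uv _ A B C P (h.hmod P hP) j
    · rw [consRow_succ]; exact wt_dvd_uv _ A B C (Q i) (h.hmod _ (hQ i)) j
  have h2 : |∑ j, v9 P j * mv (M8 Q) j| ≤ 362880 * (M : ℤ) ^ 18 := by
    rw [← consRow_det]
    have := abs_det_le_col (consRow (v9 P) (M8 Q)) (fun j => (M : ℤ) ^ deg9 j) (by
      intro i j
      refine Fin.cases ?_ (fun i => ?_) i
      · rw [consRow_zero]; exact abs_v9_le hM (h.hbox P hP) j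
      · rw [consRow_succ]; exact abs_v9_le hM (h.hbox _ (hQ i)) j)
    rw [prod_deg9, Fintype.card_fin] at this
    have e : ((Nat.factorial 9 : ℕ) : ℤ) = 362880 := by norm_num [Nat.factorial]
    rw [e] at this
    exact this
  exact Int.eq_zero_of_abs_lt_dvd h1 (lt_of_le_of_lt h2 hsz)

/-- bound for the maximal minors -/
theorem mv_bound (h : Conf p A B C M S) (hM : 1 ≤ M)
    (Q : Fin 8 → ℤ × ℤ) (hQ : ∀ k, Q k ∈ S) (j : Fin 9) :
    |mv (M8 Q) j| * (M : ℤ) ^ deg9 j ≤ 40320 * (M : ℤ) ^ 18 := by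
  have := abs_mv_le (M8 Q) (fun j => (M : ℤ) ^ deg9 j) (fun j => by positivity) (by
    intro i j; exact abs_v9_le hM (h.hbox _ (hQ i)) j) j
  rw [prod_deg9] at this
  have e : ((Nat.factorial 8 : ℕ) : ℤ) = 40320 := by norm_num [Nat.factorial]
  rw [e] at this
  exact this

end Conf

end Pool.Agent.Helper20
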