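import Mathlib
import Pool.Agent.Helper20.HypMat
import Pool.Agent.Helper20.Dichotomy

set_option autoImplicit false

namespace Pool.Agent.Helper20

open Finset

theorem prod_update_wt_8 (p : ℤ) : ∏ j, Function.update (wt p) 8 1 j = p ^ 3 := by
  rw [prod_fin9]
  have h8 : Function.update (wt p) 8 1 8 = 1 := Function.update_self ..
  have hne : ∀ j : Fin 9, j ≠ 8 → Function.update (wt p) 8 1 j = wt p j :=
    fun j hj => Function.update_of_ne hj _ _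
  rw [h8, hne 0 (by decide), hne 1 (by decide), hne 2 (by decide), hne 3 (by decide),
    hne 4 (by decide), hne 5 (by decide), hne 6 (by decide), hne 7 (by decide)]
  show (1 : ℤ) * 1 * 1 * 1 * 1 * p * p * p * 1 = p ^ 3
  ring

theorem prod_update_wt_5 (p : ℤ) : ∏ j, Function.update (wt p) 5 1 j = p ^ 4 := by
  rw [prod_fin9]
  have h8 : Function.update (wt p) 5 1 5 = 1 := Function.update_self ..
  have hne : ∀ j : Fin 9, j ≠ 5 → Function.update (wt p) 5 1 j = wt p j :=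
    fun j hj => Function.update_of_ne hj _ _
  rw [h8, hne 0 (by decide), hne 1 (by decide), hne 2 (by decide), hne 3 (by decide),
    hne 4 (by decide), hne 8 (by decide), hne 6 (by decide), hne 7 (by decide)]
  show (1 : ℤ) * 1 * 1 * 1 * 1 * 1 * p * p * p ^ 2 = p ^ 4
  ring

theorem prod_update_wt_6 (p : ℤ) : ∏ j, Function.update (wt p) 6 1 j = p ^ 4 := by
  rw [prod_fin9]
  have h8 : Function.update (wt p) 6 1 6 = 1 := Function.update_self ..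
  have hne : ∀ j : Fin 9, j ≠ 6 → Function.update (wt p) 6 1 j = wt p j :=
    fun j hj => Function.update_of_ne hj _ _
  rw [h8, hne 0 (by decide), hne 1 (by decide), hne 2 (by decide), hne 3 (by decide),
    hne 4 (by decide), hne 8 (by decide), hne 5 (by decide), hne 7 (by decide)]
  show (1 : ℤ) * 1 * 1 * 1 * 1 * p * 1 * p * p ^ 2 = p ^ 4
  ring

theorem prod_update_wt_7 (p : ℤ) : ∏ j, Function.update (wt p) 7 1 j = p ^ 4 := by
  rw [prod_fin9]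
  have h8 : Function.update (wt p) 7 1 7 = 1 := Function.update_self ..
  have hne : ∀ j : Fin 9, j ≠ 7 → Function.update (wt p) 7 1 j = wt p j :=
    fun j hj => Function.update_of_ne hj _ _
  rw [h8, hne 0 (by decide), hne 1 (by decide), hne 2 (by decide), hne 3 (by decide),
    hne 4 (by decide), hne 8 (by decide), hne 5 (by decide), hne 6 (by decide)]
  show (1 : ℤ) * 1 * 1 * 1 * 1 * p * p * 1 * p ^ 2 = p ^ 4
  ring

namespace Conf

variable {p : ℕ} {A B C : ℤ} {M : ℕ} {S : Finset (ℤ × ℤ)}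

/-- `p`-divisibility of the combination of minors dual to a new basis element -/
theorem minor_dvd (h : Conf p A B C M S) (Q : Fin 8 → ℤ × ℤ) (hQ : ∀ k, Q k ∈ S)
    (j0 : Fin 9) (r : Fin 9 → ℤ) (hr : ∀ j, j ≠ j0 → uv A B C r j = 0) :
    (∏ j, Function.update (wt (p : ℤ)) j0 1 j) ∣ ∑ j, r j * mv (M8 Q) j := by
  rw [← consRow_det_uv A B C]
  apply prod_dvd_det_col
  intro i j
  by_cases hj : j = j0
  · rw [hj, Function.update_self]; exact one_dvd _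
  · rw [Function.update_of_ne hj]
    refine Fin.cases ?_ (fun i => ?_) i
    · rw [consRow_zero, hr j hj]; exact dvd_zero _
    · rw [consRow_succ]; exact wt_dvd_uv _ A B C (Q i) (h.hmod _ (hQ i)) j

theorem ne_zero_bound {x G y : ℤ} (hx : 0 < x) (hG : G ≠ 0) (hy : 0 ≤ y) {T : ℤ}
    (hb : x * |G| * y ≤ T) : x * y ≤ T := by
  have h1 : 1 ≤ |G| := Int.one_le_abs hG
  have : x * y ≤ x * |G| * y := by
    have : x * 1 * y ≤ x * |G| * y := by gcongr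
    linarith
  linarith

theorem caseI (h : Conf p A B C M S) (hM : 1 ≤ M) (G : Fin 9 → ℤ) (hG0 : G ≠ 0)
    (hrel : ∀ P ∈ S, ∑ j, G j * v9 P j = 0)
    (hb : ∀ j, (p : ℤ) ^ 4 * |G j| * (M : ℤ) ^ deg9 j ≤ 40320 * (M : ℤ) ^ 18)
    (s2 : 40320 * (M : ℤ) ^ 15 < (p : ℤ) ^ 4) (s3 : 40320 * (M : ℤ) ^ 16 < (p : ℤ) ^ 5)
    (hc2 : (p : ℤ) ∣ G 2 - A * (G 6 - 2 * A * G 8) - A ^ 2 * G 8)
    (hc4 : (p : ℤ) ∣ G 4 - B * (G 7 - 2 * B * G 8) - B ^ 2 * G 8) :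
    ∃ D : ℤ, D ≠ 0 ∧ |D| ≤ 72 * (M : ℤ) ^ 6 ∧ S.card ≤ 2 * dv D + 2 := by
  have hM' : (1 : ℤ) ≤ M := by exact_mod_cast hM
  have hp0 : (0 : ℤ) < p := by exact_mod_cast h.hp.pos
  have g8 : G 8 = 0 := by
    by_contra hne
    have h1 := ne_zero_bound (by positivity : (0 : ℤ) < (p : ℤ) ^ 4) hne (by positivity) (hb 8)
    have h2 : (p : ℤ) ^ 4 * (M : ℤ) ^ 4 ≤ (40320 * (M : ℤ) ^ 14) * (M : ℤ) ^ 4 := by
      calc _ ≤ 40320 * (M : ℤ) ^ 18 := h1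
        _ = _ := by ring
    have h3 := le_of_mul_le_mul_right h2 (by positivity)
    have h4 : (M : ℤ) ^ 14 ≤ (M : ℤ) ^ 15 := pow_le_pow_right₀ hM' (by norm_num)
    linarith
  have g6 : G 6 = 0 := by
    by_contra hne
    have h1 := ne_zero_bound (by positivity : (0 : ℤ) < (p : ℤ) ^ 4) hne (by positivity) (hb 6)
    have h2 : (p : ℤ) ^ 4 * (M : ℤ) ^ 3 ≤ (40320 * (M : ℤ) ^ 15) * (M : ℤ) ^ 3 := by
      calc _ ≤ 40320 * (M : ℤ) ^ 18 := h1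
        _ = _ := by ring
    have h3 := le_of_mul_le_mul_right h2 (by positivity)
    linarith
  have g7 : G 7 = 0 := by
    by_contra hne
    have h1 := ne_zero_bound (by positivity : (0 : ℤ) < (p : ℤ) ^ 4) hne (by positivity) (hb 7)
    have h2 : (p : ℤ) ^ 4 * (M : ℤ) ^ 3 ≤ (40320 * (M : ℤ) ^ 15) * (M : ℤ) ^ 3 := by
      calc _ ≤ 40320 * (M : ℤ) ^ 18 := h1
        _ = _ := by ring
    have h3 := le_of_mul_le_mul_right h2 (by positivity)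
    linarith
  rw [g6, g8] at hc2
  rw [g7, g8] at hc4
  have hc2' : (p : ℤ) ∣ G 2 := by
    have : G 2 - A * (0 - 2 * A * 0) - A ^ 2 * 0 = G 2 := by ring
    rwa [this] at hc2
  have hc4' : (p : ℤ) ∣ G 4 := by
    have : G 4 - B * (0 - 2 * B * 0) - B ^ 2 * 0 = G 4 := by ring
    rwa [this] at hc4
  have small : ∀ j, deg9 j = 2 → (p : ℤ) ∣ G j → G j = 0 := by
    intro j hj hd
    by_contra hne
    have h1 : (p : ℤ) ≤ |G j| := Int.le_of_dvd (abs_pos.mpr hne) ((dvd_abs _ _).mpr hd)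
    have h2 := hb j
    rw [hj] at h2
    have h3 : (p : ℤ) ^ 4 * p * (M : ℤ) ^ 2 ≤ (p : ℤ) ^ 4 * |G j| * (M : ℤ) ^ 2 := by gcongr
    have h4 : (p : ℤ) ^ 5 * (M : ℤ) ^ 2 ≤ (40320 * (M : ℤ) ^ 16) * (M : ℤ) ^ 2 := by
      calc (p : ℤ) ^ 5 * (M : ℤ) ^ 2 = (p : ℤ) ^ 4 * p * (M : ℤ) ^ 2 := by ring
        _ ≤ 40320 * (M : ℤ) ^ 18 := h3.trans h2
        _ = _ := by ring
    have h5 := le_of_mul_le_mul_right h4 (by positivity)
    linarith
  have g2 : G 2 = 0 := small 2 rfl hc2'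
  have g4 : G 4 = 0 := small 4 rfl hc4'
  apply h.card_bilinear hM (α := G 5) (β := G 1) (γ := G 3) (δ := G 0)
  · rintro ⟨e5, e1, e3, e0⟩
    apply hG0
    ext j
    fin_cases j
    exacts [e0, e1, g2, e3, g4, e5, g6, g7, g8]
  · intro P hP
    have := hrel P hP
    rw [sum_v9_int] at this
    rw [g2, g4, g6, g7, g8] at this
    linear_combination this

/-- product bound -/
theorem prod_bound {x a b m1 m2 T : ℤ} (hx : 0 < x) (h1 : x * |a| * m1 ≤ T)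
    (hm1 : 0 ≤ m1) (hm2 : 0 ≤ m2) (h2 : x * |b| * m2 ≤ T) :
    x ^ 2 * |a * b| * (m1 * m2) ≤ T ^ 2 := by
  rw [abs_mul]
  calc x ^ 2 * (|a| * |b|) * (m1 * m2) = (x * |a| * m1) * (x * |b| * m2) := by ring
    _ ≤ T * T := by
      apply mul_le_mul h1 h2 _ (le_trans _ h1)
      · positivity
      · positivity
    _ = T ^ 2 := by ring

theorem caseII (h : Conf p A B C M S) (hM : 1 ≤ M) (G c : Fin 9 → ℤ) (hg8 : G 8 ≠ 0)
    (hrel : ∀ P ∈ S, ∑ j, G j * v9 P j = 0)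
    (hb : ∀ j, (p : ℤ) ^ 3 * |G j| * (M : ℤ) ^ deg9 j ≤ 40320 * (M : ℤ) ^ 18)
    (s4 : 16257024000 * (M : ℤ) ^ 31 < (p : ℤ) ^ 8)
    (k1 : (p : ℤ) ^ 2 ∣ c 1) (k2 : (p : ℤ) ^ 2 ∣ c 2) (k4 : (p : ℤ) ^ 2 ∣ c 4)
    (k5 : (p : ℤ) ∣ c 5) (k6 : (p : ℤ) ∣ c 6) (k7 : (p : ℤ) ∣ c 7)
    (e1 : G 1 = c 1 + A * c 5 + C * c 6 + 2 * A * C * c 8)
    (e2 : G 2 = c 2 + A * c 6 + A ^ 2 * c 8)
    (e4 : G 4 = c 4 + B * c 7 + B ^ 2 * c 8)
    (e5 : G 5 = c 5 + B * c 6 + A * c 7 + (2 * C + 2 * A * B) * c 8)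
    (e6 : G 6 = c 6 + 2 * A * c 8) (e7 : G 7 = c 7 + 2 * B * c 8) (e8 : G 8 = c 8) :
    ∃ D : ℤ, D ≠ 0 ∧ |D| ≤ 12 * 6 ^ 30 * (M : ℤ) ^ 90 ∧ S.card ≤ 2 * dv D + 4 := by
  have hM' : (1 : ℤ) ≤ M := by exact_mod_cast hM
  have hp0 : (0 : ℤ) < p := by exact_mod_cast h.hp.pos
  have hM0 : (0 : ℤ) < M := by linarith
  have hp3 : (0 : ℤ) < (p : ℤ) ^ 3 := by positivity
  have pb : ∀ i j, (p : ℤ) ^ 6 * |G i * G j| * ((M : ℤ) ^ (deg9 i + deg9 j))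
      ≤ 1625702400 * (M : ℤ) ^ 36 := by
    intro i j
    have := prod_bound hp3 (hb i) (by positivity) (by positivity) (hb j)
    calc _ = ((p : ℤ) ^ 3) ^ 2 * |G i * G j| * ((M : ℤ) ^ deg9 i * (M : ℤ) ^ deg9 j) := by
          rw [pow_add]; ring
      _ ≤ _ := this
      _ = _ := by ring
  -- (d4) : G6^2 = 4 G8 G2
  have d4 : G 6 ^ 2 - 4 * (G 8 * G 2) = 0 := by
    have hdvd : (p : ℤ) ^ 2 ∣ G 6 ^ 2 - 4 * (G 8 * G 2) := by
      have : G 6 ^ 2 - 4 * (G 8 * G 2) = c 6 ^ 2 - 4 * c 8 * c 2 := by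
        rw [e6, e8, e2]; ring
      rw [this]
      exact dvd_sub (pow_dvd_pow_of_dvd k6 2) (Dvd.dvd.mul_left k2 _)
    apply Int.eq_zero_of_abs_lt_dvd hdvd
    have q1 := pb 6 6
    have q2 := pb 8 2
    rw [show deg9 6 + deg9 6 = 6 from rfl] at q1
    rw [show deg9 8 + deg9 2 = 6 from rfl] at q2
    have q3 : (p : ℤ) ^ 6 * |G 6 ^ 2 - 4 * (G 8 * G 2)| * (M : ℤ) ^ 6
        ≤ 8128512000 * (M : ℤ) ^ 36 := by
      have : |G 6 ^ 2 - 4 * (G 8 * G 2)| ≤ |G 6 * G 6| + 4 * |G 8 * G 2| := by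
        rw [pow_two]
        refine (abs_sub _ _).trans ?_
        rw [abs_mul 4, abs_of_nonneg (by norm_num : (0 : ℤ) ≤ 4)]
      calc _ ≤ (p : ℤ) ^ 6 * (|G 6 * G 6| + 4 * |G 8 * G 2|) * (M : ℤ) ^ 6 := by gcongr
        _ = (p : ℤ) ^ 6 * |G 6 * G 6| * (M : ℤ) ^ 6
            + 4 * ((p : ℤ) ^ 6 * |G 8 * G 2| * (M : ℤ) ^ 6) := by ring
        _ ≤ _ := by linarith
    have q4 : (p : ℤ) ^ 6 * |G 6 ^ 2 - 4 * (G 8 * G 2)| ≤ 8128512000 * (M : ℤ) ^ 30 := by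
      have : ((p : ℤ) ^ 6 * |G 6 ^ 2 - 4 * (G 8 * G 2)|) * (M : ℤ) ^ 6
        ≤ (8128512000 * (M : ℤ) ^ 30) * (M : ℤ) ^ 6 := by
        calc _ ≤ 8128512000 * (M : ℤ) ^ 36 := q3
          _ = _ := by ring
      exact le_of_mul_le_mul_right this (by positivity)
    have q5 : (M : ℤ) ^ 30 ≤ (M : ℤ) ^ 31 := pow_le_pow_right₀ hM' (by norm_num)
    have q6 : (p : ℤ) ^ 6 * |G 6 ^ 2 - 4 * (G 8 * G 2)| < (p : ℤ) ^ 6 * (p : ℤ) ^ 2 := by
      have : (0 : ℤ) < (M : ℤ) ^ 31 := by positivity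
      calc _ ≤ 8128512000 * (M : ℤ) ^ 30 := q4
        _ < (p : ℤ) ^ 8 := by linarith
        _ = _ := by ring
    exact lt_of_mul_lt_mul_left q6 (by positivity)
  have d4' : G 7 ^ 2 - 4 * (G 8 * G 4) = 0 := by
    have hdvd : (p : ℤ) ^ 2 ∣ G 7 ^ 2 - 4 * (G 8 * G 4) := by
      have : G 7 ^ 2 - 4 * (G 8 * G 4) = c 7 ^ 2 - 4 * c 8 * c 4 := by
        rw [e7, e8, e4]; ring
      rw [this]
      exact dvd_sub (pow_dvd_pow_of_dvd k7 2) (Dvd.dvd.mul_left k4 _)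
    apply Int.eq_zero_of_abs_lt_dvd hdvd
    have q1 := pb 7 7
    have q2 := pb 8 4
    rw [show deg9 7 + deg9 7 = 6 from rfl] at q1
    rw [show deg9 8 + deg9 4 = 6 from rfl] at q2
    have q3 : (p : ℤ) ^ 6 * |G 7 ^ 2 - 4 * (G 8 * G 4)| * (M : ℤ) ^ 6
        ≤ 8128512000 * (M : ℤ) ^ 36 := by
      have : |G 7 ^ 2 - 4 * (G 8 * G 4)| ≤ |G 7 * G 7| + 4 * |G 8 * G 4| := by
        rw [pow_two]
        refine (abs_sub _ _).trans ?_
        rw [abs_mul 4, abs_of_nonneg (by norm_num : (0 : ℤ) ≤ 4)]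
      calc _ ≤ (p : ℤ) ^ 6 * (|G 7 * G 7| + 4 * |G 8 * G 4|) * (M : ℤ) ^ 6 := by gcongr
        _ = (p : ℤ) ^ 6 * |G 7 * G 7| * (M : ℤ) ^ 6
            + 4 * ((p : ℤ) ^ 6 * |G 8 * G 4| * (M : ℤ) ^ 6) := by ring
        _ ≤ _ := by linarith
    have q4 : (p : ℤ) ^ 6 * |G 7 ^ 2 - 4 * (G 8 * G 4)| ≤ 8128512000 * (M : ℤ) ^ 30 := by
      have : ((p : ℤ) ^ 6 * |G 7 ^ 2 - 4 * (G 8 * G 4)|) * (M : ℤ) ^ 6
        ≤ (8128512000 * (M : ℤ) ^ 30) * (M : ℤ) ^ 6 := by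
        calc _ ≤ 8128512000 * (M : ℤ) ^ 36 := q3
          _ = _ := by ring
      exact le_of_mul_le_mul_right this (by positivity)
    have q5 : (M : ℤ) ^ 30 ≤ (M : ℤ) ^ 31 := pow_le_pow_right₀ hM' (by norm_num)
    have q6 : (p : ℤ) ^ 6 * |G 7 ^ 2 - 4 * (G 8 * G 4)| < (p : ℤ) ^ 6 * (p : ℤ) ^ 2 := by
      have : (0 : ℤ) < (M : ℤ) ^ 31 := by positivity
      calc _ ≤ 8128512000 * (M : ℤ) ^ 30 := q4
        _ < (p : ℤ) ^ 8 := by linarith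
        _ = _ := by ring
    exact lt_of_mul_lt_mul_left q6 (by positivity)
  -- (d3)
  have d3 : 2 * (G 6 * G 5) - 4 * (G 8 * G 1) - 4 * (G 7 * G 2) = 0 := by
    have hdvd : (p : ℤ) ^ 2 ∣ 2 * (G 6 * G 5) - 4 * (G 8 * G 1) - 4 * (G 7 * G 2) := by
      have : 2 * (G 6 * G 5) - 4 * (G 8 * G 1) - 4 * (G 7 * G 2)
          = 2 * (c 5 * c 6) + 2 * B * c 6 ^ 2 - 2 * A * (c 6 * c 7) - 4 * c 8 * c 1
            - 4 * c 7 * c 2 - 8 * B * c 8 * c 2 := by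
        rw [e6, e8, e2, e5, e1, e7]; ring
      rw [this]
      have pp : ∀ {x y : ℤ}, (p : ℤ) ∣ x → (p : ℤ) ∣ y → (p : ℤ) ^ 2 ∣ x * y := by
        intro x y hx hy; rw [pow_two]; exact mul_dvd_mul hx hy
      refine dvd_sub (dvd_sub (dvd_sub (dvd_sub (dvd_add ?_ ?_) ?_) ?_) ?_) ?_
      · exact Dvd.dvd.mul_left (pp k5 k6) _
      · exact Dvd.dvd.mul_left (pow_dvd_pow_of_dvd k6 2) _
      · exact Dvd.dvd.mul_left (pp k6 k7) _
      · exact Dvd.dvd.mul_left k1 _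
      · exact Dvd.dvd.mul_left k2 _
      · exact Dvd.dvd.mul_left k2 _
    apply Int.eq_zero_of_abs_lt_dvd hdvd
    have q1 := pb 6 5
    have q2 := pb 8 1
    have q2' := pb 7 2
    rw [show deg9 6 + deg9 5 = 5 from rfl] at q1
    rw [show deg9 8 + deg9 1 = 5 from rfl] at q2
    rw [show deg9 7 + deg9 2 = 5 from rfl] at q2'
    have q3 : (p : ℤ) ^ 6 * |2 * (G 6 * G 5) - 4 * (G 8 * G 1) - 4 * (G 7 * G 2)| * (M : ℤ) ^ 5
        ≤ 16257024000 * (M : ℤ) ^ 36 := by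
      have : |2 * (G 6 * G 5) - 4 * (G 8 * G 1) - 4 * (G 7 * G 2)|
          ≤ 2 * |G 6 * G 5| + 4 * |G 8 * G 1| + 4 * |G 7 * G 2| := by
        have a1 : |2 * (G 6 * G 5)| ≤ 2 * |G 6 * G 5| := by
          rw [abs_mul 2, abs_of_nonneg (by norm_num : (0 : ℤ) ≤ 2)]
        have a2 : |4 * (G 8 * G 1)| ≤ 4 * |G 8 * G 1| := by
          rw [abs_mul 4, abs_of_nonneg (by norm_num : (0 : ℤ) ≤ 4)]
        have a3 : |4 * (G 7 * G 2)| ≤ 4 * |G 7 * G 2| := by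
          rw [abs_mul 4, abs_of_nonneg (by norm_num : (0 : ℤ) ≤ 4)]
        exact abs_sub_le' (abs_sub_le' a1 a2) a3
      calc _ ≤ (p : ℤ) ^ 6 * (2 * |G 6 * G 5| + 4 * |G 8 * G 1| + 4 * |G 7 * G 2|)
            * (M : ℤ) ^ 5 := by gcongr
        _ = 2 * ((p : ℤ) ^ 6 * |G 6 * G 5| * (M : ℤ) ^ 5)
            + 4 * ((p : ℤ) ^ 6 * |G 8 * G 1| * (M : ℤ) ^ 5)
            + 4 * ((p : ℤ) ^ 6 * |G 7 * G 2| * (M : ℤ) ^ 5) := by ring
        _ ≤ _ := by linarith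
    have q4 : (p : ℤ) ^ 6 * |2 * (G 6 * G 5) - 4 * (G 8 * G 1) - 4 * (G 7 * G 2)|
        ≤ 16257024000 * (M : ℤ) ^ 31 := by
      have : ((p : ℤ) ^ 6 * |2 * (G 6 * G 5) - 4 * (G 8 * G 1) - 4 * (G 7 * G 2)|) * (M : ℤ) ^ 5
        ≤ (16257024000 * (M : ℤ) ^ 31) * (M : ℤ) ^ 5 := by
        calc _ ≤ 16257024000 * (M : ℤ) ^ 36 := q3
          _ = _ := by ring
      exact le_of_mul_le_mul_right this (by positivity)
    have q6 : (p : ℤ) ^ 6 * |2 * (G 6 * G 5) - 4 * (G 8 * G 1) - 4 * (G 7 * G 2)|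
        < (p : ℤ) ^ 6 * (p : ℤ) ^ 2 := by
      calc _ ≤ 16257024000 * (M : ℤ) ^ 31 := q4
        _ < (p : ℤ) ^ 8 := s4
        _ = _ := by ring
    exact lt_of_mul_lt_mul_left q6 (by positivity)
  -- new coordinates
  obtain ⟨g, hg⟩ : ∃ z, z = G 8 := ⟨_, rfl⟩
  have hg0 : g ≠ 0 := by rw [hg]; exact hg8
  rw [← hg] at d4 d4' d3
  obtain ⟨f1, hf1⟩ : ∃ z, z = 4 * (g * G 5 - G 6 * G 7) := ⟨_, rfl⟩
  obtain ⟨f3, hf3⟩ : ∃ z, z = - f1 * G 7 + 8 * g ^ 2 * G 3 - 2 * G 6 * G 7 ^ 2 := ⟨_, rfl⟩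
  obtain ⟨f4, hf4⟩ : ∃ z, z = f1 * G 6 * G 7 - (8 * g ^ 2 * G 1 - 2 * G 7 * G 6 ^ 2) * G 7
      - (8 * g ^ 2 * G 3 - 2 * G 6 * G 7 ^ 2) * G 6 + 16 * g ^ 3 * G 0 - G 6 ^ 2 * G 7 ^ 2 :=
    ⟨_, rfl⟩
  have key : ∀ P ∈ S, (2 * g * P.2 + G 6) * ((2 * g * P.1 + G 7) ^ 2 * (2 * g * P.2 + G 6)
      + f1 * (2 * g * P.1 + G 7) + f3) = - f4 := by
    intro P hP
    have := hrel P hP
    rw [sum_v9_int] at this
    rw [← hg] at this
    rw [hf4, hf3, hf1]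
    linear_combination 16 * g ^ 3 * this
      + (4 * g ^ 2 * P.1 ^ 2 - 2 * G 7 * (2 * g * P.1 + G 7)) * d4
      + (4 * g ^ 2 * P.2 ^ 2) * d4' + (2 * g * (2 * g * P.1 + G 7)) * d3
  -- sizes
  set T : ℤ := 40320 * (M : ℤ) ^ 18 with hT
  have hT1 : 1 ≤ T := by
    have : (1 : ℤ) ≤ (M : ℤ) ^ 18 := one_le_pow₀ hM'
    rw [hT]; linarith
  have hT0 : 0 ≤ T := by linarith
  have gb : ∀ j, |G j| ≤ T := by
    intro j
    have h1 := hb j
    have h2 : (1 : ℤ) ≤ (p : ℤ) ^ 3 * (M : ℤ) ^ deg9 j := by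
      have : (0 : ℤ) < (p : ℤ) ^ 3 * (M : ℤ) ^ deg9 j := by positivity
      linarith
    calc |G j| = |G j| * 1 := by ring
      _ ≤ |G j| * ((p : ℤ) ^ 3 * (M : ℤ) ^ deg9 j) := by gcongr
      _ = (p : ℤ) ^ 3 * |G j| * (M : ℤ) ^ deg9 j := by ring
      _ ≤ _ := h1
  have gbg : |g| ≤ T := by rw [hg]; exact gb 8
  have hT2 : 0 ≤ T ^ 2 := by positivity
  have hf1b : |f1| ≤ 8 * T ^ 2 := by
    rw [hf1, abs_mul, abs_of_nonneg (by norm_num : (0 : ℤ) ≤ 4)]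
    have := abs_sub_le' (abs_mul_le gbg (gb 5)) (abs_mul_le (gb 6) (gb 7))
    nlinarith
  have hg2 : |8 * g ^ 2| ≤ 8 * (T * T) := by
    rw [abs_mul, abs_of_nonneg (by norm_num : (0 : ℤ) ≤ 8), pow_two]
    have := abs_mul_le gbg gbg
    linarith
  have hf3b : |f3| ≤ 18 * T ^ 3 := by
    have a1 : |-f1 * G 7| ≤ (8 * T ^ 2) * T := abs_mul_le (by rw [abs_neg]; exact hf1b) (gb 7)
    have a2 : |8 * g ^ 2 * G 3| ≤ (8 * (T * T)) * T := abs_mul_le hg2 (gb 3)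
    have a3 : |2 * G 6 * G 7 ^ 2| ≤ (2 * T) * (T * T) := by
      apply abs_mul_le
      · rw [abs_mul, abs_of_nonneg (by norm_num : (0 : ℤ) ≤ 2)]
        have := gb 6; linarith
      · rw [pow_two]; exact abs_mul_le (gb 7) (gb 7)
    rw [hf3]
    calc _ ≤ (8 * T ^ 2) * T + (8 * (T * T)) * T + (2 * T) * (T * T) :=
          abs_sub_le' (abs_add_le' a1 a2) a3
      _ = _ := by ring
  have hf4b : |f4| ≤ 45 * T ^ 4 := by
    have a1 : |f1 * G 6 * G 7| ≤ (8 * T ^ 2) * T * T :=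
      abs_mul_le (abs_mul_le hf1b (gb 6)) (gb 7)
    have b1 : |8 * g ^ 2 * G 1| ≤ (8 * (T * T)) * T := abs_mul_le hg2 (gb 1)
    have b2 : |2 * G 7 * G 6 ^ 2| ≤ (2 * T) * (T * T) := by
      apply abs_mul_le
      · rw [abs_mul, abs_of_nonneg (by norm_num : (0 : ℤ) ≤ 2)]
        have := gb 7; linarith
      · rw [pow_two]; exact abs_mul_le (gb 6) (gb 6)
    have a2 : |(8 * g ^ 2 * G 1 - 2 * G 7 * G 6 ^ 2) * G 7|
        ≤ ((8 * (T * T)) * T + (2 * T) * (T * T)) * T := abs_mul_le (abs_sub_le' b1 b2) (gb 7)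
    have b3 : |8 * g ^ 2 * G 3| ≤ (8 * (T * T)) * T := abs_mul_le hg2 (gb 3)
    have b4 : |2 * G 6 * G 7 ^ 2| ≤ (2 * T) * (T * T) := by
      apply abs_mul_le
      · rw [abs_mul, abs_of_nonneg (by norm_num : (0 : ℤ) ≤ 2)]
        have := gb 6; linarith
      · rw [pow_two]; exact abs_mul_le (gb 7) (gb 7)
    have a3 : |(8 * g ^ 2 * G 3 - 2 * G 6 * G 7 ^ 2) * G 6|
        ≤ ((8 * (T * T)) * T + (2 * T) * (T * T)) * T := abs_mul_le (abs_sub_le' b3 b4) (gb 6)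
    have a4 : |16 * g ^ 3 * G 0| ≤ (16 * (T * T * T)) * T := by
      apply abs_mul_le _ (gb 0)
      rw [abs_mul, abs_of_nonneg (by norm_num : (0 : ℤ) ≤ 16)]
      have e : g ^ 3 = g * g * g := by ring
      rw [e]
      have := abs_mul_le (abs_mul_le gbg gbg) gbg
      linarith
    have a5 : |G 6 ^ 2 * G 7 ^ 2| ≤ (T * T) * (T * T) := by
      apply abs_mul_le
      · rw [pow_two]; exact abs_mul_le (gb 6) (gb 6)
      · rw [pow_two]; exact abs_mul_le (gb 7) (gb 7)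
    rw [hf4]
    calc _ ≤ (8 * T ^ 2) * T * T + ((8 * (T * T)) * T + (2 * T) * (T * T)) * T
          + ((8 * (T * T)) * T + (2 * T) * (T * T)) * T + (16 * (T * T * T)) * T
          + (T * T) * (T * T) :=
          abs_sub_le' (abs_add_le' (abs_sub_le' (abs_sub_le' a1 a2) a3) a4) a5
      _ = _ := by ring
  have hfin : ∀ D : ℤ, |D| ≤ 45 * T ^ 4 → |D| ≤ 12 * 6 ^ 30 * (M : ℤ) ^ 90 := by
    intro D hD
    have e1 : 45 * T ^ 4 = (45 * 40320 ^ 4) * (M : ℤ) ^ 72 := by rw [hT]; ring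
    have e2 : (M : ℤ) ^ 72 ≤ (M : ℤ) ^ 90 := pow_le_pow_right₀ hM' (by norm_num)
    rw [e1] at hD
    have e3 : (45 * 40320 ^ 4 : ℤ) ≤ 12 * 6 ^ 30 := by norm_num
    calc |D| ≤ (45 * 40320 ^ 4) * (M : ℤ) ^ 72 := hD
      _ ≤ (12 * 6 ^ 30) * (M : ℤ) ^ 90 := by gcongr
      _ = _ := by ring
  have h2g : (2 * g) ≠ 0 := mul_ne_zero two_ne_zero hg0
  by_cases hf40 : f4 = 0
  · set S1 := S.filter (fun P => 2 * g * P.2 + G 6 = 0) with hS1
    set S2 := S.filter (fun P => ¬ (2 * g * P.2 + G 6 = 0)) with hS2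
    have c1 : S1.card ≤ 1 := h.fiber_snd h2g 0
    have hsum : S.card = S1.card + S2.card := by
      rw [hS1, hS2]; exact (Finset.card_filter_add_card_filter_not _).symm
    have hconf2 : Conf p A B C M S2 := h.subset (Finset.filter_subset _ _)
    have key2 : ∀ P ∈ S2, (2 * g * P.1 + G 7) * ((2 * g * P.1 + G 7) * (2 * g * P.2 + G 6) + f1)
        = - f3 := by
      intro P hP
      rw [hS2, Finset.mem_filter] at hP
      have := key P hP.1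
      rw [hf40, neg_zero] at this
      have h3 := (mul_eq_zero.mp this).resolve_left hP.2
      linear_combination h3
    by_cases hf30 : f3 = 0
    · set S3 := S2.filter (fun P => 2 * g * P.1 + G 7 = 0) with hS3
      set S4 := S2.filter (fun P => ¬ (2 * g * P.1 + G 7 = 0)) with hS4
      have c3 : S3.card ≤ 1 := hconf2.fiber_fst h2g 0
      have hsum2 : S2.card = S3.card + S4.card := by
        rw [hS3, hS4]; exact (Finset.card_filter_add_card_filter_not _).symm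
      have hconf4 : Conf p A B C M S4 := hconf2.subset (Finset.filter_subset _ _)
      obtain ⟨D, hD0, hDb, hDc⟩ := hconf4.card_bilinear hM (α := 4 * g ^ 2)
        (β := 2 * g * G 6) (γ := 2 * g * G 7) (δ := G 6 * G 7 + f1) (by
          rintro ⟨h', _, _, _⟩
          have := (mul_eq_zero.mp h').resolve_left (by norm_num)
          exact hg0 (pow_eq_zero_iff two_ne_zero |>.mp this)) (by
          intro P hP
          rw [hS4, Finset.mem_filter] at hP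
          have := key2 P hP.1
          rw [hf30, neg_zero] at this
          have h3 := (mul_eq_zero.mp this).resolve_left hP.2
          linear_combination h3)
      refine ⟨D, hD0, ?_, by omega⟩
      refine hDb.trans ?_
      have h1 : (M : ℤ) ^ 6 ≤ (M : ℤ) ^ 90 := pow_le_pow_right₀ hM' (by norm_num)
      calc 72 * (M : ℤ) ^ 6 ≤ (12 * 6 ^ 30) * (M : ℤ) ^ 90 := by
            gcongr; norm_num
        _ = _ := by ring
    · refine ⟨f3, hf30, ?_, ?_⟩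
      · apply hfin
        refine hf3b.trans ?_
        have : T ^ 3 ≤ T ^ 4 := pow_le_pow_right₀ hT1 (by norm_num)
        have h5 : 0 ≤ T ^ 3 := by positivity
        linarith
      · have := card_le_of_dvd S2 (fun P => 2 * g * P.1 + G 7) 1 f3 hf30
          (fun P hP => by
            have := key2 P hP
            exact (dvd_neg (a := (2 * g * P.1 + G 7))).mp (Dvd.intro _ this))
          (fun y => hconf2.fiber_fst h2g y)
        omega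
  · refine ⟨f4, hf40, hfin f4 hf4b, ?_⟩
    have := card_le_of_dvd S (fun P => 2 * g * P.2 + G 6) 1 f4 hf40
      (fun P hP => by
        have := key P hP
        exact (dvd_neg (a := (2 * g * P.2 + G 6))).mp (Dvd.intro _ this))
      (fun y => h.fiber_snd h2g y)
    omega

end Conf

end Pool.Agent.Helper20
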