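import Mathlib
import Pool.Agent.Helper20.HypMain

set_option autoImplicit false

namespace Pool.Agent.Helper20

open Finset

theorem uv_r8 (A B C : ℤ) : ∀ j, j ≠ 8 →
    uv A B C (![0, 0, 0, 0, 0, 0, 0, 0, 1] : Fin 9 → ℤ) j = 0 := by
  intro j hj
  fin_cases j <;> first | (exact absurd rfl hj) | (simp [uv])

theorem uv_r6 (A B C : ℤ) : ∀ j, j ≠ 6 →
    uv A B C (![0, 0, 0, 0, 0, 0, 1, 0, -(2 * A)] : Fin 9 → ℤ) j = 0 := by
  intro j hj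
  fin_cases j <;> first | (exact absurd rfl hj) | (simp [uv])

theorem uv_r7 (A B C : ℤ) : ∀ j, j ≠ 7 →
    uv A B C (![0, 0, 0, 0, 0, 0, 0, 1, -(2 * B)] : Fin 9 → ℤ) j = 0 := by
  intro j hj
  fin_cases j <;> first | (exact absurd rfl hj) | (simp [uv])

theorem uv_r5 (A B C : ℤ) : ∀ j, j ≠ 5 →
    uv A B C (![0, 0, 0, 0, 0, 1, -B, -A, 2 * A * B - 2 * C] : Fin 9 → ℤ) j = 0 := by
  intro j hj
  fin_cases j <;> first | (exact absurd rfl hj) | (simp [uv]; done) | (simp [uv]; ring)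

namespace Conf

variable {p : ℕ} {A B C : ℤ} {M : ℕ} {S : Finset (ℤ × ℤ)}

theorem main_r8 (h : Conf p A B C M S) (hM : 1 ≤ M) (hS : 5 ≤ S.card)
    (s1 : 362880 * (M : ℤ) ^ 18 < (p : ℤ) ^ 5)
    (s2 : 40320 * (M : ℤ) ^ 15 < (p : ℤ) ^ 4) (s3 : 40320 * (M : ℤ) ^ 16 < (p : ℤ) ^ 5)
    (s4 : 16257024000 * (M : ℤ) ^ 31 < (p : ℤ) ^ 8)
    (Q : Fin 8 → ℤ × ℤ) (hQ : ∀ k, Q k ∈ S) (hm : mv (M8 Q) ≠ 0) :
    ∃ D : ℤ, D ≠ 0 ∧ |D| ≤ 12 * 6 ^ 30 * (M : ℤ) ^ 90 ∧ S.card ≤ 2 * dv D + 4 := by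
  have hM' : (1 : ℤ) ≤ M := by exact_mod_cast hM
  have hp0 : (0 : ℤ) < p := by exact_mod_cast h.hp.pos
  obtain ⟨κ, G, hκ, hκG, hprim⟩ := exists_prim (mv (M8 Q)) hm
  have hrel : ∀ P ∈ S, ∑ j, G j * v9 P j = 0 := by
    intro P hP
    have h1 := h.vanish hM s1 Q hQ hP
    have h2 : κ * ∑ j, G j * v9 P j = 0 := by
      rw [← h1, Finset.mul_sum]
      apply Finset.sum_congr rfl
      intro j _
      rw [hκG j]; ring
    exact (mul_eq_zero.mp h2).resolve_left hκ.ne'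
  -- coordinates in the new basis
  obtain ⟨c8, hc8⟩ : ∃ z, z = G 8 := ⟨_, rfl⟩
  obtain ⟨c6, hc6⟩ : ∃ z, z = G 6 - 2 * A * c8 := ⟨_, rfl⟩
  obtain ⟨c7, hc7⟩ : ∃ z, z = G 7 - 2 * B * c8 := ⟨_, rfl⟩
  obtain ⟨c5, hc5⟩ : ∃ z, z = G 5 - B * c6 - A * c7 - (2 * C + 2 * A * B) * c8 := ⟨_, rfl⟩
  obtain ⟨c4, hc4⟩ : ∃ z, z = G 4 - B * c7 - B ^ 2 * c8 := ⟨_, rfl⟩
  obtain ⟨c3, hc3⟩ : ∃ z, z = G 3 - B * c5 - C * c7 - 2 * B * C * c8 := ⟨_, rfl⟩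
  obtain ⟨c2, hc2⟩ : ∃ z, z = G 2 - A * c6 - A ^ 2 * c8 := ⟨_, rfl⟩
  obtain ⟨c1, hc1⟩ : ∃ z, z = G 1 - A * c5 - C * c6 - 2 * A * C * c8 := ⟨_, rfl⟩
  obtain ⟨c0, hc0⟩ : ∃ z, z = G 0 - C * c5 - C ^ 2 * c8 := ⟨_, rfl⟩
  have hid : ∀ P ∈ S, c0 + c1 * P.1 + c2 * P.1 ^ 2 + c3 * P.2 + c4 * P.2 ^ 2
      + (P.1 * P.2 + A * P.1 + B * P.2 + C) * (c5 + c6 * P.1 + c7 * P.2)
      + c8 * (P.1 * P.2 + A * P.1 + B * P.2 + C) ^ 2 = 0 := by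
    intro P hP
    have h1 := hrel P hP
    rw [sum_v9_int] at h1
    rw [hc0, hc1, hc2, hc3, hc4, hc5, hc6, hc7, hc8]
    linear_combination h1
  have hT1 := h.lemmaT hS (t0 := c0) (tx := c1) (txx := c2) (ty := c3) (tyy := c4) (by
    intro P hP
    have h1 := hid P hP
    have h2 := h.hmod P hP
    have h3 : c0 + c1 * P.1 + c2 * P.1 ^ 2 + c3 * P.2 + c4 * P.2 ^ 2 =
        (P.1 * P.2 + A * P.1 + B * P.2 + C) * (-(c5 + c6 * P.1 + c7 * P.2)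
          - c8 * (P.1 * P.2 + A * P.1 + B * P.2 + C)) := by linear_combination h1
    rw [h3]
    exact Dvd.dvd.mul_right h2 _)
  obtain ⟨d0, d1, d2, d3, d4⟩ := hT1
  -- the dual minors
  have hsumκ : ∀ r : Fin 9 → ℤ, ∑ j, r j * mv (M8 Q) j = κ * ∑ j, r j * G j := by
    intro r
    rw [Finset.mul_sum]
    apply Finset.sum_congr rfl
    intro j _
    rw [hκG j]; ring
  have m8 : (p : ℤ) ^ 3 ∣ κ * c8 := by
    have := h.minor_dvd Q hQ 8 _ (uv_r8 A B C)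
    rw [prod_update_wt_8, hsumκ, sum_fin9] at this
    convert this using 2
    rw [hc8]
    show G 8 = 0 * G 0 + 0 * G 1 + 0 * G 2 + 0 * G 3 + 0 * G 4 + 0 * G 5 + 0 * G 6 + 0 * G 7
      + 1 * G 8
    ring
  have m6 : (p : ℤ) ^ 4 ∣ κ * c6 := by
    have := h.minor_dvd Q hQ 6 _ (uv_r6 A B C)
    rw [prod_update_wt_6, hsumκ, sum_fin9] at this
    convert this using 2
    rw [hc6, hc8]
    show G 6 - 2 * A * G 8 = 0 * G 0 + 0 * G 1 + 0 * G 2 + 0 * G 3 + 0 * G 4 + 0 * G 5 + 1 * G 6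
      + 0 * G 7 + -(2 * A) * G 8
    ring
  have m7 : (p : ℤ) ^ 4 ∣ κ * c7 := by
    have := h.minor_dvd Q hQ 7 _ (uv_r7 A B C)
    rw [prod_update_wt_7, hsumκ, sum_fin9] at this
    convert this using 2
    rw [hc7, hc8]
    show G 7 - 2 * B * G 8 = 0 * G 0 + 0 * G 1 + 0 * G 2 + 0 * G 3 + 0 * G 4 + 0 * G 5 + 0 * G 6
      + 1 * G 7 + -(2 * B) * G 8
    ring
  have m5 : (p : ℤ) ^ 4 ∣ κ * c5 := by
    have := h.minor_dvd Q hQ 5 _ (uv_r5 A B C)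
    rw [prod_update_wt_5, hsumκ, sum_fin9] at this
    convert this using 2
    rw [hc5, hc6, hc7, hc8]
    show G 5 - B * (G 6 - 2 * A * G 8) - A * (G 7 - 2 * B * G 8) - (2 * C + 2 * A * B) * G 8
      = 0 * G 0 + 0 * G 1 + 0 * G 2 + 0 * G 3 + 0 * G 4 + 1 * G 5 + -B * G 6
      + -A * G 7 + (2 * A * B - 2 * C) * G 8
    ring
  have hbk : ∀ k : ℕ, (p : ℤ) ^ k ∣ κ →
      ∀ j, (p : ℤ) ^ k * |G j| * (M : ℤ) ^ deg9 j ≤ 40320 * (M : ℤ) ^ 18 := by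
    intro k hk j
    have h1 : (p : ℤ) ^ k ≤ κ := Int.le_of_dvd hκ hk
    have h2 := h.mv_bound hM Q hQ j
    rw [hκG j, abs_mul, abs_of_pos hκ] at h2
    refine le_trans ?_ h2
    gcongr
  by_cases hcase : (p : ℤ) ∣ c5 ∧ (p : ℤ) ∣ c6 ∧ (p : ℤ) ∣ c7
  · -- Case II
    obtain ⟨k5, k6, k7⟩ := hcase
    have hc8p : ¬ ((p : ℤ) ∣ c8) := by
      intro k8
      obtain ⟨j, hj⟩ := hprim (p : ℤ) h.prime_int
      apply hj
      have f8 : (p : ℤ) ∣ G 8 := by rw [← hc8]; exact k8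
      have f6 : (p : ℤ) ∣ G 6 := by
        have : G 6 = c6 + 2 * A * c8 := by rw [hc6]; ring
        rw [this]; exact dvd_add k6 (Dvd.dvd.mul_left k8 _)
      have f7 : (p : ℤ) ∣ G 7 := by
        have : G 7 = c7 + 2 * B * c8 := by rw [hc7]; ring
        rw [this]; exact dvd_add k7 (Dvd.dvd.mul_left k8 _)
      have f5 : (p : ℤ) ∣ G 5 := by
        have : G 5 = c5 + B * c6 + A * c7 + (2 * C + 2 * A * B) * c8 := by rw [hc5]; ring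
        rw [this]
        exact dvd_add (dvd_add (dvd_add k5 (Dvd.dvd.mul_left k6 _)) (Dvd.dvd.mul_left k7 _))
          (Dvd.dvd.mul_left k8 _)
      have f4 : (p : ℤ) ∣ G 4 := by
        have : G 4 = c4 + B * c7 + B ^ 2 * c8 := by rw [hc4]; ring
        rw [this]
        exact dvd_add (dvd_add d4 (Dvd.dvd.mul_left k7 _)) (Dvd.dvd.mul_left k8 _)
      have f3 : (p : ℤ) ∣ G 3 := by
        have : G 3 = c3 + B * c5 + C * c7 + 2 * B * C * c8 := by rw [hc3]; ring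
        rw [this]
        exact dvd_add (dvd_add (dvd_add d3 (Dvd.dvd.mul_left k5 _)) (Dvd.dvd.mul_left k7 _))
          (Dvd.dvd.mul_left k8 _)
      have f2 : (p : ℤ) ∣ G 2 := by
        have : G 2 = c2 + A * c6 + A ^ 2 * c8 := by rw [hc2]; ring
        rw [this]
        exact dvd_add (dvd_add d2 (Dvd.dvd.mul_left k6 _)) (Dvd.dvd.mul_left k8 _)
      have f1 : (p : ℤ) ∣ G 1 := by
        have : G 1 = c1 + A * c5 + C * c6 + 2 * A * C * c8 := by rw [hc1]; ring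
        rw [this]
        exact dvd_add (dvd_add (dvd_add d1 (Dvd.dvd.mul_left k5 _)) (Dvd.dvd.mul_left k6 _))
          (Dvd.dvd.mul_left k8 _)
      have f0 : (p : ℤ) ∣ G 0 := by
        have : G 0 = c0 + C * c5 + C ^ 2 * c8 := by rw [hc0]; ring
        rw [this]
        exact dvd_add (dvd_add d0 (Dvd.dvd.mul_left k5 _)) (Dvd.dvd.mul_left k8 _)
      fin_cases j
      exacts [f0, f1, f2, f3, f4, f5, f6, f7, f8]
    have hpκ : (p : ℤ) ^ 3 ∣ κ := h.prime_int.pow_dvd_of_dvd_mul_right 3 hc8p m8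
    -- second application of Bezout
    obtain ⟨b0, hb0⟩ := d0
    obtain ⟨b1, hb1⟩ := d1
    obtain ⟨b2, hb2⟩ := d2
    obtain ⟨b3, hb3⟩ := d3
    obtain ⟨b4, hb4⟩ := d4
    obtain ⟨b5, hb5⟩ := id k5
    obtain ⟨b6, hb6⟩ := id k6
    obtain ⟨b7, hb7⟩ := id k7
    have hT2 := h.lemmaT hS (t0 := b0) (tx := b1) (txx := b2) (ty := b3) (tyy := b4) (by
      intro P hP
      have h1 := hid P hP
      obtain ⟨f, hf⟩ := h.hmod P hP
      rw [hf, hb0, hb1, hb2, hb3, hb4, hb5, hb6, hb7] at h1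
      have h2 : (p : ℤ) * ((b0 + b1 * P.1 + b2 * P.1 ^ 2 + b3 * P.2 + b4 * P.2 ^ 2)
          + p * (f * (b5 + b6 * P.1 + b7 * P.2) + c8 * f ^ 2)) = 0 := by
        linear_combination h1
      have h3 := (mul_eq_zero.mp h2).resolve_left hp0.ne'
      have h4 : b0 + b1 * P.1 + b2 * P.1 ^ 2 + b3 * P.2 + b4 * P.2 ^ 2 =
          p * (-(f * (b5 + b6 * P.1 + b7 * P.2) + c8 * f ^ 2)) := by linear_combination h3
      rw [h4]; exact Dvd.intro _ rfl)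
    obtain ⟨_, l1, l2, _, l4⟩ := hT2
    have hg8 : G 8 ≠ 0 := by
      intro h0; apply hc8p; rw [hc8, h0]; exact dvd_zero _
    apply h.caseII hM G (![c0, c1, c2, c3, c4, c5, c6, c7, c8] : Fin 9 → ℤ) hg8 hrel (hbk 3 hpκ) s4
    · show (p : ℤ) ^ 2 ∣ c1
      rw [hb1, pow_two]; exact mul_dvd_mul_left _ l1
    · show (p : ℤ) ^ 2 ∣ c2
      rw [hb2, pow_two]; exact mul_dvd_mul_left _ l2
    · show (p : ℤ) ^ 2 ∣ c4
      rw [hb4, pow_two]; exact mul_dvd_mul_left _ l4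
    · exact k5
    · exact k6
    · exact k7
    · show G 1 = c1 + A * c5 + C * c6 + 2 * A * C * c8
      rw [hc1]; ring
    · show G 2 = c2 + A * c6 + A ^ 2 * c8
      rw [hc2]; ring
    · show G 4 = c4 + B * c7 + B ^ 2 * c8
      rw [hc4]; ring
    · show G 5 = c5 + B * c6 + A * c7 + (2 * C + 2 * A * B) * c8
      rw [hc5]; ring
    · show G 6 = c6 + 2 * A * c8
      rw [hc6]; ring
    · show G 7 = c7 + 2 * B * c8
      rw [hc7]; ring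
    · show G 8 = c8
      rw [hc8]
  · -- Case I
    have hpκ : (p : ℤ) ^ 4 ∣ κ := by
      by_cases k5 : (p : ℤ) ∣ c5
      · by_cases k6 : (p : ℤ) ∣ c6
        · have k7 : ¬ ((p : ℤ) ∣ c7) := fun k7 => hcase ⟨k5, k6, k7⟩
          exact h.prime_int.pow_dvd_of_dvd_mul_right 4 k7 m7
        · exact h.prime_int.pow_dvd_of_dvd_mul_right 4 k6 m6
      · exact h.prime_int.pow_dvd_of_dvd_mul_right 4 k5 m5
    have hG0 : G ≠ 0 := by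
      intro h0
      apply hm
      ext j
      rw [hκG j, h0]; simp
    obtain ⟨D, hD0, hDb, hDc⟩ := h.caseI hM G hG0 hrel (hbk 4 hpκ) s2 s3
      (by rw [← hc8, ← hc6, ← hc2]; exact d2) (by rw [← hc8, ← hc7, ← hc4]; exact d4)
    refine ⟨D, hD0, ?_, by omega⟩
    refine hDb.trans ?_
    have h1 : (M : ℤ) ^ 6 ≤ (M : ℤ) ^ 90 := pow_le_pow_right₀ hM' (by norm_num)
    calc 72 * (M : ℤ) ^ 6 ≤ (12 * 6 ^ 30) * (M : ℤ) ^ 90 := by
          gcongr; norm_num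
      _ = _ := by ring

/-- combined bound -/
theorem card_bound (h : Conf p A B C M S) (hM : 1 ≤ M)
    (s4 : 16257024000 * M ^ 31 < p ^ 8) :
    ∃ D : ℤ, D ≠ 0 ∧ |D| ≤ 12 * 6 ^ 30 * (M : ℤ) ^ 90 ∧ S.card ≤ 4 * dv D + 8 := by
  have hM' : (1 : ℤ) ≤ M := by exact_mod_cast hM
  have n4 : 16257024000 * (M : ℤ) ^ 31 < (p : ℤ) ^ 8 := by exact_mod_cast s4
  have n2 : 40320 * (M : ℤ) ^ 15 < (p : ℤ) ^ 4 := by
    by_contra hcon
    push Not at hcon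
    have h1 : ((p : ℤ) ^ 4) ^ 2 ≤ (40320 * (M : ℤ) ^ 15) ^ 2 := by gcongr
    have h2 : (40320 * (M : ℤ) ^ 15) ^ 2 = 1625702400 * (M : ℤ) ^ 30 := by ring
    have h3 : (M : ℤ) ^ 30 ≤ (M : ℤ) ^ 31 := pow_le_pow_right₀ hM' (by norm_num)
    have h4 : ((p : ℤ) ^ 4) ^ 2 = (p : ℤ) ^ 8 := by ring
    have h5 : (0 : ℤ) < (M : ℤ) ^ 31 := by positivity
    linarith
  have n1 : 362880 * (M : ℤ) ^ 18 < (p : ℤ) ^ 5 := by
    by_contra hcon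
    push Not at hcon
    have h1 : ((p : ℤ) ^ 5) ^ 8 ≤ (362880 * (M : ℤ) ^ 18) ^ 8 := by gcongr
    have h2 : (362880 * (M : ℤ) ^ 18) ^ 8 = 362880 ^ 8 * (M : ℤ) ^ 144 := by ring
    have h3 : (M : ℤ) ^ 144 ≤ (M : ℤ) ^ 155 := pow_le_pow_right₀ hM' (by norm_num)
    have h4 : ((p : ℤ) ^ 5) ^ 8 = ((p : ℤ) ^ 8) ^ 5 := by ring
    have h5 : (0 : ℤ) < (M : ℤ) ^ 155 := by positivity
    have h6 : (16257024000 * (M : ℤ) ^ 31) ^ 5 ≤ ((p : ℤ) ^ 8) ^ 5 := by gcongr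
    have h7 : (16257024000 * (M : ℤ) ^ 31) ^ 5 = 16257024000 ^ 5 * (M : ℤ) ^ 155 := by ring
    have h8 : (362880 : ℤ) ^ 8 < 16257024000 ^ 5 := by norm_num
    nlinarith
  have n3 : 40320 * (M : ℤ) ^ 16 < (p : ℤ) ^ 5 := by
    have : (M : ℤ) ^ 16 ≤ (M : ℤ) ^ 18 := pow_le_pow_right₀ hM' (by norm_num)
    have h5 : (0 : ℤ) < (M : ℤ) ^ 18 := by positivity
    linarith
  by_cases hS : 5 ≤ S.card
  · rcases minor_or_two_relations S (v9 : ℤ × ℤ → Fin 9 → ℤ) with ⟨Q, hQ, hm⟩ | ⟨g, g', hind, hg, hg'⟩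
    · obtain ⟨D, h1, h2, h3⟩ := h.main_r8 hM hS n1 n2 n3 n4 Q hQ hm
      exact ⟨D, h1, h2, by omega⟩
    · exact h.card_two_curves hM g g' hind hg hg'
  · refine ⟨1, one_ne_zero, ?_, by omega⟩
    rw [abs_one]
    have : (1 : ℤ) ≤ (M : ℤ) ^ 90 := one_le_pow₀ hM'
    have h2 : (1 : ℤ) ≤ 12 * 6 ^ 30 := by norm_num
    nlinarith

end Conf

end Pool.Agent.Helper20
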